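import Pool.Agent.H385E.Ann

/-!
Two rigidity lemmas for holomorphic functions in an annulus.
-/

open Complex Metric Set Filter Topology ComplexConjugate MeasureTheory
open scoped ContDiff ENNReal

namespace Pool.Agent.H385E

open Pool.Agent.H385

theorem An_preconnected {r s : ℝ} (hr : 0 < r) : IsPreconnected (An r s) := by
  rcases lt_or_ge 0 s with hs | hs
  swap
  · have : An r s = ∅ := by
      ext z
      simp only [mem_empty_iff_false, iff_false]
      rintro ⟨h1, h2⟩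
      linarith [norm_nonneg z]
    rw [this]
    exact isPreconnected_empty
  have h1 : An r s = Complex.exp '' {z : ℂ | Real.log r < z.re ∧ z.re < Real.log s} := by
    ext z
    constructor
    · rintro ⟨h1, h2⟩
      have h0 : 0 < ‖z‖ := hr.trans h1
      have hz : z ≠ 0 := norm_pos_iff.1 h0
      refine ⟨Complex.log z, ⟨?_, ?_⟩, Complex.exp_log hz⟩
      · rw [Complex.log_re]; exact Real.log_lt_log hr h1
      · rw [Complex.log_re]; exact Real.log_lt_log h0 h2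
    · rintro ⟨w, ⟨h1, h2⟩, rfl⟩
      constructor
      · rw [Complex.norm_exp]; exact (Real.log_lt_iff_lt_exp hr).1 h1
      · rw [Complex.norm_exp]; exact (Real.lt_log_iff_exp_lt hs).1 h2
  rw [h1]
  apply IsPreconnected.image _ _ Complex.continuous_exp.continuousOn
  apply Convex.isPreconnected
  have h2 : {z : ℂ | Real.log r < z.re ∧ z.re < Real.log s} =
      Complex.reLm ⁻¹' (Set.Ioo (Real.log r) (Real.log s)) := by
    ext z; simp
  rw [h2]
  exact (convex_Ioo _ _).linear_preimage Complex.reLm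

theorem norm_inv_An {r : ℝ} (hr : 0 < r) {ζ : ℂ} (h : ζ ∈ An r r⁻¹) : ζ⁻¹ ∈ An r r⁻¹ := by
  have h0 : 0 < ‖ζ‖ := hr.trans h.1
  constructor
  · rw [norm_inv, lt_inv_comm₀ hr h0]; exact h.2
  · rw [norm_inv, inv_lt_inv₀ h0 hr]; exact h.1

theorem sym_zero {lam ρ R : ℝ} (hlam : lam ≠ 0) (hρ : 1 < ρ) (hR : ρ ^ 2 < R) {g : ℂ → ℂ}
    (hg : DifferentiableOn ℂ g (An (ρ ^ 2 / R) R))
    (hodd : ∀ ζ ∈ An (ρ ^ 2 / R) (ρ ^ 2 / R)⁻¹, g ζ + (lam : ℂ) * conj (g (cinv 0 ρ ζ)) =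
      -(g ζ⁻¹ + (lam : ℂ) * conj (g (cinv 0 ρ ζ⁻¹))))
    {ζ₀ : ℂ} (h0 : ζ₀ ∈ An (ρ ^ 2 / R) (ρ ^ 2 / R)⁻¹) (hs : ∀ᶠ ζ in 𝓝 ζ₀, g ζ⁻¹ = -g ζ) :
    ∀ ζ ∈ An (ρ ^ 2 / R) R, g ζ = 0 := by
  have hρ0 : 0 < ρ := by linarith
  have hR0 : 0 < R := by nlinarith
  set r : ℝ := ρ ^ 2 / R with hr
  have hr0 : 0 < r := by positivity
  have hr1 : r < 1 := by rw [hr, div_lt_one hR0]; exact hR
  have hri : r⁻¹ = R / ρ ^ 2 := by rw [hr, inv_div]
  have hriR : r⁻¹ < R := by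
    rw [hri, div_lt_iff₀ (by positivity)]
    have : 1 < ρ ^ 2 := by nlinarith
    nlinarith
  have hgan : AnalyticOnNhd ℂ g (An r R) := hg.analyticOnNhd (An_open _ _)
  have hsub : An r r⁻¹ ⊆ An r R := fun z hz => ⟨hz.1, hz.2.trans hriR⟩
  -- step 1
  have h1 : ∀ ζ ∈ An r r⁻¹, g ζ⁻¹ = -g ζ := by
    have han : AnalyticOnNhd ℂ (fun ζ => g ζ⁻¹ + g ζ) (An r r⁻¹) := by
      apply DifferentiableOn.analyticOnNhd _ (An_open _ _)
      apply DifferentiableOn.add _ (hg.mono hsub)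
      intro ζ hζ
      have h2 : DifferentiableAt ℂ g ζ⁻¹ :=
        hg.differentiableAt ((An_open _ _).mem_nhds (hsub (norm_inv_An hr0 hζ)))
      have h3 : DifferentiableAt ℂ (fun z : ℂ => z⁻¹) ζ :=
        differentiableAt_id.inv (An_ne hr0.le hζ)
      exact (h2.comp ζ h3).differentiableWithinAt
    have h2 := han.eqOn_zero_of_preconnected_of_eventuallyEq_zero (An_preconnected hr0) h0 (by
      filter_upwards [hs] with ζ h3
      rw [h3]; simp)
    intro ζ hζ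
    have h3 := h2 hζ
    simp only [Pi.zero_apply] at h3
    linear_combination h3
  -- step 2
  have h2 : ∀ v : ℂ, v ∈ An (ρ ^ 2 * r) (ρ ^ 2 * r⁻¹) → g ((ρ : ℂ) ^ 4 / v) = -g v := by
    intro v hv
    have hv0 : v ≠ 0 := An_ne (by positivity) hv
    have hvn : 0 < ‖v‖ := norm_pos_iff.2 hv0
    have hm : cinv 0 ρ v ∈ An r r⁻¹ := by
      constructor
      · rw [norm_cinv0, lt_div_iff₀ hvn]
        have h3 := hv.2
        calc r * ‖v‖ < r * (ρ ^ 2 * r⁻¹) := by gcongr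
          _ = ρ ^ 2 := by field_simp
      · rw [norm_cinv0, div_lt_iff₀ hvn]
        have h3 := hv.1
        calc ρ ^ 2 = r⁻¹ * (ρ ^ 2 * r) := by field_simp
          _ < r⁻¹ * ‖v‖ := by gcongr
    have h3 := hodd _ hm
    rw [h1 _ hm, disk_cinv_cinv 0 hρ0 hv0] at h3
    have h4 : cinv 0 ρ (cinv 0 ρ v)⁻¹ = (ρ : ℂ) ^ 4 / v := by
      unfold cinv
      have h5 : (ρ : ℂ) ≠ 0 := by exact_mod_cast hρ0.ne'
      have h6 : conj v ≠ 0 := by rwa [Ne, map_eq_zero]
      simp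
      field_simp
    rw [h4] at h3
    have h5 : (lam : ℂ) * conj (g v + g ((ρ : ℂ) ^ 4 / v)) = 0 := by
      rw [map_add]
      linear_combination h3
    have h6 : (lam : ℂ) ≠ 0 := by exact_mod_cast hlam
    have h7 := (mul_eq_zero.1 h5).resolve_left h6
    have h8 := (map_eq_zero _).1 h7
    linear_combination h8
  -- step 3
  set K : Set ℂ := {ζ : ℂ | 1 ≤ ‖ζ‖ ∧ ‖ζ‖ ≤ ρ ^ 2} with hK
  have hKc : IsCompact K := by
    have h3 : K = closedBall 0 (ρ ^ 2) ∩ {ζ : ℂ | 1 ≤ ‖ζ‖} := by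
      ext z; simp [hK, and_comm]
    rw [h3]
    exact (isCompact_closedBall _ _).inter_right (isClosed_le continuous_const continuous_norm)
  have hK1 : (1 : ℂ) ∈ K := ⟨by rw [norm_one], by rw [norm_one]; nlinarith⟩
  have hKs : K ⊆ An r R := fun z hz => ⟨by linarith [hz.1], by linarith [hz.2]⟩
  have hgc : ContinuousOn (fun z => ‖g z‖) K := (hg.continuousOn.mono hKs).norm
  obtain ⟨ζs, hζs, hmax⟩ := hKc.exists_isMaxOn ⟨1, hK1⟩ hgc
  have hmax' : ∀ z ∈ K, ‖g z‖ ≤ ‖g ζs‖ := fun z hz => hmax hz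
  have hloc : IsLocalMax (norm ∘ g) ζs := by
    have hn : ContinuousAt (fun z : ℂ => ‖z‖) ζs := continuous_norm.continuousAt
    have evl : ∀ a : ℝ, a < ‖ζs‖ → ∀ᶠ z : ℂ in 𝓝 ζs, a < ‖z‖ := fun a ha =>
      hn.eventually (lt_mem_nhds ha)
    have evg : ∀ a : ℝ, ‖ζs‖ < a → ∀ᶠ z : ℂ in 𝓝 ζs, ‖z‖ < a := fun a ha =>
      hn.eventually (gt_mem_nhds ha)
    rcases lt_or_eq_of_le hζs.1 with ha | ha
    · rcases lt_or_eq_of_le hζs.2 with hb | hb
      · filter_upwards [evl _ ha, evg _ hb] with z h3 h4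
        exact hmax' z ⟨h3.le, h4.le⟩
      · have hρ2 : 1 < ρ ^ 2 := by nlinarith
        have e1 := evl _ ha
        have e2 := evl (ρ ^ 2 * r) (by rw [hb]; nlinarith)
        have e3 := evg (ρ ^ 2 * r⁻¹) (by
          rw [hb]
          have : 1 < r⁻¹ := (one_lt_inv₀ hr0).2 hr1
          nlinarith)
        have e4 := evg (ρ ^ 4) (by
          rw [hb]
          nlinarith)
        filter_upwards [e1, e2, e3, e4] with z h3 h4 h5 h6
        simp only [Function.comp_apply]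
        rcases le_or_gt ‖z‖ (ρ ^ 2) with h7 | h7
        · exact hmax' z ⟨h3.le, h7⟩
        · have h8 := h2 z ⟨h4, h5⟩
          have h9 : ‖g z‖ = ‖g ((ρ : ℂ) ^ 4 / z)‖ := by rw [h8, norm_neg]
          rw [h9]
          apply hmax'
          have h10 : 0 < ‖z‖ := by linarith
          constructor
          · rw [norm_div, norm_pow, Complex.norm_real, Real.norm_eq_abs, abs_of_pos hρ0,
              one_le_div h10]
            exact h6.le
          · rw [norm_div, norm_pow, Complex.norm_real, Real.norm_eq_abs, abs_of_pos hρ0,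
              div_le_iff₀ h10]
            nlinarith
    · have hρ2 : 1 < ρ ^ 2 := by nlinarith
      have e1 := evg (ρ ^ 2) (by rw [← ha]; exact hρ2)
      have e2 := evl r (by rw [← ha]; exact hr1)
      have e3 := evg r⁻¹ (by rw [← ha]; exact (one_lt_inv₀ hr0).2 hr1)
      have e4 := evl (ρ ^ 2)⁻¹ (by rw [← ha]; exact inv_lt_one_of_one_lt₀ hρ2)
      filter_upwards [e1, e2, e3, e4] with z h3 h4 h5 h6
      simp only [Function.comp_apply]
      rcases le_or_gt 1 ‖z‖ with h7 | h7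
      · exact hmax' z ⟨h7, h3.le⟩
      · have h8 := h1 z ⟨h4, h5⟩
        have h9 : ‖g z‖ = ‖g z⁻¹‖ := by rw [h8, norm_neg]
        rw [h9]
        apply hmax'
        have h10 : 0 < ‖z‖ := hr0.trans h4
        constructor
        · rw [norm_inv]; exact (one_le_inv₀ h10).2 h7.le
        · rw [norm_inv]
          rw [inv_le_comm₀ h10 (by positivity)]
          exact h6.le
  have hev := Complex.eventually_eq_of_isLocalMax_norm (f := g) (c := ζs) (by
    filter_upwards [(An_open r R).mem_nhds (hKs hζs)] with z hz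
    exact hg.differentiableAt ((An_open _ _).mem_nhds hz)) hloc
  have hconst : EqOn g (fun _ => g ζs) (An r R) :=
    hgan.eqOn_of_preconnected_of_eventuallyEq analyticOnNhd_const (An_preconnected hr0)
      (hKs hζs) hev
  have h11 : (1 : ℂ) ∈ An r r⁻¹ := ⟨by simpa using hr1, by
    simpa using (one_lt_inv₀ hr0).2 hr1⟩
  have h12 := h1 1 h11
  rw [inv_one] at h12
  have h13 : g 1 = 0 := by linear_combination (1 / 2 : ℂ) * h12
  have h14 := hconst (hKs hK1)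
  intro ζ hζ
  rw [hconst hζ]
  simp only at h14 ⊢
  rw [← h14, h13]

theorem conf_zero {lam r R ρ₁ ρ₂ : ℝ} (hlam0 : lam ≠ 0) (hlam1 : |lam| < 1) (h1 : 1 < ρ₁)
    (h12 : ρ₁ < ρ₂) (hR : ρ₂ ^ 2 < R) (hr : r < 1) (hr0 : 0 < r) {g : ℂ → ℂ}
    (hg : DifferentiableOn ℂ g (An r R))
    (ho1 : ∀ ζ : ℂ, ‖ζ‖ = 1 → g ζ + (lam : ℂ) * conj (g (cinv 0 ρ₁ ζ)) =
      -(g ζ⁻¹ + (lam : ℂ) * conj (g (cinv 0 ρ₁ ζ⁻¹))))
    (ho2 : ∀ ζ : ℂ, ‖ζ‖ = 1 → g ζ + (lam : ℂ) * conj (g (cinv 0 ρ₂ ζ)) =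
      -(g ζ⁻¹ + (lam : ℂ) * conj (g (cinv 0 ρ₂ ζ⁻¹)))) :
    ∀ ζ ∈ An r R, g ζ = 0 := by
  have hρ1 : 1 < ρ₁ ^ 2 := by nlinarith
  have hρ12 : ρ₁ ^ 2 < ρ₂ ^ 2 := by nlinarith
  have hgan : AnalyticOnNhd ℂ g (An r R) := hg.analyticOnNhd (An_open _ _)
  set E : ℂ → ℂ := fun ζ => g ζ + g (conj ζ) with hE
  have hlamC : (lam : ℂ) ≠ 0 := by exact_mod_cast hlam0
  -- relations on the unit circle
  have key : ∀ ρ : ℝ, (∀ ζ : ℂ, ‖ζ‖ = 1 → g ζ + (lam : ℂ) * conj (g (cinv 0 ρ ζ)) =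
      -(g ζ⁻¹ + (lam : ℂ) * conj (g (cinv 0 ρ ζ⁻¹)))) → ∀ ζ : ℂ, ‖ζ‖ = 1 →
      E ζ = -(lam : ℂ) * conj (E ((ρ : ℂ) ^ 2 * ζ)) := by
    intro ρ ho ζ hζ
    have h0 : ζ ≠ 0 := by rintro rfl; simp at hζ
    have hc : ζ * conj ζ = 1 := by
      rw [Complex.mul_conj, Complex.normSq_eq_norm_sq, hζ]; simp
    have hi : ζ⁻¹ = conj ζ := (eq_inv_of_mul_eq_one_right hc).symm
    have h3 : cinv 0 ρ ζ = (ρ : ℂ) ^ 2 * ζ := by
      unfold cinv
      rw [zero_add, sub_zero, ← hi]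
      field_simp
    have h4 : cinv 0 ρ ζ⁻¹ = conj ((ρ : ℂ) ^ 2 * ζ) := by
      unfold cinv
      rw [zero_add, sub_zero, hi, Complex.conj_conj, map_mul, map_pow, Complex.conj_ofReal, ← hi]
      rfl
    have h5 := ho ζ hζ
    rw [h3, h4, hi] at h5
    simp only [hE, map_add]
    linear_combination h5
  have k1 := key ρ₁ ho1
  have k2 := key ρ₂ ho2
  set K : Set ℂ := {ζ : ℂ | 1 ≤ ‖ζ‖ ∧ ‖ζ‖ ≤ ρ₂ ^ 2} with hK
  have hKc : IsCompact K := by
    have h3 : K = closedBall 0 (ρ₂ ^ 2) ∩ {ζ : ℂ | 1 ≤ ‖ζ‖} := by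
      ext z; simp [hK, and_comm]
    rw [h3]
    exact (isCompact_closedBall _ _).inter_right (isClosed_le continuous_const continuous_norm)
  have hK1 : (1 : ℂ) ∈ K := ⟨by rw [norm_one], by rw [norm_one]; nlinarith⟩
  have hKs : K ⊆ An r R := fun z hz => ⟨by linarith [hz.1], by linarith [hz.2]⟩
  have hconj : ∀ z : ℂ, z ∈ An r R → conj z ∈ An r R := by
    intro z hz
    exact ⟨by rw [RCLike.norm_conj]; exact hz.1, by rw [RCLike.norm_conj]; exact hz.2⟩
  have hEc : ContinuousOn (fun z => ‖E z‖) K := by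
    apply ContinuousOn.norm
    apply ContinuousOn.add (hg.continuousOn.mono hKs)
    apply hg.continuousOn.comp Complex.continuous_conj.continuousOn
    intro z hz
    exact hconj z (hKs hz)
  obtain ⟨ζs, hζs, hmax⟩ := hKc.exists_isMaxOn ⟨1, hK1⟩ hEc
  have hmax' : ∀ z ∈ K, ‖E z‖ ≤ ‖E ζs‖ := fun z hz => hmax hz
  set M := ‖E ζs‖ with hM
  have hnr : ∀ (s : ℝ) (z : ℂ), 0 ≤ s → ‖z‖ = 1 → ‖(s : ℂ) ^ 2 * z‖ = s ^ 2 := by
    intro s z hs hz
    rw [norm_mul, norm_pow, Complex.norm_real, Real.norm_eq_abs, abs_of_nonneg hs, hz, mul_one]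
  -- the maximum is zero
  have hM0 : M = 0 := by
    by_contra hne
    have hMpos : 0 < M := lt_of_le_of_ne (norm_nonneg _) (Ne.symm hne)
    have hcontra : ∀ z : ℂ, ‖z‖ = 1 → ‖E z‖ < M := by
      intro z hz
      have h3 := k2 z hz
      have h4 : ‖E z‖ = |lam| * ‖E ((ρ₂ : ℂ) ^ 2 * z)‖ := by
        rw [h3, norm_mul, norm_neg, Complex.norm_real, RCLike.norm_conj, Real.norm_eq_abs]
      have h5 : (ρ₂ : ℂ) ^ 2 * z ∈ K := by
        have := hnr ρ₂ z (by linarith) hz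
        exact ⟨by rw [this]; nlinarith, by rw [this]⟩
      have h6 := hmax' _ h5
      rw [h4]
      calc |lam| * ‖E ((ρ₂ : ℂ) ^ 2 * z)‖ ≤ |lam| * M := by gcongr
        _ < 1 * M := by gcongr
        _ = M := one_mul M
    obtain ⟨ζ', hζ'1, hζ'2, hζ'M⟩ : ∃ ζ' : ℂ, 1 < ‖ζ'‖ ∧ ‖ζ'‖ < ρ₂ ^ 2 ∧ ‖E ζ'‖ = M := by
      rcases lt_or_eq_of_le hζs.1 with ha | ha
      · rcases lt_or_eq_of_le hζs.2 with hb | hb
        · exact ⟨ζs, ha, hb, rfl⟩
        · have hρ20 : 0 < ρ₂ := by linarith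
          have hρ0' : (ρ₂ : ℂ) ≠ 0 := by exact_mod_cast hρ20.ne'
          have hρ0 : (ρ₂ : ℂ) ^ 2 ≠ 0 := pow_ne_zero 2 hρ0'
          set ζ₁ : ℂ := ζs / (ρ₂ : ℂ) ^ 2 with hζ₁
          have hn1 : ‖ζ₁‖ = 1 := by
            rw [hζ₁, norm_div, norm_pow, Complex.norm_real, Real.norm_eq_abs,
              abs_of_pos (by linarith), hb, div_self (by positivity)]
          have h3 : (ρ₂ : ℂ) ^ 2 * ζ₁ = ζs := by rw [hζ₁]; field_simp
          have h4 := k1 ζ₁ hn1
          have h5 := k2 ζ₁ hn1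
          rw [h3] at h5
          have h6 : E ((ρ₁ : ℂ) ^ 2 * ζ₁) = E ζs := by
            have h7 : (lam : ℂ) * conj (E ((ρ₁ : ℂ) ^ 2 * ζ₁) - E ζs) = 0 := by
              rw [map_sub]
              linear_combination h4 - h5
            have h8 := (map_eq_zero _).1 ((mul_eq_zero.1 h7).resolve_left hlamC)
            exact sub_eq_zero.1 h8
          refine ⟨(ρ₁ : ℂ) ^ 2 * ζ₁, ?_, ?_, by rw [h6]⟩
          · rw [hnr ρ₁ ζ₁ (by linarith) hn1]; exact hρ1
          · rw [hnr ρ₁ ζ₁ (by linarith) hn1]; exact hρ12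
      · exact absurd (hcontra ζs ha.symm) (lt_irrefl _)
    set c : ℂ := conj (E ζ') / (M : ℂ) with hc
    have hMC : (M : ℂ) ≠ 0 := by exact_mod_cast hne
    have hcn : ‖c‖ = 1 := by
      rw [hc, norm_div, RCLike.norm_conj, hζ'M, Complex.norm_real, Real.norm_eq_abs,
        abs_of_pos hMpos, div_self hne]
    have hcE : c * E ζ' = (M : ℂ) := by
      have h3 : E ζ' * conj (E ζ') = (M : ℂ) ^ 2 := by
        rw [Complex.mul_conj, Complex.normSq_eq_norm_sq, hζ'M]; push_cast; ring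
      rw [hc]
      field_simp
      linear_combination h3
    set h : ℂ → ℂ := fun ζ => c * g ζ + conj c * conj (g (conj ζ)) with hh
    have hre : ∀ ζ, (h ζ).re = (c * E ζ).re := by
      intro ζ
      simp only [hh, hE, Complex.add_re, Complex.mul_re, Complex.conj_re, Complex.conj_im, Complex.add_im]
      ring
    have hhd : DifferentiableOn ℂ h (An r R) := by
      intro z hz
      have h3 : DifferentiableAt ℂ g (conj z) :=
        hg.differentiableAt ((An_open _ _).mem_nhds (hconj z hz))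
      have h4 : DifferentiableAt ℂ (fun w => conj (g (conj w))) z := by
        have h5 := DifferentiableAt.star_star (f := g) (z := conj z) h3
        have h6 : DifferentiableAt ℂ (fun w => conj (g (conj w)))
          ((starRingEnd ℂ) (conj z)) := h5
        rwa [Complex.conj_conj] at h6
      have h5 : DifferentiableAt ℂ g z := hg.differentiableAt ((An_open _ _).mem_nhds hz)
      exact ((h5.const_mul c).add (h4.const_mul _)).differentiableWithinAt
    have hed : DifferentiableOn ℂ (fun z => Complex.exp (h z)) (An r R) := hhd.cexp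
    have hζ'K : ζ' ∈ K := ⟨hζ'1.le, hζ'2.le⟩
    have hloc : IsLocalMax (norm ∘ fun z => Complex.exp (h z)) ζ' := by
      have hn : ContinuousAt (fun z : ℂ => ‖z‖) ζ' := continuous_norm.continuousAt
      have evl : ∀ᶠ z : ℂ in 𝓝 ζ', 1 < ‖z‖ := hn.eventually (lt_mem_nhds hζ'1)
      have evg : ∀ᶠ z : ℂ in 𝓝 ζ', ‖z‖ < ρ₂ ^ 2 := hn.eventually (gt_mem_nhds hζ'2)
      filter_upwards [evl, evg] with z h3 h4
      simp only [Function.comp_apply]
      rw [Complex.norm_exp, Complex.norm_exp, Real.exp_le_exp, hre, hre, hcE, Complex.ofReal_re]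
      calc (c * E z).re ≤ ‖c * E z‖ := Complex.re_le_norm _
        _ = ‖E z‖ := by rw [norm_mul, hcn, one_mul]
        _ ≤ M := hmax' z ⟨h3.le, h4.le⟩
    have hev := Complex.eventually_eq_of_isLocalMax_norm (f := fun z => Complex.exp (h z))
      (c := ζ') (by
        filter_upwards [(An_open r R).mem_nhds (hKs hζ'K)] with z hz
        exact hed.differentiableAt ((An_open _ _).mem_nhds hz)) hloc
    have hconst : EqOn (fun z => Complex.exp (h z)) (fun _ => Complex.exp (h ζ')) (An r R) :=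
      (hed.analyticOnNhd (An_open _ _)).eqOn_of_preconnected_of_eventuallyEq analyticOnNhd_const
        (An_preconnected hr0) (hKs hζ'K) hev
    have h3 := hconst (hKs hK1)
    simp only at h3
    have h4 : ‖Complex.exp (h 1)‖ = ‖Complex.exp (h ζ')‖ := by rw [h3]
    rw [Complex.norm_exp, Complex.norm_exp, Real.exp_eq_exp, hre, hre, hcE, Complex.ofReal_re] at h4
    have h5 : M ≤ ‖E 1‖ := by
      rw [← h4]
      calc (c * E 1).re ≤ ‖c * E 1‖ := Complex.re_le_norm _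
        _ = ‖E 1‖ := by rw [norm_mul, hcn, one_mul]
    exact absurd (hcontra 1 norm_one) (not_lt.2 h5)
  -- conclusion
  have hE0 : ∀ z ∈ K, E z = 0 := by
    intro z hz
    have h3 := hmax' z hz
    rw [hM0] at h3
    exact norm_le_zero_iff.1 h3
  have hx : ∀ x : ℝ, 1 ≤ x → x ≤ ρ₂ ^ 2 → g (x : ℂ) = 0 := by
    intro x hx1 hx2
    have hn : ‖(x : ℂ)‖ = x := by
      rw [Complex.norm_real, Real.norm_eq_abs, abs_of_nonneg (by linarith)]
    have h3 := hE0 (x : ℂ) ⟨by rw [hn]; exact hx1, by rw [hn]; exact hx2⟩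
    simp only [hE, Complex.conj_ofReal] at h3
    linear_combination (1 / 2 : ℂ) * h3
  have hfreq : ∃ᶠ z in 𝓝[≠] (1 : ℂ), g z = 0 := by
    rw [frequently_iff]
    intro U hU
    rw [mem_nhdsWithin] at hU
    obtain ⟨V, hV, h1V, hVU⟩ := hU
    have hcont : ContinuousAt (fun x : ℝ => (x : ℂ)) 1 := Complex.continuous_ofReal.continuousAt
    have hVn : ∀ᶠ x : ℝ in 𝓝 1, (x : ℂ) ∈ V := by
      apply hcont.eventually
      exact hV.mem_nhds (by simpa using h1V)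
    have h3 : ∀ᶠ x : ℝ in 𝓝[>] 1, (x : ℂ) ∈ V := hVn.filter_mono nhdsWithin_le_nhds
    have h4 : ∀ᶠ x : ℝ in 𝓝[>] 1, x ∈ Ioo 1 (ρ₂ ^ 2) := Ioo_mem_nhdsGT (by nlinarith)
    obtain ⟨x, hxV, hx1, hx2⟩ := (h3.and h4).exists
    refine ⟨(x : ℂ), hVU ⟨hxV, ?_⟩, hx x hx1.le hx2.le⟩
    simp only [mem_compl_iff, mem_singleton_iff]
    intro h5
    have h6 : x = 1 := by exact_mod_cast h5
    exact absurd h6 hx1.ne'
  exact hgan.eqOn_zero_of_preconnected_of_frequently_eq_zero (An_preconnected hr0) (hKs hK1) hfreq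

end Pool.Agent.H385E
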