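import Pool.Agent.H385E.Zero
import Pool.Agent.H385.PDE2

/-!
Reflection in a circle for fields defined in an annulus.
-/

open Complex Metric Set Filter Topology ComplexConjugate MeasureTheory
open scoped ContDiff ENNReal

namespace Pool.Agent.H385E

open Pool.Agent.H385

/-- open annulus centred at zero -/
def An (r s : ℝ) : Set ℂ := {ζ : ℂ | r < ‖ζ‖ ∧ ‖ζ‖ < s}

theorem An_open (r s : ℝ) : IsOpen (An r s) :=
  (isOpen_lt continuous_const continuous_norm).inter (isOpen_lt continuous_norm continuous_const)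

theorem An_meas (r s : ℝ) : MeasurableSet (An r s) := (An_open r s).measurableSet

theorem An_ne {r s : ℝ} (hr : 0 ≤ r) {ζ : ℂ} (h : ζ ∈ An r s) : ζ ≠ 0 := by
  rintro rfl
  have := h.1
  rw [norm_zero] at this
  linarith

theorem norm_cinv0 (ρ : ℝ) (ζ : ℂ) : ‖cinv 0 ρ ζ‖ = ρ ^ 2 / ‖ζ‖ := by
  have := disk_norm_cinv 0 ρ ζ
  simpa using this

theorem cinv_An {ρ r s : ℝ} (hρ : 0 < ρ) (hr : 0 < r) {ζ : ℂ} (h : ζ ∈ An r s) :
    cinv 0 ρ ζ ∈ An (ρ ^ 2 / s) (ρ ^ 2 / r) := by
  have h1 : 0 < ‖ζ‖ := hr.trans h.1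
  have hs : 0 < s := h1.trans h.2
  constructor
  · rw [norm_cinv0, div_lt_div_iff_of_pos_left (by positivity) hs h1]
    exact h.2
  · rw [norm_cinv0, div_lt_div_iff_of_pos_left (by positivity) h1 hr]
    exact h.1

theorem Phi_diffAt {ρ : ℝ} {β : ℂ → ℂ} {ζ : ℂ} (hζ : ζ ≠ 0)
    (h : DifferentiableAt ℂ β (cinv 0 ρ ζ)) : DifferentiableAt ℂ (Phi 0 ρ β) ζ := by
  have h1 : (fun z => Phi 0 ρ β z) = fun z => (ρ : ℂ) ^ 2 / z ^ 2 *
      (conj (β (conj ((ρ : ℂ) ^ 2 / z)))) := by
    funext z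
    unfold Phi cinv
    simp
  have h2 : conj ((ρ : ℂ) ^ 2 / ζ) = cinv 0 ρ ζ := by
    unfold cinv
    simp
  have h3 : DifferentiableAt ℂ (fun w => conj (β (conj w))) ((ρ : ℂ) ^ 2 / ζ) := by
    have h5 := DifferentiableAt.star_star (f := β) (z := cinv 0 ρ ζ) h
    have h6 : (starRingEnd ℂ) (cinv 0 ρ ζ) = (ρ : ℂ) ^ 2 / ζ := by rw [← h2]; simp
    have h7 : DifferentiableAt ℂ (fun w => conj (β (conj w)))
        ((starRingEnd ℂ) (cinv 0 ρ ζ)) := h5
    rwa [h6] at h7
  change DifferentiableAt ℂ (fun z => Phi 0 ρ β z) ζ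
  rw [h1]
  have h8 : DifferentiableAt ℂ (fun z : ℂ => (ρ : ℂ) ^ 2 / z) ζ :=
    DifferentiableAt.div (differentiableAt_const _) differentiableAt_id hζ
  have h9 := DifferentiableAt.comp ζ (g := fun w => conj (β (conj w)))
    (f := fun z => (ρ : ℂ) ^ 2 / z) h3 h8
  refine DifferentiableAt.mul ?_ h9
  exact DifferentiableAt.div (differentiableAt_const _)
    (differentiableAt_id.pow 2) (pow_ne_zero 2 hζ)

theorem Phi_Phi {ρ : ℝ} (hρ : 0 < ρ) (β : ℂ → ℂ) {ζ : ℂ} (hζ : ζ ≠ 0) :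
    Phi 0 ρ (Phi 0 ρ β) ζ = β ζ := by
  have h1 : (ρ : ℂ) ≠ 0 := by exact_mod_cast hρ.ne'
  have h2 := disk_Phi_cinv 0 hρ β (w := cinv 0 ρ ζ) (disk_cinv_ne 0 hρ hζ)
  have h3 : conj ζ ≠ 0 := by rwa [Ne, map_eq_zero]
  unfold Phi
  rw [disk_cinv_cinv 0 hρ hζ]
  unfold cinv
  simp
  field_simp

/-- the support of the reflected test function -/
theorem psi_supp {ρ : ℝ} (hρ : 1 < ρ) {φ : ℂ → ℝ} (hφ : IsTest (An 1 (ρ ^ 2)) φ) :
    tsupport (diskPsi 0 ρ φ) ⊆ An 1 (ρ ^ 2) := by
  have hρ0 : 0 < ρ := by linarith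
  have hc : ContinuousOn (cinv 0 ρ) (tsupport φ) := by
    intro z hz
    have h1 : z ≠ 0 := An_ne zero_le_one (hφ.2.2 hz)
    exact (disk_hasFDerivAt 0 ρ h1).continuousAt.continuousWithinAt
  have hK : IsCompact (cinv 0 ρ '' tsupport φ) := hφ.2.1.isCompact.image_of_continuousOn hc
  have h1 : tsupport (diskPsi 0 ρ φ) ⊆ cinv 0 ρ '' tsupport φ := by
    apply closure_minimal _ hK.isClosed
    intro w hw
    have hw' : diskPsi 0 ρ φ w ≠ 0 := hw
    unfold diskPsi at hw'
    by_cases h0 : w = 0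
    · rw [if_pos h0] at hw'
      exact absurd rfl hw'
    · rw [if_neg h0] at hw'
      exact ⟨cinv 0 ρ w, subset_tsupport φ hw', disk_cinv_cinv 0 hρ0 h0⟩
  refine h1.trans ?_
  rintro _ ⟨z, hz, rfl⟩
  have h2 := cinv_An hρ0 zero_lt_one (hφ.2.2 hz)
  rw [div_self (by positivity), div_one] at h2
  exact h2

theorem refl_int {ρ : ℝ} (hρ : 1 < ρ) {β : ℂ → ℂ} (hβ : DifferentiableOn ℂ β (An ρ (ρ ^ 2)))
    (hβ2 : MemLp β 2 (volume.restrict (An ρ (ρ ^ 2)))) {φ : ℂ → ℝ}
    (hφ : IsTest (An 1 (ρ ^ 2)) φ) :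
    MemLp (Phi 0 ρ β) 2 (volume.restrict (An 1 ρ)) ∧
    ∫ z in An ρ (ρ ^ 2), β z * grad φ z = -conj (∫ z in An 1 ρ, Phi 0 ρ β z * grad φ z) := by
  have hρ0 : 0 < ρ := by linarith
  have hφ1 : ContDiff ℝ 1 φ := hφ.1.of_le (by exact_mod_cast le_top)
  have hψ1 : ContDiff ℝ 1 (diskPsi 0 ρ φ) :=
    diskPsi_contDiff 0 hρ0 (hφ.mono (subset_univ _))
  set β' : ℂ → ℂ := (An ρ (ρ ^ 2)).indicator β with hβ'
  set c' : ℂ → ℂ := Phi 0 ρ β' with hc'
  have hin : An 1 ρ ⊆ ball 0 ρ := fun z hz => by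
    rw [mem_ball, dist_zero_right]; exact hz.2
  have hmem : ∀ z : ℂ, z ∈ An 1 ρ → cinv 0 ρ z ∈ An ρ (ρ ^ 2) := by
    intro z hz
    have h2 := cinv_An hρ0 zero_lt_one hz
    rwa [div_one, show ρ ^ 2 / ρ = ρ by field_simp] at h2
  have hmem' : ∀ z : ℂ, z ∈ An ρ (ρ ^ 2) → cinv 0 ρ z ∈ An 1 ρ := by
    intro z hz
    have h2 := cinv_An hρ0 hρ0 hz
    rwa [div_self (by positivity), show ρ ^ 2 / ρ = ρ by field_simp] at h2
  -- values of c'
  have hc1 : ∀ z ∈ An 1 ρ, c' z = Phi 0 ρ β z := by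
    intro z hz
    simp only [hc', Phi, hβ', indicator_of_mem (hmem z hz)]
  have hc2 : ∀ z, z ≠ 0 → z ∉ An 1 ρ → c' z = 0 := by
    intro z hz0 hz
    have h3 : cinv 0 ρ z ∉ An ρ (ρ ^ 2) := by
      intro h4
      have h5 := hmem' _ h4
      rw [disk_cinv_cinv 0 hρ0 hz0] at h5
      exact hz h5
    simp only [hc', Phi, hβ', indicator_of_notMem h3, map_zero, mul_zero]
  have hPd : DifferentiableOn ℂ (Phi 0 ρ β) (An 1 ρ) := by
    intro z hz
    have h3 := hβ.differentiableAt ((An_open _ _).mem_nhds (hmem z hz))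
    exact (Phi_diffAt (An_ne zero_le_one hz) h3).differentiableWithinAt
  have hcd : DifferentiableOn ℂ c' (ball 0 ρ ∩ An 1 (ρ ^ 2)) := by
    have h3 : ball 0 ρ ∩ An 1 (ρ ^ 2) ⊆ An 1 ρ := by
      rintro z ⟨h4, h5⟩
      rw [mem_ball, dist_zero_right] at h4
      exact ⟨h5.1, h4⟩
    exact (hPd.congr hc1).mono h3
  -- measurability and integrability of c'
  have hcind : c' =ᵐ[volume.restrict (ball 0 ρ)] (An 1 ρ).indicator (Phi 0 ρ β) := by
    have h3 : ∀ᵐ z : ℂ, z ≠ 0 := by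
      rw [ae_iff]; simp
    filter_upwards [ae_restrict_of_ae h3] with z hz
    by_cases h4 : z ∈ An 1 ρ
    · rw [indicator_of_mem h4, hc1 z h4]
    · rw [indicator_of_notMem h4, hc2 z hz h4]
  have hcm : AEStronglyMeasurable c' (volume.restrict (ball 0 ρ)) := by
    refine AEStronglyMeasurable.congr ?_ hcind.symm
    rw [aestronglyMeasurable_indicator_iff (An_meas _ _)]
    exact (hPd.continuousOn.aestronglyMeasurable (An_meas _ _)).mono_measure
      (Measure.restrict_mono le_rfl Measure.restrict_le_self)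
  have hcL : MemLp c' 2 (volume.restrict (ball 0 ρ)) := by
    rw [memLp_two_iff_integrable_sq_norm hcm]
    have h1 := (disk_integrableOn 0 hρ0 (fun z => ‖β' z‖ ^ 2)).1 (by
      have h2 : Integrable (fun z => ‖β' z‖ ^ 2) := by
        have h3 : (fun z => ‖β' z‖ ^ 2) = (An ρ (ρ ^ 2)).indicator (fun z => ‖β z‖ ^ 2) := by
          funext z
          by_cases h4 : z ∈ An ρ (ρ ^ 2)
          · rw [hβ', indicator_of_mem h4, indicator_of_mem h4]
          · rw [hβ', indicator_of_notMem h4, indicator_of_notMem h4]; simp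
        rw [h3, integrable_indicator_iff (An_meas _ _)]
        exact (memLp_two_iff_integrable_sq_norm hβ2.1).1 hβ2
      exact h2.integrableOn)
    refine h1.congr ?_
    have h3 : ∀ᵐ z : ℂ, z ≠ 0 := by
      rw [ae_iff]; simp
    filter_upwards [ae_restrict_of_ae h3] with z hz
    have h4 : 0 < ‖z‖ := norm_pos_iff.2 hz
    simp only [hc', Phi, sub_zero, smul_eq_mul, norm_mul, norm_div, norm_pow, Complex.norm_real,
      Complex.norm_conj, Real.norm_eq_abs, sq_abs]
    rw [mul_pow, div_pow, ← pow_mul, ← pow_mul]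
  have : IsFiniteMeasure (volume.restrict (ball (0 : ℂ) ρ)) := ⟨by
    rw [Measure.restrict_apply_univ]; exact measure_ball_lt_top⟩
  have hc1' : IntegrableOn c' (ball 0 ρ) := hcL.integrable (by norm_num)
  have hcφ : IntegrableOn (fun z => c' z * grad φ z) (ball 0 ρ) :=
    hc1'.mul_continuousOn_of_subset (disk_grad_continuous hφ1).continuousOn measurableSet_ball
      (isCompact_closedBall 0 ρ) ball_subset_closedBall
  have hcψ : IntegrableOn (fun z => c' z * grad (diskPsi 0 ρ φ) z) (ball 0 ρ) :=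
    hc1'.mul_continuousOn_of_subset (disk_grad_continuous hψ1).continuousOn measurableSet_ball
      (isCompact_closedBall 0 ρ) ball_subset_closedBall
  constructor
  · have h1 : MemLp c' 2 (volume.restrict (An 1 ρ)) :=
      hcL.mono_measure (Measure.restrict_mono hin le_rfl)
    refine h1.ae_eq ?_
    filter_upwards [ae_restrict_mem (An_meas _ _)] with z hz
    exact hc1 z hz
  -- the two integrals over the disk agree
  have hX : ∫ z in ball 0 ρ, c' z * grad (diskPsi 0 ρ φ) z = ∫ z in ball 0 ρ, c' z * grad φ z := by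
    have h0 := ann_zero 0 hρ0 (An_open 1 (ρ ^ 2)) c' hcd hc1' (fun z => φ z - diskPsi 0 ρ φ z)
      (hφ1.sub hψ1) (by
        have h5 : tsupport (fun z => φ z - diskPsi 0 ρ φ z) ⊆
            tsupport φ ∪ tsupport (diskPsi 0 ρ φ) := tsupport_sub φ (diskPsi 0 ρ φ)
        exact h5.trans (union_subset hφ.2.2 (psi_supp hρ hφ))) (by
      intro w hw
      have hwa : w ≠ 0 := by
        rintro rfl
        rw [sub_self, norm_zero] at hw; linarith
      simp only [diskPsi, if_neg hwa, disk_cinv_circle 0 hρ0 hw, sub_self])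
    have h1 : ∀ w, c' w * grad (fun z => φ z - diskPsi 0 ρ φ z) w =
        c' w * grad φ w - c' w * grad (diskPsi 0 ρ φ) w := by
      intro w
      rw [disk_grad_sub (hφ1.differentiable (by norm_num) w)
        (hψ1.differentiable (by norm_num) w), mul_sub]
    simp only [h1] at h0
    rw [integral_sub hcφ hcψ, sub_eq_zero] at h0
    exact h0.symm
  have hY : ∫ z in ball 0 ρ, c' z * grad φ z = ∫ z in An 1 ρ, Phi 0 ρ β z * grad φ z := by
    have h3 : ∫ z in ball 0 ρ, c' z * grad φ z =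
        ∫ z in ball 0 ρ, (An 1 ρ).indicator (fun z => Phi 0 ρ β z * grad φ z) z := by
      apply integral_congr_ae
      filter_upwards [hcind] with z hz
      rw [hz]
      by_cases h4 : z ∈ An 1 ρ
      · rw [indicator_of_mem h4, indicator_of_mem h4]
      · rw [indicator_of_notMem h4, indicator_of_notMem h4, zero_mul]
    rw [h3, setIntegral_indicator (An_meas _ _), inter_eq_self_of_subset_right hin]
  have hout : An ρ (ρ ^ 2) ⊆ (ball 0 ρ)ᶜ := fun z hz => by
    rw [mem_compl_iff, mem_ball, dist_zero_right, not_lt]; exact hz.1.le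
  have hZ : ∫ z in An ρ (ρ ^ 2), β z * grad φ z = ∫ z in (ball 0 ρ)ᶜ, β' z * grad φ z := by
    have h3 : ∫ z in (ball (0 : ℂ) ρ)ᶜ, β' z * grad φ z =
        ∫ z in (ball (0 : ℂ) ρ)ᶜ, (An ρ (ρ ^ 2)).indicator (fun z => β z * grad φ z) z := by
      congr 1
      funext z
      by_cases h4 : z ∈ An ρ (ρ ^ 2)
      · rw [hβ', indicator_of_mem h4, indicator_of_mem h4]
      · rw [hβ', indicator_of_notMem h4, indicator_of_notMem h4, zero_mul]
    rw [h3, setIntegral_indicator (An_meas _ _), inter_eq_self_of_subset_right hout]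
  rw [hZ, disk_setIntegral 0 hρ0, ← hY, ← hX, ← integral_conj, ← integral_neg,
    ← setIntegral_congr_set (disk_ae 0 ρ), ← setIntegral_congr_set (disk_ae 0 ρ)]
  refine setIntegral_congr_fun (disk_meas 0 ρ) fun w hw => ?_
  have h1 := disk_key 0 hρ0 c' hφ1 hw.2
  have h2 : Phi 0 ρ c' (cinv 0 ρ w) = β' (cinv 0 ρ w) :=
    Phi_Phi hρ0 β' (disk_cinv_ne 0 hρ0 hw.2)
  rw [h2] at h1
  exact h1

/-- extension of the exterior field by reflection -/
theorem weyl_ann {k : ℝ} (hk : 0 < k) {ρ : ℝ} (hρ : 1 < ρ) {β bin : ℂ → ℂ}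
    (hβ : DifferentiableOn ℂ β (An ρ (ρ ^ 2)))
    (hβ2 : MemLp β 2 (volume.restrict (An ρ (ρ ^ 2))))
    (hb : DifferentiableOn ℂ bin (An 1 ρ))
    (hb2 : MemLp bin 2 (volume.restrict (An 1 ρ)))
    (hre : ∀ φ : ℂ → ℝ, IsTest (An 1 (ρ ^ 2)) φ →
      (∫ z in An ρ (ρ ^ 2), β z * grad φ z).re + k * (∫ z in An 1 ρ, bin z * grad φ z).re = 0)
    (him : ∀ φ : ℂ → ℝ, IsTest (An 1 (ρ ^ 2)) φ →
      (∫ z in An ρ (ρ ^ 2), β z * grad φ z).im + (∫ z in An 1 ρ, bin z * grad φ z).im = 0) :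
    ∃ w : ℂ → ℂ, DifferentiableOn ℂ w (An 1 (ρ ^ 2)) ∧ (∀ z ∈ An ρ (ρ ^ 2), w z = β z) ∧
      ∀ z ∈ An 1 ρ, w z = 2 * (k : ℂ) / (1 + k) * bin z - (1 - (k : ℂ)) / (1 + k) * Phi 0 ρ β z := by
  have hρ0 : 0 < ρ := by linarith
  have hρ2 : ρ < ρ ^ 2 := by nlinarith
  have hk1 : (1 + (k : ℂ)) ≠ 0 := by
    have : (1 : ℝ) + k ≠ 0 := by positivity
    exact_mod_cast this
  have hdis : Disjoint (An ρ (ρ ^ 2)) (An 1 ρ) := by
    rw [Set.disjoint_left]
    intro z h1 h2
    exact lt_asymm h1.1 h2.2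
  set G : ℂ → ℂ := fun z => 2 * (k : ℂ) / (1 + k) * bin z -
    (1 - (k : ℂ)) / (1 + k) * Phi 0 ρ β z with hG
  have hPd : DifferentiableOn ℂ (Phi 0 ρ β) (An 1 ρ) := by
    intro z hz
    have h2 := cinv_An hρ0 zero_lt_one hz
    rw [div_one, show ρ ^ 2 / ρ = ρ by field_simp] at h2
    have h3 := hβ.differentiableAt ((An_open _ _).mem_nhds h2)
    exact (Phi_diffAt (An_ne zero_le_one hz) h3).differentiableWithinAt
  have hPL : MemLp (Phi 0 ρ β) 2 (volume.restrict (An 1 ρ)) :=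
    (refl_int hρ hβ hβ2 (φ := fun _ => 0) ⟨contDiff_const, HasCompactSupport.zero,
      by simp [tsupport]⟩).1
  have hGd : DifferentiableOn ℂ G (An 1 ρ) := (hb.const_mul _).sub (hPd.const_mul _)
  have hGL : MemLp G 2 (volume.restrict (An 1 ρ)) := (hb2.const_mul _).sub (hPL.const_mul _)
  set f : ℂ → ℂ := fun z => (An ρ (ρ ^ 2)).indicator β z + (An 1 ρ).indicator G z with hf
  have hfL : MemLp f 2 volume :=
    ((memLp_indicator_iff_restrict (An_meas _ _)).2 hβ2).add
      ((memLp_indicator_iff_restrict (An_meas _ _)).2 hGL)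
  obtain ⟨w, hw, hwf⟩ := weyl_global (An 1 (ρ ^ 2)) (An_open _ _) f
    ((hfL.locallyIntegrable (by norm_num)).locallyIntegrableOn _) (by
      intro φ hφ
      have hg2 : MemLp (grad φ) 2 volume := grad_memLp hφ.1 hφ.2.1 2 volume
      have i1 : Integrable (fun z => β z * grad φ z) (volume.restrict (An ρ (ρ ^ 2))) :=
        hβ2.integrable_mul (hg2.mono_measure Measure.restrict_le_self)
      have i2 : Integrable (fun z => bin z * grad φ z) (volume.restrict (An 1 ρ)) :=
        hb2.integrable_mul (hg2.mono_measure Measure.restrict_le_self)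
      have i3 : Integrable (fun z => Phi 0 ρ β z * grad φ z) (volume.restrict (An 1 ρ)) :=
        hPL.integrable_mul (hg2.mono_measure Measure.restrict_le_self)
      have i4 : Integrable (fun z => G z * grad φ z) (volume.restrict (An 1 ρ)) :=
        hGL.integrable_mul (hg2.mono_measure Measure.restrict_le_self)
      have e1 : ∫ z, f z * grad φ z = (∫ z in An ρ (ρ ^ 2), β z * grad φ z) +
          ∫ z in An 1 ρ, G z * grad φ z := by
        rw [← integral_indicator (An_meas _ _), ← integral_indicator (An_meas _ _),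
          ← integral_add]
        · congr 1
          funext z
          simp only [hf, add_mul]
          congr 1
          · by_cases h4 : z ∈ An ρ (ρ ^ 2)
            · rw [indicator_of_mem h4, indicator_of_mem h4]
            · rw [indicator_of_notMem h4, indicator_of_notMem h4, zero_mul]
          · by_cases h4 : z ∈ An 1 ρ
            · rw [indicator_of_mem h4, indicator_of_mem h4]
            · rw [indicator_of_notMem h4, indicator_of_notMem h4, zero_mul]
        · exact (integrable_indicator_iff (An_meas _ _)).2 i1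
        · exact (integrable_indicator_iff (An_meas _ _)).2 i4
      have e2 : ∫ z in An 1 ρ, G z * grad φ z =
          2 * (k : ℂ) / (1 + k) * (∫ z in An 1 ρ, bin z * grad φ z) -
            (1 - (k : ℂ)) / (1 + k) * ∫ z in An 1 ρ, Phi 0 ρ β z * grad φ z := by
        rw [← integral_const_mul, ← integral_const_mul,
          ← integral_sub (i2.const_mul _) (i3.const_mul _)]
        congr 1
        funext z
        simp only [hG]
        ring
      have e3 := (refl_int hρ hβ hβ2 hφ).2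
      set A := ∫ z in An ρ (ρ ^ 2), β z * grad φ z with hA
      set B := ∫ z in An 1 ρ, bin z * grad φ z with hB
      set C := ∫ z in An 1 ρ, Phi 0 ρ β z * grad φ z with hC
      have e4 : C = -conj A := by rw [e3]; simp
      have e5 := hre φ hφ
      have e6 := him φ hφ
      rw [e1, e2, e4]
      have e7 : (A + (2 * (k : ℂ) / (1 + k) * B - (1 - (k : ℂ)) / (1 + k) * -conj A)) * (1 + k) =
          0 := by
        field_simp
        apply Complex.ext
        · simp
          linear_combination 2 * e5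
        · simp
          linear_combination (2 * k) * e6
      exact (mul_eq_zero.1 e7).resolve_right hk1)
  have hout : An ρ (ρ ^ 2) ⊆ An 1 (ρ ^ 2) := fun z hz => ⟨by linarith [hz.1], hz.2⟩
  have hin : An 1 ρ ⊆ An 1 (ρ ^ 2) := fun z hz => ⟨hz.1, by linarith [hz.2]⟩
  refine ⟨w, hw, ?_, ?_⟩
  · have h1 : EqOn w β (An ρ (ρ ^ 2)) := by
      apply Measure.eqOn_open_of_ae_eq (μ := volume) ?_ (An_open _ _)
        (hw.continuousOn.mono hout) hβ.continuousOn
      filter_upwards [ae_restrict_of_ae_restrict_of_subset hout hwf,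
        ae_restrict_mem (An_meas _ _)] with z h2 h3
      rw [← h2]
      simp only [hf]
      rw [indicator_of_mem h3, indicator_of_notMem (Set.disjoint_left.1 hdis h3), add_zero]
    exact h1
  · have h1 : EqOn w G (An 1 ρ) := by
      apply Measure.eqOn_open_of_ae_eq (μ := volume) ?_ (An_open _ _)
        (hw.continuousOn.mono hin) hGd.continuousOn
      filter_upwards [ae_restrict_of_ae_restrict_of_subset hin hwf,
        ae_restrict_mem (An_meas _ _)] with z h2 h3
      rw [← h2]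
      simp only [hf]
      rw [indicator_of_mem h3, indicator_of_notMem (Set.disjoint_right.1 hdis h3), zero_add]
    exact h1

end Pool.Agent.H385E
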