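import Pool.Agent.H385E.Glob

/-!
Main theorems on ellipses.
-/

open Complex Metric Set Filter Topology ComplexConjugate MeasureTheory
open scoped ContDiff ENNReal

namespace Pool.Agent.H385E

open Pool.Agent.H385

/-- signed distance to the line through the foci, up to a factor -/
noncomputable def side (p q z : ℂ) : ℝ := ((z - (p + q) / 2) / (p - q)).im

theorem side_continuous (p q : ℂ) : Continuous (side p q) := by
  unfold side
  exact Complex.continuous_im.comp ((continuous_id.sub continuous_const).div_const _)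

theorem J_side {p q : ℂ} (hpq : p ≠ q) {ζ : ℂ} (h : ζ ≠ 0) :
    side p q (J p q ζ) = (ζ + ζ⁻¹).im / 4 := by
  have hf : p - q ≠ 0 := sub_ne_zero.2 hpq
  have h1 : (J p q ζ - (p + q) / 2) / (p - q) = (ζ + ζ⁻¹) / 4 := by
    unfold J; field_simp; ring
  unfold side
  rw [h1, show (4 : ℂ) = ((4 : ℝ) : ℂ) by norm_num, Complex.div_ofReal_im]

theorem J_side_ne {p q : ℂ} (hpq : p ≠ q) {ζ : ℂ} (him : ζ.im ≠ 0) (hn : 1 < ‖ζ‖) :
    side p q (J p q ζ) ≠ 0 := by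
  have h0 : ζ ≠ 0 := by rintro rfl; simp at him
  rw [J_side hpq h0]
  have h1 : (ζ + ζ⁻¹).im = ζ.im * (1 - (‖ζ‖ ^ 2)⁻¹) := by
    rw [Complex.add_im, Complex.inv_im, Complex.normSq_eq_norm_sq]
    ring
  rw [h1]
  have h2 : (‖ζ‖ ^ 2)⁻¹ < 1 := inv_lt_one_of_one_lt₀ (by nlinarith)
  exact div_ne_zero (mul_ne_zero him (by linarith)) (by norm_num)

theorem Z_norm_one {p q : ℂ} (hpq : p ≠ q) {z : ℂ} (hz : N p q z ≤ ‖p - q‖) :
    ‖Z p q z‖ = 1 := by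
  apply le_antisymm
  · have h1 := (N_le_iff hpq (le_refl (1 : ℝ)) z).1
    apply h1
    rw [inv_one]
    linarith
  · exact (Z_spec hpq z).1

theorem seg_side {p q : ℂ} (hpq : p ≠ q) {z : ℂ} (hz : N p q z ≤ ‖p - q‖) :
    side p q z = 0 := by
  have h1 := Z_norm_one hpq hz
  rw [← (Z_spec hpq z).2, J_side hpq (Z_ne hpq z), Complex.add_im, Complex.inv_im,
    Complex.normSq_eq_norm_sq, h1]
  simp

theorem side_lin (p q x y : ℂ) {a b : ℝ} (hab : a + b = 1) :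
    side p q (a • x + b • y) = a * side p q x + b * side p q y := by
  unfold side
  have h1 : (a • x + b • y - (p + q) / 2) / (p - q) =
      (a : ℂ) * ((x - (p + q) / 2) / (p - q)) + (b : ℂ) * ((y - (p + q) / 2) / (p - q)) := by
    have h2 : (a : ℂ) + (b : ℂ) = 1 := by exact_mod_cast hab
    rw [Complex.real_smul, Complex.real_smul]
    linear_combination ((p + q) / 2) / (p - q) * h2
  rw [h1, Complex.add_im, Complex.im_ofReal_mul, Complex.im_ofReal_mul]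

theorem side_pos_convex (p q : ℂ) : Convex ℝ {z | 0 < side p q z} := by
  intro x hx y hy a b ha hb hab
  change 0 < side p q (a • x + b • y)
  have hx' : 0 < side p q x := hx
  have hy' : 0 < side p q y := hy
  rw [side_lin p q x y hab]
  rcases ha.eq_or_lt with h | h
  · have : b = 1 := by linarith
    rw [← h, this]; linarith
  · have h1 : 0 < a * side p q x := mul_pos h hx'
    have h2 : 0 ≤ b * side p q y := mul_nonneg hb hy'.le
    linarith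

theorem side_neg_convex (p q : ℂ) : Convex ℝ {z | side p q z < 0} := by
  intro x hx y hy a b ha hb hab
  change side p q (a • x + b • y) < 0
  have hx' : side p q x < 0 := hx
  have hy' : side p q y < 0 := hy
  rw [side_lin p q x y hab]
  rcases ha.eq_or_lt with h | h
  · have : b = 1 := by linarith
    rw [← h, this]; linarith
  · have h1 : a * side p q x < 0 := mul_neg_of_pos_of_neg h hx'
    have h2 : b * side p q y ≤ 0 := mul_nonpos_of_nonneg_of_nonpos hb hy'.le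
    linarith

theorem side_add {p q : ℂ} (hpq : p ≠ q) (z : ℂ) (t : ℝ) :
    side p q (z + t * (p - q)) = side p q z := by
  have hf : p - q ≠ 0 := sub_ne_zero.2 hpq
  unfold side
  have h1 : (z + t * (p - q) - (p + q) / 2) / (p - q) =
      (z - (p + q) / 2) / (p - q) + (t : ℂ) := by
    field_simp
    ring
  rw [h1, Complex.add_im, Complex.ofReal_im, add_zero]

theorem N_convex (p q : ℂ) (s : ℝ) : Convex ℝ {z | N p q z ≤ s} := by
  intro x hx y hy a b ha hb hab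
  change N p q (a • x + b • y) ≤ s
  have hx' : N p q x ≤ s := hx
  have hy' : N p q y ≤ s := hy
  have key : ∀ c : ℂ, ‖a • x + b • y - c‖ ≤ a * ‖x - c‖ + b * ‖y - c‖ := by
    intro c
    have h1 : a • x + b • y - c = a • (x - c) + b • (y - c) := by
      have h2 : (a : ℂ) + (b : ℂ) = 1 := by exact_mod_cast hab
      simp only [Complex.real_smul]
      linear_combination c * h2
    rw [h1]
    calc _ ≤ ‖a • (x - c)‖ + ‖b • (y - c)‖ := norm_add_le _ _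
      _ = _ := by
        rw [norm_smul, norm_smul, Real.norm_eq_abs, Real.norm_eq_abs, abs_of_nonneg ha,
          abs_of_nonneg hb]
  have k1 := key p
  have k2 := key q
  unfold N at *
  have h3 : a * s + b * s = s := by rw [← add_mul, hab, one_mul]
  nlinarith

theorem le_N (p q z : ℂ) : ‖p - q‖ ≤ N p q z := by
  unfold N
  have := norm_sub_le (z - q) (z - p)
  rw [show z - q - (z - p) = p - q by ring] at this
  linarith

/-- an inner point of the focal segment outside a closed set -/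
theorem inner_point {p q : ℂ} (hpq : p ≠ q) {K : Set ℂ} (hK : IsClosed K) {z₀ : ℂ}
    (hz₀ : N p q z₀ ≤ ‖p - q‖) (hzK : z₀ ∉ K) :
    ∃ ζ₀ : ℂ, ‖ζ₀‖ = 1 ∧ ζ₀.im ≠ 0 ∧ J p q ζ₀ ∉ K := by
  have h1 := Z_norm_one hpq hz₀
  set η := Z p q z₀ with hη
  have hJ : J p q η = z₀ := (Z_spec hpq z₀).2
  have hη0 : η ≠ 0 := Z_ne hpq z₀
  by_cases him : η.im = 0
  swap
  · exact ⟨η, h1, him, by rw [hJ]; exact hzK⟩
  have hre : η.re ≠ 0 := by
    intro h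
    exact hη0 (Complex.ext h him)
  have hc : ContinuousAt (fun θ : ℝ => J p q (η * Complex.exp (θ * I))) 0 := by
    have h2 : ContinuousAt (J p q) (η * Complex.exp (((0 : ℝ) : ℂ) * I)) := by
      apply (J_hasDerivAt p q _).continuousAt
      simp [hη0]
    apply ContinuousAt.comp (g := J p q) (f := fun θ : ℝ => η * Complex.exp (θ * I)) h2
    exact (continuous_const.mul (Complex.continuous_exp.comp
      (Complex.continuous_ofReal.mul continuous_const))).continuousAt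
  have h3 : (fun θ : ℝ => J p q (η * Complex.exp (θ * I))) 0 ∈ Kᶜ := by
    simp only [Complex.ofReal_zero, zero_mul, Complex.exp_zero, mul_one]
    rw [hJ]
    exact hzK
  have h4 : ∀ᶠ θ : ℝ in 𝓝 0, J p q (η * Complex.exp (θ * I)) ∈ Kᶜ :=
    hc.eventually (hK.isOpen_compl.mem_nhds h3)
  have h5 : ∀ᶠ θ : ℝ in 𝓝[>] 0, J p q (η * Complex.exp (θ * I)) ∈ Kᶜ :=
    h4.filter_mono nhdsWithin_le_nhds
  have h6 : ∀ᶠ θ : ℝ in 𝓝[>] 0, θ ∈ Ioo 0 Real.pi := Ioo_mem_nhdsGT Real.pi_pos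
  obtain ⟨θ, hθ1, hθ2, hθ3⟩ := (h5.and h6).exists
  refine ⟨η * Complex.exp (θ * I), ?_, ?_, hθ1⟩
  · rw [norm_mul, h1, Complex.norm_exp_ofReal_mul_I, mul_one]
  · rw [Complex.mul_im, Complex.exp_ofReal_mul_I_im, Complex.exp_ofReal_mul_I_re, him, zero_mul,
      add_zero]
    exact mul_ne_zero hre (Real.sin_pos_of_pos_of_lt_pi hθ2 hθ3).ne'

variable {Ω : Set ℂ} {k : ℝ} {p q : ℂ} {ρ R : ℝ} {b₀ b W : ℂ → ℂ}

/-- the global difference vanishes near an inner point of the segment -/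
theorem kill_of_zero (hΩ : IsOpen Ω) (hk : 0 < k) (hk1 : k ≠ 1) (h : ESys Ω k p q ρ R b₀ b W)
    {K : Set ℂ} (hK : IsClosed K) {e F : ℂ → ℂ} (he : DifferentiableOn ℂ e (Ω \ K))
    (hF : ∀ z ∈ Ω, z ∉ {z | N p q z ≤ ‖p - q‖} → z ∉ K → F z = eext p q ρ b₀ W z - e z)
    {ζ₀ : ℂ} (hζ₀ : ‖ζ₀‖ = 1) (hJ : J p q ζ₀ ∉ K)
    (h1 : ∀ᶠ ζ in 𝓝 ζ₀, 1 < ‖ζ‖ → F (J p q ζ) = 0)
    (h2 : ∀ᶠ ζ in 𝓝 ζ₀⁻¹, 1 < ‖ζ‖ → F (J p q ζ) = 0) :
    ∀ ζ ∈ An (ρ ^ 2 / R) R, W ζ = 0 := by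
  have h0 : ζ₀ ≠ 0 := by rintro rfl; simp at hζ₀
  have hR1 : 1 < R := by nlinarith [h.hR, h.one_lt]
  have hJΩ : J p q ζ₀ ∈ Ω := h.sub (N_J_lt h.hpq hζ₀.ge (by rw [hζ₀]; exact hR1))
  have ho : IsOpen (Ω \ K) := hΩ.sdiff hK
  have hm : J p q ζ₀ ∈ Ω \ K := ⟨hJΩ, hJ⟩
  have key : ∀ ζ₁ : ℂ, ζ₁ ≠ 0 → J p q ζ₁ = J p q ζ₀ →
      (∀ᶠ ζ in 𝓝 ζ₁, 1 < ‖ζ‖ → F (J p q ζ) = 0) →
      ∀ᶠ ζ in 𝓝 ζ₁, 1 < ‖ζ‖ → eext p q ρ b₀ W (J p q ζ) = e (J p q ζ) := by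
    intro ζ₁ hζ₁ hJ₁ h3
    have hc : ContinuousAt (J p q) ζ₁ := (J_hasDerivAt p q hζ₁).continuousAt
    have h4 : ∀ᶠ ζ in 𝓝 ζ₁, J p q ζ ∈ Ω \ K := hc.eventually (ho.mem_nhds (by rw [hJ₁]; exact hm))
    filter_upwards [h3, h4] with ζ a1 a2 a3
    have h5 : J p q ζ ∉ {z | N p q z ≤ ‖p - q‖} := by
      intro h6
      have h7 : N p q (J p q ζ) ≤ ‖p - q‖ := h6
      have h8 : ‖p - q‖ < N p q (J p q ζ) := by
        rw [one_lt_Z h.hpq, Z_J h.hpq a3]; exact a3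
      linarith
    have h6 := hF _ a2.1 h5 a2.2
    rw [a1 a3] at h6
    exact (sub_eq_zero.1 h6.symm)
  exact h.kill hk hk1 hζ₀ (he.analyticAt (ho.mem_nhds hm)) (key ζ₀ h0 rfl h1)
    (key ζ₀⁻¹ (inv_ne_zero h0) (J_inv p q ζ₀) h2)

/-- the case of a convex second singular set -/
theorem kill_convex (hΩ : IsOpen Ω) (hk : 0 < k) (hk1 : k ≠ 1) (h : ESys Ω k p q ρ R b₀ b W)
    {K : Set ℂ} (hK : IsClosed K) (hKc : Convex ℝ K) {e F : ℂ → ℂ}
    (he : DifferentiableOn ℂ e (Ω \ K))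
    (hFd : DifferentiableOn ℂ F ({z | N p q z ≤ ‖p - q‖} ∪ K)ᶜ)
    (hF : ∀ z ∈ Ω, z ∉ {z | N p q z ≤ ‖p - q‖} → z ∉ K → F z = eext p q ρ b₀ W z - e z)
    {R₀ : ℝ} (hF0 : ∀ z, R₀ < ‖z‖ → F z = 0)
    {z₀ : ℂ} (hz₀ : N p q z₀ ≤ ‖p - q‖) (hzK : z₀ ∉ K) :
    ∀ ζ ∈ An (ρ ^ 2 / R) R, W ζ = 0 := by
  obtain ⟨ζ₀, hn, him, hJ⟩ := inner_point h.hpq hK hz₀ hzK
  have h0 : ζ₀ ≠ 0 := by rintro rfl; simp at hn
  obtain ⟨f, u, hfK, hfz⟩ := geometric_hahn_banach_closed_point hKc hK hJ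
  -- direction
  obtain ⟨v, hv0, hfv, hsv⟩ : ∃ v : ℂ, v ≠ 0 ∧ 0 ≤ f v ∧
      ∀ (z : ℂ) (t : ℝ), side p q (z + t * v) = side p q z := by
    have hf : p - q ≠ 0 := sub_ne_zero.2 h.hpq
    rcases le_total 0 (f (p - q)) with h1 | h1
    · exact ⟨p - q, hf, h1, fun z t => side_add h.hpq z t⟩
    · refine ⟨-(p - q), neg_ne_zero.2 hf, ?_, fun z t => ?_⟩
      · rw [map_neg]; linarith
      · have h2 := side_add h.hpq z (-t)
        rw [← h2]
        congr 1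
        push_cast
        ring
  have hPo : IsOpen {z : ℂ | u < f z} := isOpen_lt continuous_const f.continuous
  have hPc : Convex ℝ {z : ℂ | u < f z} := by
    intro x hx y hy a b ha hb hab
    change u < f (a • x + b • y)
    have hx' : u < f x := hx
    have hy' : u < f y := hy
    rw [map_add, map_smul, map_smul, smul_eq_mul, smul_eq_mul]
    have h3 : u = a * u + b * u := by rw [← add_mul, hab, one_mul]
    rcases ha.eq_or_lt with h | h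
    · have hb1 : b = 1 := by linarith
      rw [← h, hb1]; linarith
    · have h1 : a * u < a * f x := mul_lt_mul_of_pos_left hx' h
      have h2 : b * u ≤ b * f y := mul_le_mul_of_nonneg_left hy'.le hb
      linarith
  have hPv : ∀ z ∈ {z : ℂ | u < f z}, ∀ t : ℝ, 0 ≤ t → z + t * v ∈ {z : ℂ | u < f z} := by
    intro z hz t ht
    have hz' : u < f z := hz
    change u < f (z + t * v)
    rw [map_add, ← Complex.real_smul, map_smul, smul_eq_mul]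
    have := mul_nonneg ht hfv
    linarith
  have hPK : ∀ z, u < f z → z ∉ K := fun z hz hzK => absurd (hfK z hzK) (not_lt.2 hz.le)
  have hpos : ∀ z ∈ {z : ℂ | u < f z} ∩ {z | 0 < side p q z}, F z = 0 := by
    apply zero_convex hFd hF0 (hPc.inter (side_pos_convex p q))
      (hPo.inter (isOpen_lt continuous_const (side_continuous p q))) _ hv0
    · intro z hz t ht
      refine ⟨hPv z hz.1 t ht, ?_⟩
      change 0 < side p q (z + t * v)
      rw [hsv]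
      exact hz.2
    · rw [Set.disjoint_left]
      rintro z ⟨h1, h2⟩ (h3 | h3)
      · have h2' : 0 < side p q z := h2
        rw [seg_side h.hpq h3] at h2'
        exact lt_irrefl _ h2'
      · exact hPK z h1 h3
  have hneg : ∀ z ∈ {z : ℂ | u < f z} ∩ {z | side p q z < 0}, F z = 0 := by
    apply zero_convex hFd hF0 (hPc.inter (side_neg_convex p q))
      (hPo.inter (isOpen_lt (side_continuous p q) continuous_const)) _ hv0
    · intro z hz t ht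
      refine ⟨hPv z hz.1 t ht, ?_⟩
      change side p q (z + t * v) < 0
      rw [hsv]
      exact hz.2
    · rw [Set.disjoint_left]
      rintro z ⟨h1, h2⟩ (h3 | h3)
      · have h2' : side p q z < 0 := h2
        rw [seg_side h.hpq h3] at h2'
        exact lt_irrefl _ h2'
      · exact hPK z h1 h3
  have key : ∀ ζ₁ : ℂ, ζ₁ ≠ 0 → ζ₁.im ≠ 0 → J p q ζ₁ = J p q ζ₀ →
      ∀ᶠ ζ in 𝓝 ζ₁, 1 < ‖ζ‖ → F (J p q ζ) = 0 := by
    intro ζ₁ hζ₁ him₁ hJ₁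
    have hc : ContinuousAt (J p q) ζ₁ := (J_hasDerivAt p q hζ₁).continuousAt
    have h4 : ∀ᶠ ζ in 𝓝 ζ₁, J p q ζ ∈ {z : ℂ | u < f z} :=
      hc.eventually (hPo.mem_nhds (by rw [hJ₁]; exact hfz))
    have h5 : ∀ᶠ ζ : ℂ in 𝓝 ζ₁, ζ.im ≠ 0 :=
      Complex.continuous_im.continuousAt.eventually (isOpen_ne.mem_nhds him₁)
    filter_upwards [h4, h5] with ζ a1 a2 a3
    rcases lt_or_gt_of_ne (J_side_ne h.hpq a2 a3) with h6 | h6
    · exact hneg _ ⟨a1, h6⟩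
    · exact hpos _ ⟨a1, h6⟩
  refine kill_of_zero hΩ hk hk1 h hK he hF hn hJ (key ζ₀ h0 him rfl)
    (key ζ₀⁻¹ (inv_ne_zero h0) ?_ (J_inv p q ζ₀))
  rw [Complex.inv_im, Complex.normSq_eq_norm_sq, hn]
  simpa using him

/-- vanishing of the field in the annulus implies vanishing of the gradient -/
theorem G_zero (hΩ : IsOpen Ω) (hc : IsPreconnected Ω) (hk : 0 < k)
    (h : ESys Ω k p q ρ R b₀ b W) (h0 : ∀ ζ ∈ An (ρ ^ 2 / R) R, W ζ = 0) {G : ℂ → ℂ}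
    (h1 : ∀ᵐ z ∂(volume.restrict (Ω ∩ {z | lev p q ρ < N p q z})), conj (G z) = b₀ z)
    (h2 : ∀ᵐ z ∂(volume.restrict {z | N p q z < lev p q ρ}), conj (G z) = b z) :
    ∀ᵐ z ∂(volume.restrict Ω), G z = 0 := by
  obtain ⟨z1, z2⟩ := h.zero hΩ hc hk h0
  have n1 : ∀ᵐ z : ℂ, N p q z ≠ lev p q ρ := by
    rw [ae_iff]; simpa using level_null h.hpq h.one_lt.le
  have n2 : ∀ᵐ z : ℂ, N p q z ≠ lev p q 1 := by
    rw [ae_iff]; simpa using level_null h.hpq (le_refl (1 : ℝ))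
  filter_upwards [ae_restrict_of_ae n1, ae_restrict_of_ae n2,
    ae_restrict_of_ae (ae_imp_of_ae_restrict h1), ae_restrict_of_ae (ae_imp_of_ae_restrict h2),
    ae_restrict_mem hΩ.measurableSet] with z a1 a2 a3 a4 a5
  rcases lt_or_gt_of_ne a1 with h3 | h3
  · have h4 := a4 h3
    rw [lev_one] at a2
    have h5 : ‖p - q‖ < N p q z := lt_of_le_of_ne (le_N p q z) (Ne.symm a2)
    rw [z2 z h5 h3] at h4
    exact (map_eq_zero _).1 h4
  · have h4 := a3 ⟨a5, h3⟩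
    rw [z1 z a5 h3] at h4
    exact (map_eq_zero _).1 h4

/-- equal focal segments have equal foci -/
theorem foci_eq {p₁ q₁ p₂ q₂ : ℂ} (h₁ : p₁ ≠ q₁) (h₂ : p₂ ≠ q₂)
    (h12 : ∀ z, N p₁ q₁ z ≤ ‖p₁ - q₁‖ → N p₂ q₂ z ≤ ‖p₂ - q₂‖)
    (h21 : ∀ z, N p₂ q₂ z ≤ ‖p₂ - q₂‖ → N p₁ q₁ z ≤ ‖p₁ - q₁‖) :
    (p₂ = p₁ ∧ q₂ = q₁) ∨ (p₂ = q₁ ∧ q₂ = p₁) := by
  have hpar : ∀ (p q z : ℂ), p ≠ q → N p q z ≤ ‖p - q‖ → ∃ t : ℝ, |t| ≤ 1 ∧
      z = (p + q) / 2 + (p - q) / 2 * (t : ℂ) := by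
    intro p q z hpq hz
    have h1 := Z_norm_one hpq hz
    have h0 := Z_ne hpq z
    refine ⟨(Z p q z).re, ?_, ?_⟩
    · rw [← h1]; exact Complex.abs_re_le_norm _
    · have hc : Z p q z * conj (Z p q z) = 1 := by
        rw [Complex.mul_conj, Complex.normSq_eq_norm_sq, h1]; simp
      have hi : (Z p q z)⁻¹ = conj (Z p q z) := (eq_inv_of_mul_eq_one_right hc).symm
      have h3 : Z p q z + (Z p q z)⁻¹ = 2 * (((Z p q z).re : ℝ) : ℂ) := by
        rw [hi, Complex.add_conj]; push_cast; ring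
      conv_lhs => rw [← (Z_spec hpq z).2]
      unfold J
      rw [h3]
      ring
  have hp : ∀ p q : ℂ, N p q p ≤ ‖p - q‖ ∧ N p q q ≤ ‖p - q‖ := by
    intro p q
    unfold N
    constructor
    · simp
    · rw [sub_self, norm_zero, add_zero, norm_sub_rev]
  have hdist : ∀ p₁ q₁ p₂ q₂ : ℂ, p₂ ≠ q₂ →
      (∀ z, N p₁ q₁ z ≤ ‖p₁ - q₁‖ → N p₂ q₂ z ≤ ‖p₂ - q₂‖) →
      ∃ t₁ t₂ : ℝ, |t₁| ≤ 1 ∧ |t₂| ≤ 1 ∧ p₁ = (p₂ + q₂) / 2 + (p₂ - q₂) / 2 * (t₁ : ℂ) ∧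
        q₁ = (p₂ + q₂) / 2 + (p₂ - q₂) / 2 * (t₂ : ℂ) ∧
          ‖p₁ - q₁‖ = ‖p₂ - q₂‖ / 2 * |t₁ - t₂| := by
    intro p₁ q₁ p₂ q₂ h h'
    obtain ⟨t₁, ht₁, e₁⟩ := hpar p₂ q₂ p₁ h (h' _ (hp p₁ q₁).1)
    obtain ⟨t₂, ht₂, e₂⟩ := hpar p₂ q₂ q₁ h (h' _ (hp p₁ q₁).2)
    refine ⟨t₁, t₂, ht₁, ht₂, e₁, e₂, ?_⟩
    have h3 : p₁ - q₁ = (p₂ - q₂) / 2 * ((t₁ - t₂ : ℝ) : ℂ) := by
      push_cast
      linear_combination e₁ - e₂
    rw [h3, norm_mul, norm_div, Complex.norm_real, Real.norm_eq_abs]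
    norm_num
  obtain ⟨t₁, t₂, ht₁, ht₂, e₁, e₂, e₃⟩ := hdist p₁ q₁ p₂ q₂ h₂ h12
  obtain ⟨s₁, s₂, hs₁, hs₂, f₁, f₂, f₃⟩ := hdist p₂ q₂ p₁ q₁ h₁ h21
  have d1 : 0 < ‖p₁ - q₁‖ := norm_pos_iff.2 (sub_ne_zero.2 h₁)
  have d2 : 0 < ‖p₂ - q₂‖ := norm_pos_iff.2 (sub_ne_zero.2 h₂)
  have hle : ∀ a b : ℝ, |a| ≤ 1 → |b| ≤ 1 → |a - b| ≤ 2 := by
    intro a b ha hb
    calc |a - b| ≤ |a| + |b| := abs_sub _ _
      _ ≤ 2 := by linarith
  have ht := hle t₁ t₂ ht₁ ht₂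
  have hs := hle s₁ s₂ hs₁ hs₂
  have hge : 2 ≤ |t₁ - t₂| := by
    by_contra hc
    rw [not_le] at hc
    have h3 : ‖p₁ - q₁‖ < ‖p₂ - q₂‖ := by
      rw [e₃]; nlinarith
    have h4 : ‖p₂ - q₂‖ ≤ ‖p₁ - q₁‖ := by
      rw [f₃]; nlinarith
    linarith
  rw [abs_le] at ht₁ ht₂
  rcases le_abs.1 hge with h3 | h3
  · have a1 : t₁ = 1 := by linarith [ht₁.2, ht₂.1]
    have a2 : t₂ = -1 := by linarith [ht₁.2, ht₂.1]
    left
    constructor
    · rw [e₁, a1]; push_cast; ring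
    · rw [e₂, a2]; push_cast; ring
  · have a1 : t₁ = -1 := by linarith [ht₁.1, ht₂.2]
    have a2 : t₂ = 1 := by linarith [ht₁.1, ht₂.2]
    right
    constructor
    · rw [e₂, a2]; push_cast; ring
    · rw [e₁, a1]; push_cast; ring

end Pool.Agent.H385E
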