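import Pool.Agent.H385E.Fin

/-!
Main theorems on ellipses, final form.
-/

open Complex Metric Set Filter Topology ComplexConjugate MeasureTheory
open scoped ContDiff ENNReal

namespace Pool.Agent.H385E

open Pool.Agent.H385

theorem lvl_closed (p q : ℂ) (s : ℝ) : IsClosed {z | N p q z ≤ s} :=
  isClosed_le (N_continuous p q) continuous_const

theorem eext_diff' {Ω : Set ℂ} {k : ℝ} {p q : ℂ} {ρ R : ℝ} {b₀ b W : ℂ → ℂ} (hΩ : IsOpen Ω)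
    (h : ESys Ω k p q ρ R b₀ b W) :
    DifferentiableOn ℂ (eext p q ρ b₀ W) (Ω \ {z | N p q z ≤ ‖p - q‖}) := by
  refine (h.eext_diff hΩ).mono ?_
  rintro z ⟨h1, h2⟩
  refine ⟨h1, ?_⟩
  by_contra hc
  have h3 : N p q z ≤ ‖p - q‖ := not_lt.1 hc
  exact h2 h3

theorem eext_ae {Ω : Set ℂ} {k : ℝ} {p q : ℂ} {ρ R : ℝ} {b₀ b W : ℂ → ℂ}
    (_h : ESys Ω k p q ρ R b₀ b W) {G : ℂ → ℂ}
    (h1 : ∀ᵐ z ∂(volume.restrict (Ω ∩ {z | lev p q ρ < N p q z})), conj (G z) = b₀ z) :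
    ∀ᵐ z ∂(volume.restrict (Ω \ {z | N p q z ≤ lev p q ρ})),
      conj (G z) = eext p q ρ b₀ W z := by
  have he : Ω \ {z | N p q z ≤ lev p q ρ} = Ω ∩ {z | lev p q ρ < N p q z} := by
    ext z
    constructor
    · rintro ⟨a1, a2⟩
      have h3 : lev p q ρ < N p q z := not_le.1 a2
      exact ⟨a1, h3⟩
    · rintro ⟨a1, a2⟩
      have h4 : lev p q ρ < N p q z := a2
      have h3 : ¬ N p q z ≤ lev p q ρ := not_le.2 h4
      exact ⟨a1, h3⟩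
  rw [he]
  have hm : ∀ᵐ z ∂(volume.restrict (Ω ∩ {z | lev p q ρ < N p q z})), lev p q ρ < N p q z := by
    have h2 : ∀ᵐ z ∂(volume.restrict {z | lev p q ρ < N p q z}), lev p q ρ < N p q z :=
      ae_restrict_mem (isOpen_lt continuous_const (N_continuous p q)).measurableSet
    exact ae_restrict_of_ae_restrict_of_subset inter_subset_right h2
  filter_upwards [h1, hm] with z a1 a2
  rw [a1, eext_out a2]

theorem lev_mono {p q : ℂ} (hpq : p ≠ q) {a b : ℝ} (ha : 1 ≤ a) (hb : 1 ≤ b) (hab : a ≤ b) :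
    lev p q a ≤ lev p q b := by
  rcases hab.eq_or_lt with h | h
  · rw [h]
  · exact ((lev_lt hpq ha hb).2 h).le

/-- same foci, smaller first ellipse -/
theorem conf_main {Ω : Set ℂ} (hΩ : IsOpen Ω) {k : ℝ} (hk : 0 < k) (hk1 : k ≠ 1) {p q : ℂ} {ρ R ρ' R' : ℝ}
    {b₀ b W b₀' b' W' : ℂ → ℂ} (h : ESys Ω k p q ρ R b₀ b W) (h' : ESys Ω k p q ρ' R' b₀' b' W')
    (hlt : ρ < ρ') {F : ℂ → ℂ}
    (hFd : DifferentiableOn ℂ F ({z | N p q z ≤ ‖p - q‖} ∪ {z | N p q z ≤ ‖p - q‖})ᶜ)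
    (hF : ∀ z ∈ Ω, z ∉ {z | N p q z ≤ ‖p - q‖} → z ∉ {z | N p q z ≤ ‖p - q‖} →
      F z = eext p q ρ b₀ W z - eext p q ρ' b₀' W' z)
    {R₀ : ℝ} (hF0 : ∀ z, R₀ < ‖z‖ → F z = 0) :
    ∀ ζ ∈ An (ρ' ^ 2 / R') R', W' ζ = 0 := by
  have hR1 : 1 < R := by nlinarith [h.hR, h.one_lt]
  have hpos : ∀ z ∈ {z | 0 < side p q z}, F z = 0 := by
    apply zero_convex hFd hF0 (side_pos_convex p q)
      (isOpen_lt continuous_const (side_continuous p q)) _ (sub_ne_zero.2 h.hpq)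
    · intro z hz t _
      change 0 < side p q (z + t * (p - q))
      rw [side_add h.hpq]
      exact hz
    · rw [union_self, Set.disjoint_left]
      intro z h2 h3
      have h2' : 0 < side p q z := h2
      rw [seg_side h.hpq h3] at h2'
      exact lt_irrefl _ h2'
  refine conf_kill h h' hk hk1 hlt (ζ₀ := I) (by simp) ?_
  have hJΩ : J p q I ∈ Ω := h.sub (N_J_lt h.hpq (by simp) (by simpa using hR1))
  have hcJ : ContinuousAt (J p q) I := (J_hasDerivAt p q I_ne_zero).continuousAt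
  have h4 : ∀ᶠ ζ in 𝓝 I, J p q ζ ∈ Ω := hcJ.eventually (hΩ.mem_nhds hJΩ)
  have h5 : ∀ᶠ ζ : ℂ in 𝓝 I, 0 < ζ.im :=
    Complex.continuous_im.continuousAt.eventually (lt_mem_nhds (by simp))
  filter_upwards [h4, h5] with ζ a1 a2 a3
  have h0 : ζ ≠ 0 := by rintro rfl; simp at a2
  have hs : 0 < side p q (J p q ζ) := by
    rw [J_side h.hpq h0]
    have h6 : (ζ + ζ⁻¹).im = ζ.im * (1 - (‖ζ‖ ^ 2)⁻¹) := by
      rw [Complex.add_im, Complex.inv_im, Complex.normSq_eq_norm_sq]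
      ring
    rw [h6]
    have h7 : (‖ζ‖ ^ 2)⁻¹ < 1 := inv_lt_one_of_one_lt₀ (by nlinarith)
    have : 0 < 1 - (‖ζ‖ ^ 2)⁻¹ := by linarith
    positivity
  have h6 : J p q ζ ∉ {z | N p q z ≤ ‖p - q‖} := by
    intro h7
    have := seg_side h.hpq h7
    linarith
  have h7 := hF _ a1 h6 h6
  rw [hpos _ hs] at h7
  exact sub_eq_zero.1 h7.symm

theorem N_swap (p q z : ℂ) : N p q z = N q p z := by
  unfold N; ring

/-- global uniqueness for deep ellipses -/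
theorem main_A {Ω : Set ℂ} (hΩ : IsOpen Ω) (hb : Bornology.IsBounded Ω)
    (hc : IsPreconnected Ω) {k : ℝ} (hk : 0 < k) (hk1 : k ≠ 1)
    {g : ℂ → ℝ} (hg : IntegrableOn g (frontier Ω) (Measure.hausdorffMeasure 1))
    (hg0 : ¬ g =ᵐ[(Measure.hausdorffMeasure 1).restrict (frontier Ω)] 0)
    {p₁ q₁ p₂ q₂ : ℂ} {s₁ s₂ : ℝ} (hpq₁ : p₁ ≠ q₁) (hpq₂ : p₂ ≠ q₂) (hs₁ : ‖p₁ - q₁‖ < s₁)
    (hs₂ : ‖p₂ - q₂‖ < s₂)
    (hd₁ : {z | N p₁ q₁ z ≤ 2 * s₁ ^ 2 / ‖p₁ - q₁‖ - ‖p₁ - q₁‖} ⊆ Ω)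
    (hd₂ : {z | N p₂ q₂ z ≤ 2 * s₂ ^ 2 / ‖p₂ - q₂‖ - ‖p₂ - q₂‖} ⊆ Ω)
    {u₁ u₂ : ℂ → ℝ} {G₁ G₂ : ℂ → ℂ} (h₁ : IsSolution Ω k {z | N p₁ q₁ z < s₁} g u₁ G₁)
    (h₂ : IsSolution Ω k {z | N p₂ q₂ z < s₂} g u₂ G₂) (hT : SameTrace Ω u₁ G₁ u₂ G₂) :
    {z | N p₁ q₁ z < s₁} = {z | N p₂ q₂ z < s₂} := by
  -- without loss of generality equal foci are named in the same order
  have swap : ∀ {p₂ q₂ : ℂ} (hpq₂ : p₂ ≠ q₂) (hs₂ : ‖p₂ - q₂‖ < s₂)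
      (hd₂ : {z | N p₂ q₂ z ≤ 2 * s₂ ^ 2 / ‖p₂ - q₂‖ - ‖p₂ - q₂‖} ⊆ Ω)
      (h₂ : IsSolution Ω k {z | N p₂ q₂ z < s₂} g u₂ G₂)
      (hor : (∃ z, N p₁ q₁ z ≤ ‖p₁ - q₁‖ ∧ ¬ N p₂ q₂ z ≤ ‖p₂ - q₂‖) ∨
        (∃ z, N p₂ q₂ z ≤ ‖p₂ - q₂‖ ∧ ¬ N p₁ q₁ z ≤ ‖p₁ - q₁‖) ∨ (p₂ = p₁ ∧ q₂ = q₁)),
      {z | N p₁ q₁ z < s₁} = {z | N p₂ q₂ z < s₂} := by
    intro p₂ q₂ hpq₂ hs₂ hd₂ h₂ hor
    obtain ⟨ρ₁, R₁, hρ₁, hR₁, hR₁', hsub₁, hl₁⟩ := star_radii hΩ hpq₁ hs₁ hd₁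
    obtain ⟨ρ₂, R₂, hρ₂, hR₂, hR₂', hsub₂, hl₂⟩ := star_radii hΩ hpq₂ hs₂ hd₂
    rw [← hl₁] at h₁ ⊢
    rw [← hl₂] at h₂ ⊢
    obtain ⟨b₁, c₁, W₁, hE₁, hb₁, hc₁⟩ := esys_exists hΩ hk hpq₁ hρ₁ hR₁ hR₁' hsub₁ h₁
    obtain ⟨b₂, c₂, W₂, hE₂, hb₂, hc₂⟩ := esys_exists hΩ hk hpq₂ hρ₂ hR₂ hR₂' hsub₂ h₂
    have hρR₁ : lev p₁ q₁ ρ₁ < lev p₁ q₁ R₁ := by
      rw [lev_lt hpq₁ hρ₁.le (by nlinarith)]; nlinarith
    have hρR₂ : lev p₂ q₂ ρ₂ < lev p₂ q₂ R₂ := by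
      rw [lev_lt hpq₂ hρ₂.le (by nlinarith)]; nlinarith
    have h1ρ₁ : ‖p₁ - q₁‖ < lev p₁ q₁ ρ₁ := by
      rw [← lev_one, lev_lt hpq₁ le_rfl hρ₁.le]; exact hρ₁
    have h1ρ₂ : ‖p₂ - q₂‖ < lev p₂ q₂ ρ₂ := by
      rw [← lev_one, lev_lt hpq₂ le_rfl hρ₂.le]; exact hρ₂
    have hm₁ : MeasurableSet {z | N p₁ q₁ z < lev p₁ q₁ ρ₁} :=
      (isOpen_lt (N_continuous p₁ q₁) continuous_const).measurableSet
    have hm₂ : MeasurableSet {z | N p₂ q₂ z < lev p₂ q₂ ρ₂} :=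
      (isOpen_lt (N_continuous p₂ q₂) continuous_const).measurableSet
    obtain ⟨F, hFd, hF, R₀, hF0⟩ := glob hΩ hb (sol_body hm₁ hΩ.measurableSet h₁)
      (sol_body hm₂ hΩ.measurableSet h₂) hT (lvl_closed p₁ q₁ (lev p₁ q₁ ρ₁))
      (lvl_closed p₂ q₂ (lev p₂ q₂ ρ₂)) (lvl_closed p₁ q₁ ‖p₁ - q₁‖) (lvl_closed p₂ q₂ ‖p₂ - q₂‖)
      (fun z (hz : N p₁ q₁ z < _) => hz.le) (fun z (hz : N p₂ q₂ z < _) => hz.le)
      (fun z (hz : N p₁ q₁ z ≤ _) => hsub₁ (lt_of_le_of_lt hz hρR₁))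
      (fun z (hz : N p₂ q₂ z ≤ _) => hsub₂ (lt_of_le_of_lt hz hρR₂))
      (fun z (hz : N p₁ q₁ z ≤ _) => le_trans hz h1ρ₁.le)
      (fun z (hz : N p₂ q₂ z ≤ _) => le_trans hz h1ρ₂.le)
      (eext_diff' hΩ hE₁) (eext_diff' hΩ hE₂) (eext_ae hE₁ hb₁) (eext_ae hE₂ hb₂)
    by_contra hne
    apply hg0
    -- it is enough that one of the two annular fields vanishes
    have fin₁ : (∀ ζ ∈ An (ρ₁ ^ 2 / R₁) R₁, W₁ ζ = 0) →
        g =ᵐ[(Measure.hausdorffMeasure 1).restrict (frontier Ω)] 0 := fun h0 =>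
      g_zero h₁ hg (G_zero hΩ hc hk hE₁ h0 hb₁ hc₁)
    have fin₂ : (∀ ζ ∈ An (ρ₂ ^ 2 / R₂) R₂, W₂ ζ = 0) →
        g =ᵐ[(Measure.hausdorffMeasure 1).restrict (frontier Ω)] 0 := fun h0 =>
      g_zero h₂ hg (G_zero hΩ hc hk hE₂ h0 hb₂ hc₂)
    rcases hor with ⟨z, hz1, hz2⟩ | ⟨z, hz1, hz2⟩ | ⟨e1, e2⟩
    · exact fin₁ (kill_convex hΩ hk hk1 hE₁ (lvl_closed p₂ q₂ ‖p₂ - q₂‖) (N_convex p₂ q₂ _)
        (eext_diff' hΩ hE₂) hFd hF hF0 hz1 hz2)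
    · refine fin₂ (kill_convex hΩ hk hk1 hE₂ (lvl_closed p₁ q₁ ‖p₁ - q₁‖) (N_convex p₁ q₁ _)
        (eext_diff' hΩ hE₁) (F := fun z => -F z) ?_ ?_ (R₀ := R₀) ?_ hz1 hz2)
      · rw [union_comm]; exact hFd.neg
      · intro z a1 a2 a3
        rw [hF z a1 a3 a2]
        ring
      · intro z hz
        rw [hF0 z hz, neg_zero]
    · subst e1
      subst e2
      rcases lt_trichotomy ρ₁ ρ₂ with hlt | heq | hgt
      · exact fin₂ (conf_main hΩ hk hk1 hE₁ hE₂ hlt hFd hF hF0)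
      · exact absurd (by rw [heq]) hne
      · refine fin₁ (conf_main hΩ hk hk1 hE₂ hE₁ hgt (F := fun z => -F z) hFd.neg ?_
          (R₀ := R₀) ?_)
        · intro z a1 a2 a3
          rw [hF z a1 a3 a2]
          ring
        · intro z hz
          rw [hF0 z hz, neg_zero]
  by_cases hA : ∃ z, N p₁ q₁ z ≤ ‖p₁ - q₁‖ ∧ ¬ N p₂ q₂ z ≤ ‖p₂ - q₂‖
  · exact swap hpq₂ hs₂ hd₂ h₂ (Or.inl hA)
  by_cases hB : ∃ z, N p₂ q₂ z ≤ ‖p₂ - q₂‖ ∧ ¬ N p₁ q₁ z ≤ ‖p₁ - q₁‖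
  · exact swap hpq₂ hs₂ hd₂ h₂ (Or.inr (Or.inl hB))
  push Not at hA hB
  rcases foci_eq hpq₁ hpq₂ hA hB with ⟨e1, e2⟩ | ⟨e1, e2⟩
  · exact swap hpq₂ hs₂ hd₂ h₂ (Or.inr (Or.inr ⟨e1, e2⟩))
  · have hN : N p₂ q₂ = N q₂ p₂ := funext fun z => N_swap p₂ q₂ z
    have hn : ‖p₂ - q₂‖ = ‖q₂ - p₂‖ := norm_sub_rev _ _
    rw [hN] at h₂ hd₂ ⊢
    rw [hn] at hs₂ hd₂
    exact swap hpq₂.symm hs₂ hd₂ h₂ (Or.inr (Or.inr ⟨e2, e1⟩))

/-- the focal segment -/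
theorem seg_eq {p q : ℂ} (hpq : p ≠ q) : segment ℝ p q = {z | N p q z ≤ ‖p - q‖} := by
  ext z
  constructor
  · rintro ⟨a, b, ha, hb, hab, rfl⟩
    have h1 : a • p + b • q - p = ((b : ℝ) : ℂ) * (q - p) := by
      have h2 : (a : ℂ) + (b : ℂ) = 1 := by exact_mod_cast hab
      simp only [Complex.real_smul]
      linear_combination p * h2
    have h3 : a • p + b • q - q = ((a : ℝ) : ℂ) * (p - q) := by
      have h2 : (a : ℂ) + (b : ℂ) = 1 := by exact_mod_cast hab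
      simp only [Complex.real_smul]
      linear_combination q * h2
    change N p q (a • p + b • q) ≤ ‖p - q‖
    unfold N
    rw [h1, h3, norm_mul, norm_mul, Complex.norm_real, Complex.norm_real, Real.norm_eq_abs,
      Real.norm_eq_abs, abs_of_nonneg ha, abs_of_nonneg hb, norm_sub_rev q p]
    have h4 : b * ‖p - q‖ + a * ‖p - q‖ = ‖p - q‖ := by
      rw [← add_mul, add_comm b a, hab, one_mul]
    linarith
  · intro hz
    have hz' : N p q z ≤ ‖p - q‖ := hz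
    have h1 := Z_norm_one hpq hz'
    have h0 := Z_ne hpq z
    have hc : Z p q z * conj (Z p q z) = 1 := by
      rw [Complex.mul_conj, Complex.normSq_eq_norm_sq, h1]; simp
    have hi : (Z p q z)⁻¹ = conj (Z p q z) := (eq_inv_of_mul_eq_one_right hc).symm
    have h3 : Z p q z + (Z p q z)⁻¹ = 2 * (((Z p q z).re : ℝ) : ℂ) := by
      rw [hi, Complex.add_conj]; push_cast; ring
    have ht := Complex.abs_re_le_norm (Z p q z)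
    rw [h1, abs_le] at ht
    set t := (Z p q z).re with htd
    refine ⟨(1 + t) / 2, (1 - t) / 2, by linarith [ht.1], by linarith [ht.2], by ring, ?_⟩
    rw [← (Z_spec hpq z).2]
    unfold J
    rw [h3]
    simp only [Complex.real_smul]
    push_cast
    ring

/-- any body with the same measurement contains the focal segment -/
theorem main_B {Ω : Set ℂ} (hΩ : IsOpen Ω) (hb : Bornology.IsBounded Ω)
    (hc : IsPreconnected Ω) {k : ℝ} (hk : 0 < k) (hk1 : k ≠ 1)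
    {g : ℂ → ℝ} (hg : IntegrableOn g (frontier Ω) (Measure.hausdorffMeasure 1))
    (hg0 : ¬ g =ᵐ[(Measure.hausdorffMeasure 1).restrict (frontier Ω)] 0)
    {p q : ℂ} {s : ℝ} (hpq : p ≠ q) (hs : ‖p - q‖ < s)
    (hd : {z | N p q z ≤ 2 * s ^ 2 / ‖p - q‖ - ‖p - q‖} ⊆ Ω)
    {D : Set ℂ} (hD : closure D ⊆ Ω) (hconn : IsPreconnected (segment ℝ p q ∪ closure D)ᶜ)
    {u₁ u₂ : ℂ → ℝ} {G₁ G₂ V₂ : ℂ → ℂ} (h₁ : IsSolution Ω k {z | N p q z < s} g u₁ G₁)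
    (h₂ : IsBodySolution Ω D g u₂ G₂ V₂) (hT : SameTrace Ω u₁ G₁ u₂ G₂) :
    segment ℝ p q ⊆ closure D := by
  by_contra hne
  rw [Set.not_subset] at hne
  obtain ⟨z₀, hz₀, hzD⟩ := hne
  rw [seg_eq hpq] at hz₀ hconn
  obtain ⟨ρ, R, hρ, hR, hR', hsub, hl⟩ := star_radii hΩ hpq hs hd
  rw [← hl] at h₁
  obtain ⟨b₁, c₁, W, hE, hb₁, hc₁⟩ := esys_exists hΩ hk hpq hρ hR hR' hsub h₁
  have hρR : lev p q ρ < lev p q R := by
    rw [lev_lt hpq hρ.le (by nlinarith)]; nlinarith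
  have h1ρ : ‖p - q‖ < lev p q ρ := by
    rw [← lev_one, lev_lt hpq le_rfl hρ.le]; exact hρ
  have hm₁ : MeasurableSet {z | N p q z < lev p q ρ} :=
    (isOpen_lt (N_continuous p q) continuous_const).measurableSet
  obtain ⟨e, he, heG⟩ := body_ext hΩ h₂ (hΩ.sdiff (isClosed_closure (s := D))) sdiff_subset (by
    rw [Set.disjoint_left]
    exact fun z hz hzD => hz.2 (subset_closure hzD))
  obtain ⟨F, hFd, hF, R₀, hF0⟩ := glob hΩ hb (sol_body hm₁ hΩ.measurableSet h₁)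
    h₂ hT (lvl_closed p q (lev p q ρ)) isClosed_closure (lvl_closed p q ‖p - q‖)
    (isClosed_closure (s := D))
    (fun z (hz : N p q z < _) => hz.le) subset_closure
    (fun z (hz : N p q z ≤ _) => hsub (lt_of_le_of_lt hz hρR)) hD
    (fun z (hz : N p q z ≤ _) => le_trans hz h1ρ.le) subset_rfl
    (eext_diff' hΩ hE) he (eext_ae hE hb₁) heG
  -- the difference vanishes
  have hKo : IsOpen ({z | N p q z ≤ ‖p - q‖} ∪ closure D)ᶜ :=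
    ((lvl_closed p q _).union isClosed_closure).isOpen_compl
  have hFz : ∀ z ∈ ({z | N p q z ≤ ‖p - q‖} ∪ closure D)ᶜ, F z = 0 := by
    obtain ⟨R₁, hR₁⟩ := hb.subset_closedBall 0
    set x : ℝ := |R₀| + |R₁| + 1 with hx
    have hxn : ‖(x : ℂ)‖ = x := by
      rw [Complex.norm_real, Real.norm_eq_abs, abs_of_nonneg (by positivity)]
    have hm : (x : ℂ) ∈ ({z | N p q z ≤ ‖p - q‖} ∪ closure D)ᶜ := by
      intro h3
      have h4 : (x : ℂ) ∈ Ω := by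
        rcases h3 with h3 | h3
        · have h3' : N p q (x : ℂ) ≤ ‖p - q‖ := h3
          exact hsub (by
            change N p q (x : ℂ) < lev p q R
            linarith)
        · exact hD h3
      have h5 := hR₁ h4
      rw [mem_closedBall, dist_zero_right, hxn] at h5
      have := le_abs_self R₁
      have := abs_nonneg R₀
      linarith
    have hev : F =ᶠ[𝓝 (x : ℂ)] 0 := by
      have hcn : ContinuousAt (fun y : ℂ => ‖y‖) (x : ℂ) := continuous_norm.continuousAt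
      have h6 : R₀ < ‖(x : ℂ)‖ := by
        rw [hxn]
        have := le_abs_self R₀
        have := abs_nonneg R₁
        linarith
      filter_upwards [hcn.eventually (lt_mem_nhds h6)] with y hy
      exact hF0 y hy
    exact (hFd.analyticOnNhd hKo).eqOn_zero_of_preconnected_of_eventuallyEq_zero hconn hm hev
  obtain ⟨ζ₀, hn, him, hJ⟩ := inner_point hpq isClosed_closure hz₀ hzD
  have h0 : ζ₀ ≠ 0 := by rintro rfl; simp at hn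
  have key : ∀ ζ₁ : ℂ, ζ₁ ≠ 0 → J p q ζ₁ = J p q ζ₀ →
      ∀ᶠ ζ in 𝓝 ζ₁, 1 < ‖ζ‖ → F (J p q ζ) = 0 := by
    intro ζ₁ hζ₁ hJ₁
    have hcJ : ContinuousAt (J p q) ζ₁ := (J_hasDerivAt p q hζ₁).continuousAt
    have h4 : ∀ᶠ ζ in 𝓝 ζ₁, J p q ζ ∈ (closure D)ᶜ :=
      hcJ.eventually (isClosed_closure.isOpen_compl.mem_nhds (by rw [hJ₁]; exact hJ))
    filter_upwards [h4] with ζ a1 a2
    apply hFz
    rintro (h5 | h5)
    · have h7 : N p q (J p q ζ) ≤ ‖p - q‖ := h5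
      have h8 : ‖p - q‖ < N p q (J p q ζ) := by
        rw [one_lt_Z hpq, Z_J hpq a2]; exact a2
      linarith
    · exact a1 h5
  have hW := kill_of_zero hΩ hk hk1 hE isClosed_closure he hF hn hJ (key ζ₀ h0 rfl)
    (key ζ₀⁻¹ (inv_ne_zero h0) (J_inv p q ζ₀))
  exact hg0 (g_zero h₁ hg (G_zero hΩ hc hk hE hW hb₁ hc₁))

end Pool.Agent.H385E
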