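import Pool.Agent.H385E.Sys

/-!
Global matching of two extended fields.
-/

open Complex Metric Set Filter Topology ComplexConjugate MeasureTheory
open scoped ContDiff ENNReal

namespace Pool.Agent.H385E

open Pool.Agent.H385

/-- A body `D` of arbitrary material in the homogeneous medium `Ω`: `G` is the gradient of the
potential `u ∈ W^{1,2}(Ω)`, `V` is the current, `V = G` off `D`, and the current is divergence
free with boundary flux `g`. -/
structure IsBodySolution (Ω D : Set ℂ) (g : ℂ → ℝ) (u : ℂ → ℝ) (G V : ℂ → ℂ) : Prop where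
  memLp : MemLp u 2 (volume.restrict Ω)
  memLp_grad : MemLp G 2 (volume.restrict Ω)
  memLp_flux : MemLp V 2 (volume.restrict Ω)
  weakGrad : HasWeakGrad Ω u G
  flux_eq : ∀ᵐ z ∂(volume.restrict (Ω \ D)), V z = G z
  eq : ∀ φ : ℂ → ℝ, IsTest univ φ →
    ∫ z in Ω, inner ℝ (V z) (grad φ z) =
      ∫ z in frontier Ω, g z * φ z ∂(Measure.hausdorffMeasure 1)

/-- the current of a solution with a piecewise constant conductivity -/
noncomputable def cur (k : ℝ) (D : Set ℂ) (G : ℂ → ℂ) (z : ℂ) : ℂ :=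
  ((1 + (k - 1) * D.indicator (fun _ => (1 : ℝ)) z : ℝ) : ℂ) * G z

theorem sol_body {Ω : Set ℂ} {k : ℝ} {D : Set ℂ} (hD : MeasurableSet D) (hΩ : MeasurableSet Ω)
    {g u : ℂ → ℝ} {G : ℂ → ℂ}
    (h : IsSolution Ω k D g u G) : IsBodySolution Ω D g u G (cur k D G) := by
  refine ⟨h.memLp, h.memLp_grad, ?_, h.weakGrad, ?_, ?_⟩
  · have hm : Measurable (fun z => ((1 + (k - 1) * D.indicator (fun _ => (1 : ℝ)) z : ℝ) : ℂ)) := by
      have h1 : Measurable (D.indicator (fun _ => (1 : ℝ))) := measurable_const.indicator hD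
      exact Complex.measurable_ofReal.comp (measurable_const.add (measurable_const.mul h1))
    refine MemLp.of_le_mul (c := 1 + |k - 1|) h.memLp_grad
      (hm.aestronglyMeasurable.mul h.memLp_grad.1) (Eventually.of_forall fun z => ?_)
    unfold cur
    rw [norm_mul, Complex.norm_real, Real.norm_eq_abs]
    apply mul_le_mul_of_nonneg_right _ (norm_nonneg _)
    by_cases hz : z ∈ D
    · rw [indicator_of_mem hz, mul_one]
      calc |1 + (k - 1)| ≤ |1| + |k - 1| := abs_add_le _ _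
        _ = 1 + |k - 1| := by rw [abs_one]
    · rw [indicator_of_notMem hz, mul_zero, add_zero, abs_one]
      linarith [abs_nonneg (k - 1)]
  · filter_upwards [ae_restrict_mem (hΩ.diff hD)] with z hz
    unfold cur
    rw [indicator_of_notMem hz.2]
    simp
  · intro φ hφ
    rw [← h.eq φ hφ]
    congr 1
    funext z
    unfold cur
    rw [← Complex.real_smul, real_inner_smul_left]

theorem inner_re_int {Ω : Set ℂ} {V : ℂ → ℂ} (hV : MemLp V 2 (volume.restrict Ω)) {φ : ℂ → ℝ}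
    (hφ : IsTest univ φ) :
    ∫ z in Ω, inner ℝ (V z) (grad φ z) = (∫ z in Ω, conj (V z) * grad φ z).re := by
  have hint := mul_grad_integrable hφ (conj_memLp hV)
  have h2 : (∫ z in Ω, conj (V z) * grad φ z).re =
      ∫ z in Ω, (conj (V z) * grad φ z).re :=
    (Complex.reCLM.integral_comp_comm hint).symm
  rw [h2]
  simp_rw [inner_grad]

/-- the field of a body is holomorphic outside the body -/
theorem body_ext {Ω : Set ℂ} (hΩ : IsOpen Ω) {D : Set ℂ} {g u : ℂ → ℝ} {G V : ℂ → ℂ}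
    (h : IsBodySolution Ω D g u G V) {U : Set ℂ} (hU : IsOpen U) (hUΩ : U ⊆ Ω)
    (hUD : Disjoint U D) :
    ∃ b : ℂ → ℂ, DifferentiableOn ℂ b U ∧ ∀ᵐ z ∂(volume.restrict U), conj (G z) = b z := by
  apply weyl_global U hU (fun z => conj (G z)) (loc_int h.memLp_grad hUΩ)
  intro φ hφ
  have hφΩ : IsTest Ω φ := hφ.mono hUΩ
  have hUd : U ⊆ Ω \ D := fun z hz => ⟨hUΩ hz, Set.disjoint_left.1 hUD hz⟩
  have h1 := h.eq φ (hφ.mono (subset_univ _))
  rw [bd_zero hΩ hφΩ, inner_re_int h.memLp_flux (hφ.mono (subset_univ _)),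
    setInt_eq hφ hUΩ (fun z => conj (V z)), ← setInt_eq hφ subset_rfl (fun z => conj (V z))] at h1
  have h3 : ∫ z in U, conj (V z) * grad φ z = ∫ z in U, conj (G z) * grad φ z := by
    apply integral_congr_ae
    filter_upwards [ae_restrict_of_ae_restrict_of_subset hUd h.flux_eq] with z hz
    rw [hz]
  rw [h3, setInt_eq hφ subset_rfl] at h1
  have h2 := curl_zero h.weakGrad h.memLp_grad hφΩ
  rw [setInt_eq hφ hUΩ] at h2
  exact Complex.ext h1 h2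

/-- difference of two fields, extended by zero -/
theorem diff_hol {Ω : Set ℂ} (hΩ : IsOpen Ω) {D₁ D₂ : Set ℂ} {g u₁ u₂ : ℂ → ℝ}
    {G₁ G₂ V₁ V₂ : ℂ → ℂ} (h₁ : IsBodySolution Ω D₁ g u₁ G₁ V₁)
    (h₂ : IsBodySolution Ω D₂ g u₂ G₂ V₂)
    (hT : SameTrace Ω u₁ G₁ u₂ G₂) {C : Set ℂ} (hC : IsClosed C) (hC₁ : D₁ ⊆ C) (hC₂ : D₂ ⊆ C) :
    ∃ F : ℂ → ℂ, DifferentiableOn ℂ F Cᶜ ∧ ∀ᵐ z ∂(volume.restrict Cᶜ),
      Ω.indicator (fun z => conj (G₁ z) - conj (G₂ z)) z = F z := by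
  have hG₁ := conj_memLp h₁.memLp_grad
  have hG₂ := conj_memLp h₂.memLp_grad
  have hLd : MemLp (Ω.indicator (fun z => conj (G₁ z) - conj (G₂ z))) 2 volume := by
    rw [memLp_indicator_iff_restrict hΩ.measurableSet]
    exact hG₁.sub hG₂
  apply weyl_global Cᶜ hC.isOpen_compl _
    ((hLd.locallyIntegrable (by norm_num)).locallyIntegrableOn _)
  intro φ hφ
  have hφu : IsTest univ φ := hφ.mono (subset_univ _)
  have j1 : Integrable (fun z => conj (G₁ z) * grad φ z) (volume.restrict Ω) :=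
    mul_grad_integrable hφu hG₁
  have j2 : Integrable (fun z => conj (G₂ z) * grad φ z) (volume.restrict Ω) :=
    mul_grad_integrable hφu hG₂
  have h5 : ∫ z, Ω.indicator (fun z => conj (G₁ z) - conj (G₂ z)) z * grad φ z =
      (∫ z in Ω, conj (G₁ z) * grad φ z) - ∫ z in Ω, conj (G₂ z) * grad φ z := by
    rw [← integral_sub j1 j2, ← integral_indicator hΩ.measurableSet]
    congr 1
    funext z
    by_cases hz : z ∈ Ω
    · simp only [indicator_of_mem hz]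
      ring
    · simp only [indicator_of_notMem hz, zero_mul]
  have h6 : ∫ z in Ω, conj (G₁ z - G₂ z) * grad φ z =
      (∫ z in Ω, conj (G₁ z) * grad φ z) - ∫ z in Ω, conj (G₂ z) * grad φ z := by
    rw [← integral_sub j1 j2]
    congr 1
    funext z
    rw [map_sub]
    ring
  -- replacing the gradient by the current
  have hrep : ∀ (D : Set ℂ) (G V : ℂ → ℂ) (u : ℂ → ℝ), D ⊆ C → IsBodySolution Ω D g u G V →
      ∫ z in Ω, conj (V z) * grad φ z = ∫ z in Ω, conj (G z) * grad φ z := by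
    intro D G V u hDC h
    have h7 : ∀ᵐ z ∂(volume.restrict Ω), z ∉ D → V z = G z := by
      filter_upwards [ae_restrict_of_ae (ae_imp_of_ae_restrict h.flux_eq),
        ae_restrict_mem hΩ.measurableSet] with z h8 h9 h10
      exact h8 ⟨h9, h10⟩
    apply integral_congr_ae
    filter_upwards [h7] with z hz
    by_cases hzC : z ∈ C
    · rw [grad_zero (fun h2 => hφ.2.2 h2 hzC), mul_zero, mul_zero]
    · rw [hz (fun h9 => hzC (hDC h9))]
  have e1 := h₁.eq φ hφu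
  have e2 := h₂.eq φ hφu
  rw [inner_re_int h₁.memLp_flux hφu, hrep D₁ G₁ V₁ u₁ hC₁ h₁] at e1
  rw [inner_re_int h₂.memLp_flux hφu, hrep D₂ G₂ V₂ u₂ hC₂ h₂] at e2
  have e5 := diff_curl h₁.memLp_grad h₂.memLp_grad hT hφu
  rw [h6, sub_im] at e5
  rw [h5]
  apply Complex.ext
  · rw [sub_re, e1, e2, sub_self]; rfl
  · rw [sub_im, e5]; rfl

/-- the global difference of the extended fields -/
theorem glob {Ω : Set ℂ} (hΩ : IsOpen Ω) (hb : Bornology.IsBounded Ω) {D₁ D₂ : Set ℂ}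
    {g u₁ u₂ : ℂ → ℝ} {G₁ G₂ V₁ V₂ : ℂ → ℂ} (h₁ : IsBodySolution Ω D₁ g u₁ G₁ V₁)
    (h₂ : IsBodySolution Ω D₂ g u₂ G₂ V₂) (hT : SameTrace Ω u₁ G₁ u₂ G₂)
    {C₁ C₂ K₁ K₂ : Set ℂ} (hC₁ : IsClosed C₁) (hC₂ : IsClosed C₂) (hK₁ : IsClosed K₁)
    (hK₂ : IsClosed K₂) (hD₁ : D₁ ⊆ C₁) (hD₂ : D₂ ⊆ C₂) (hCΩ₁ : C₁ ⊆ Ω) (hCΩ₂ : C₂ ⊆ Ω)
    (hKC₁ : K₁ ⊆ C₁) (hKC₂ : K₂ ⊆ C₂) {e₁ e₂ : ℂ → ℂ} (he₁ : DifferentiableOn ℂ e₁ (Ω \ K₁))
    (he₂ : DifferentiableOn ℂ e₂ (Ω \ K₂))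
    (hG₁ : ∀ᵐ z ∂(volume.restrict (Ω \ C₁)), conj (G₁ z) = e₁ z)
    (hG₂ : ∀ᵐ z ∂(volume.restrict (Ω \ C₂)), conj (G₂ z) = e₂ z) :
    ∃ F : ℂ → ℂ, DifferentiableOn ℂ F (K₁ ∪ K₂)ᶜ ∧
      (∀ z ∈ Ω, z ∉ K₁ → z ∉ K₂ → F z = e₁ z - e₂ z) ∧
      ∃ R₀ : ℝ, ∀ z, R₀ < ‖z‖ → F z = 0 := by
  obtain ⟨F₀, hF₀, hF₀e⟩ := diff_hol hΩ h₁ h₂ hT (hC₁.union hC₂)
    (hD₁.trans subset_union_left) (hD₂.trans subset_union_right)
  have hCo : IsOpen (C₁ ∪ C₂)ᶜ := (hC₁.union hC₂).isOpen_compl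
  have hoC : IsOpen (Ω \ (C₁ ∪ C₂)) := hΩ.sdiff (hC₁.union hC₂)
  have hoK : IsOpen (Ω \ (K₁ ∪ K₂)) := hΩ.sdiff (hK₁.union hK₂)
  have hs1 : Ω \ (C₁ ∪ C₂) ⊆ Ω \ C₁ := fun z hz => ⟨hz.1, fun h => hz.2 (Or.inl h)⟩
  have hs2 : Ω \ (C₁ ∪ C₂) ⊆ Ω \ C₂ := fun z hz => ⟨hz.1, fun h => hz.2 (Or.inr h)⟩
  have hsd : DifferentiableOn ℂ (fun z => e₁ z - e₂ z) (Ω \ (K₁ ∪ K₂)) :=
    (he₁.mono fun z hz => ⟨hz.1, fun h => hz.2 (Or.inl h)⟩).sub
      (he₂.mono fun z hz => ⟨hz.1, fun h => hz.2 (Or.inr h)⟩)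
  have heq : EqOn F₀ (fun z => e₁ z - e₂ z) (Ω \ (C₁ ∪ C₂)) := by
    apply Measure.eqOn_open_of_ae_eq (μ := volume) ?_ hoC
      (hF₀.continuousOn.mono fun z hz => hz.2)
      (hsd.continuousOn.mono fun z hz => ⟨hz.1, fun h => hz.2
        (h.imp (fun a => hKC₁ a) (fun a => hKC₂ a))⟩)
    filter_upwards [ae_restrict_of_ae_restrict_of_subset (fun z hz => hz.2) hF₀e,
      ae_restrict_of_ae_restrict_of_subset hs1 hG₁,
      ae_restrict_of_ae_restrict_of_subset hs2 hG₂, ae_restrict_mem hoC.measurableSet] with z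
      a1 a2 a3 a4
    rw [← a1, indicator_of_mem a4.1, a2, a3]
  classical
  set F : ℂ → ℂ := fun z => if z ∈ Ω then e₁ z - e₂ z else F₀ z with hF
  have hFin : ∀ z ∈ Ω \ (K₁ ∪ K₂), F z = e₁ z - e₂ z := fun z hz => by
    simp only [hF, if_pos hz.1]
  have hFout : ∀ z ∈ (C₁ ∪ C₂)ᶜ, F z = F₀ z := by
    intro z hz
    by_cases h : z ∈ Ω
    · simp only [hF, if_pos h]
      exact (heq ⟨h, hz⟩).symm
    · simp only [hF, if_neg h]
  refine ⟨F, ?_, ?_, ?_⟩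
  · intro z hz
    apply DifferentiableAt.differentiableWithinAt
    by_cases h : z ∈ Ω
    · have hm : z ∈ Ω \ (K₁ ∪ K₂) := ⟨h, hz⟩
      exact (hsd.differentiableAt (hoK.mem_nhds hm)).congr_of_eventuallyEq
        (Filter.eventuallyEq_of_mem (hoK.mem_nhds hm) hFin)
    · have hm : z ∈ (C₁ ∪ C₂)ᶜ := fun h2 => h (h2.elim (fun a => hCΩ₁ a) (fun a => hCΩ₂ a))
      exact (hF₀.differentiableAt (hCo.mem_nhds hm)).congr_of_eventuallyEq
        (Filter.eventuallyEq_of_mem (hCo.mem_nhds hm) hFout)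
  · intro z h1 h2 h3
    exact hFin z ⟨h1, fun h => h.elim h2 h3⟩
  · obtain ⟨R, hR⟩ := hb.subset_closedBall 0
    have hout : ∀ z, z ∈ (closedBall (0 : ℂ) R)ᶜ → z ∉ Ω := fun z hz h => hz (hR h)
    have hsub : (closedBall (0 : ℂ) R)ᶜ ⊆ (C₁ ∪ C₂)ᶜ := fun z hz h2 =>
      hout z hz (h2.elim (fun a => hCΩ₁ a) (fun a => hCΩ₂ a))
    have hopen : IsOpen (closedBall (0 : ℂ) R)ᶜ := isClosed_closedBall.isOpen_compl
    have h0 : EqOn F₀ (fun _ => 0) (closedBall (0 : ℂ) R)ᶜ := by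
      apply Measure.eqOn_open_of_ae_eq (μ := volume) ?_ hopen (hF₀.continuousOn.mono hsub)
        continuousOn_const
      filter_upwards [ae_restrict_of_ae_restrict_of_subset hsub hF₀e,
        ae_restrict_mem hopen.measurableSet] with z a1 a2
      rw [← a1, indicator_of_notMem (hout z a2)]
    refine ⟨R, fun z hz => ?_⟩
    have hm : z ∈ (closedBall (0 : ℂ) R)ᶜ := by
      rw [mem_compl_iff, mem_closedBall, dist_zero_right, not_le]; exact hz
    rw [hFout z (hsub hm)]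
    exact h0 hm

/-- vanishing on unbounded convex open sets -/
theorem zero_convex {K : Set ℂ} {F : ℂ → ℂ} (hF : DifferentiableOn ℂ F Kᶜ) {R₀ : ℝ}
    (h0 : ∀ z, R₀ < ‖z‖ → F z = 0) {S : Set ℂ} (hS : Convex ℝ S) (hSo : IsOpen S)
    (hSK : Disjoint S K) {v : ℂ} (hv : v ≠ 0) (hSv : ∀ z ∈ S, ∀ t : ℝ, 0 ≤ t → z + t * v ∈ S) :
    ∀ z ∈ S, F z = 0 := by
  intro z hz
  have hSK' : S ⊆ Kᶜ := fun y hy => Set.disjoint_left.1 hSK hy
  have hvn : 0 < ‖v‖ := norm_pos_iff.2 hv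
  set t : ℝ := (|R₀| + ‖z‖ + 1) / ‖v‖ with ht
  have ht0 : 0 ≤ t := by positivity
  have hn : R₀ < ‖z + t * v‖ := by
    have h1 : ‖(t : ℂ) * v‖ = |R₀| + ‖z‖ + 1 := by
      rw [norm_mul, Complex.norm_real, Real.norm_eq_abs, abs_of_nonneg ht0, ht]
      field_simp
    have h2 : ‖(t : ℂ) * v‖ ≤ ‖z + t * v‖ + ‖z‖ := by
      have := norm_sub_le (z + t * v) z
      rwa [add_sub_cancel_left] at this
    have := le_abs_self R₀
    linarith
  have hm := hSv z hz t ht0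
  have hev : F =ᶠ[𝓝 (z + t * v)] 0 := by
    have hc : ContinuousAt (fun y : ℂ => ‖y‖) (z + t * v) := continuous_norm.continuousAt
    filter_upwards [hc.eventually (lt_mem_nhds hn)] with y hy
    exact h0 y hy
  exact ((hF.mono hSK').analyticOnNhd hSo).eqOn_zero_of_preconnected_of_eventuallyEq_zero
    hS.isPreconnected hm hev hz

/-- a solution with vanishing gradient has vanishing Neumann datum -/
theorem g_zero {Ω : Set ℂ} {k : ℝ} {D : Set ℂ} {g u : ℂ → ℝ} {G : ℂ → ℂ}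
    (h : IsSolution Ω k D g u G) (hg : IntegrableOn g (frontier Ω) (Measure.hausdorffMeasure 1))
    (h0 : ∀ᵐ z ∂(volume.restrict Ω), G z = 0) :
    g =ᵐ[(Measure.hausdorffMeasure 1).restrict (frontier Ω)] 0 := by
  have hz : ∀ φ : ℂ → ℝ, ContDiff ℝ ∞ φ → HasCompactSupport φ →
      ∫ z, φ z • g z ∂((Measure.hausdorffMeasure 1).restrict (frontier Ω)) = 0 := by
    intro φ hφ hφc
    have h3 := h.eq φ ⟨hφ, hφc, subset_univ _⟩
    have h4 : ∫ z in Ω, (1 + (k - 1) * D.indicator (fun _ => (1 : ℝ)) z) *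
        inner ℝ (G z) (grad φ z) = 0 := by
      rw [← integral_zero ℂ ℝ (μ := volume.restrict Ω)]
      apply integral_congr_ae
      filter_upwards [h0] with z hz
      rw [hz, inner_zero_left, mul_zero]
    rw [h4] at h3
    rw [h3]
    congr 1
    funext z
    rw [smul_eq_mul, mul_comm]
  exact ae_eq_zero_of_integral_contDiff_smul_eq_zero hg.locallyIntegrable hz

theorem star_radii {Ω : Set ℂ} (hΩ : IsOpen Ω) {p q : ℂ} (hpq : p ≠ q) {s : ℝ}
    (hs : ‖p - q‖ < s) (hsub : {z | N p q z ≤ 2 * s ^ 2 / ‖p - q‖ - ‖p - q‖} ⊆ Ω) :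
    ∃ ρ R : ℝ, 1 < ρ ∧ ρ ^ 2 < R ∧ R ≤ ρ ^ 3 ∧ {z | N p q z < lev p q R} ⊆ Ω ∧
      lev p q ρ = s := by
  have hd : 0 < ‖p - q‖ := norm_pos_iff.2 (sub_ne_zero.2 hpq)
  obtain ⟨ρ, hρ, h1, h2⟩ := rho_exists hd hs
  have h1' : lev p q ρ = s := h1
  have h2' : lev p q (ρ ^ 2) = 2 * s ^ 2 / ‖p - q‖ - ‖p - q‖ := h2
  rw [← h2'] at hsub
  have hρ2 : 1 < ρ ^ 2 := by nlinarith
  have hρ23 : ρ ^ 2 < ρ ^ 3 := by nlinarith
  have hbd : Bornology.IsBounded {z | N p q z ≤ lev p q (ρ ^ 3)} := by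
    apply (Metric.isBounded_closedBall (x := p) (r := lev p q (ρ ^ 3))).subset
    intro z hz
    have hz' : N p q z ≤ lev p q (ρ ^ 3) := hz
    rw [mem_closedBall, dist_eq_norm]
    unfold N at hz'
    linarith [norm_nonneg (z - q)]
  have hKc : IsCompact ({z | N p q z ≤ lev p q (ρ ^ 3)} ∩ Ωᶜ) :=
    (Metric.isCompact_of_isClosed_isBounded (isClosed_le (N_continuous p q) continuous_const)
      hbd).inter_right hΩ.isClosed_compl
  rcases ({z | N p q z ≤ lev p q (ρ ^ 3)} ∩ Ωᶜ).eq_empty_or_nonempty with he | hne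
  · refine ⟨ρ, ρ ^ 3, hρ, hρ23, le_rfl, ?_, h1'⟩
    intro z hz
    by_contra hc
    have hz' : N p q z < lev p q (ρ ^ 3) := hz
    have hz2 : N p q z ≤ lev p q (ρ ^ 3) := hz'.le
    have : z ∈ ({z | N p q z ≤ lev p q (ρ ^ 3)} ∩ Ωᶜ) := ⟨hz2, hc⟩
    rw [he] at this
    exact this
  · obtain ⟨z₀, hz₀, hmin⟩ := hKc.exists_isMinOn hne (N_continuous p q).continuousOn
    have hm : lev p q (ρ ^ 2) < N p q z₀ := by
      by_contra hc
      rw [not_lt] at hc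
      exact hz₀.2 (hsub hc)
    have hd2 : ‖p - q‖ < N p q z₀ := by
      rw [← lev_one p q]
      exact lt_trans ((lev_lt hpq le_rfl hρ2.le).2 hρ2) hm
    obtain ⟨R', hR', h3, _⟩ := rho_exists hd hd2
    have h3' : lev p q R' = N p q z₀ := h3
    have h4 : ρ ^ 2 < R' := by
      rw [← lev_lt hpq hρ2.le hR'.le, h3']; exact hm
    refine ⟨ρ, min R' (ρ ^ 3), hρ, lt_min h4 hρ23, min_le_right _ _, ?_, h1'⟩
    intro z hz
    have hz' : N p q z < lev p q (min R' (ρ ^ 3)) := hz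
    have hmono : ∀ a b : ℝ, 1 ≤ a → 1 ≤ b → a ≤ b → lev p q a ≤ lev p q b := by
      intro a b ha hb hab
      rcases hab.eq_or_lt with h | h
      · rw [h]
      · exact ((lev_lt hpq ha hb).2 h).le
    have hmin1 : 1 ≤ min R' (ρ ^ 3) := le_min hR'.le (by nlinarith)
    by_contra hc
    have h5 : z ∈ ({z | N p q z ≤ lev p q (ρ ^ 3)} ∩ Ωᶜ) :=
      ⟨le_trans hz'.le (hmono _ _ hmin1 (by nlinarith) (min_le_right _ _)), hc⟩
    have h6 : N p q z₀ ≤ N p q z := hmin h5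
    have h7 : lev p q (min R' (ρ ^ 3)) ≤ lev p q R' := hmono _ _ hmin1 hR'.le (min_le_left _ _)
    rw [h3'] at h7
    linarith

end Pool.Agent.H385E
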