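import Mathlib

/-!
Joukowski map adapted to two foci.
-/

open Complex Metric Set Filter Topology ComplexConjugate MeasureTheory
open scoped ContDiff ENNReal

namespace Pool.Agent.H385E

/-- Joukowski map with foci `p`, `q` -/
noncomputable def J (p q ζ : ℂ) : ℂ := (p + q) / 2 + (p - q) / 4 * (ζ + ζ⁻¹)

/-- its derivative -/
noncomputable def J1 (p q ζ : ℂ) : ℂ := (p - q) / 4 * (1 - (ζ ^ 2)⁻¹)

/-- sum of the distances to the foci -/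
noncomputable def N (p q z : ℂ) : ℝ := ‖z - p‖ + ‖z - q‖

theorem J_hasDerivAt (p q : ℂ) {ζ : ℂ} (h : ζ ≠ 0) : HasDerivAt (J p q) (J1 p q ζ) ζ := by
  have h1 := (((hasDerivAt_id ζ).add (hasDerivAt_inv h)).const_mul ((p - q) / 4)).const_add
    ((p + q) / 2)
  have h2 : (p - q) / 4 * (1 + -(ζ ^ 2)⁻¹) = J1 p q ζ := by unfold J1; ring
  rw [h2] at h1
  exact h1

theorem J_inv (p q ζ : ℂ) : J p q ζ⁻¹ = J p q ζ := by
  unfold J; rw [inv_inv]; ring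

theorem J1_inv (p q : ℂ) {ζ : ℂ} (h : ζ ≠ 0) : J1 p q ζ⁻¹ = -ζ ^ 2 * J1 p q ζ := by
  unfold J1; field_simp; ring

theorem J1_ne {p q ζ : ℂ} (hpq : p ≠ q) (h : 1 < ‖ζ‖) : J1 p q ζ ≠ 0 := by
  unfold J1
  refine mul_ne_zero (div_ne_zero (sub_ne_zero.2 hpq) (by norm_num)) ?_
  intro h1
  have h0 : ζ ≠ 0 := by rintro rfl; simp at h; linarith
  have h2 : ζ ^ 2 = 1 := by
    have : (ζ ^ 2)⁻¹ = 1 := by linear_combination -h1
    rw [← inv_inv (ζ ^ 2), this, inv_one]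
  have h3 : ‖ζ‖ ^ 2 = 1 := by rw [← norm_pow, h2, norm_one]
  nlinarith

theorem N_J (p q : ℂ) {ζ : ℂ} (h : ζ ≠ 0) :
    N p q (J p q ζ) = ‖p - q‖ / 2 * (‖ζ‖ + ‖ζ‖⁻¹) := by
  have h1 : J p q ζ - p = (p - q) / 4 * ((ζ - 1) ^ 2 / ζ) := by
    unfold J; field_simp; ring
  have h2 : J p q ζ - q = (p - q) / 4 * ((ζ + 1) ^ 2 / ζ) := by
    unfold J; field_simp; ring
  have h3 : ‖ζ - 1‖ ^ 2 + ‖ζ + 1‖ ^ 2 = 2 * ‖ζ‖ ^ 2 + 2 := by
    have := parallelogram_law_with_norm ℝ ζ 1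
    rw [norm_one] at this
    nlinarith
  have h4 : 0 < ‖ζ‖ := norm_pos_iff.2 h
  unfold N
  rw [h1, h2, norm_mul, norm_mul, norm_div, norm_div, norm_div, norm_pow, norm_pow]
  have h5 : ‖(4 : ℂ)‖ = 4 := by norm_num
  rw [h5]
  field_simp
  nlinarith [norm_nonneg (p - q)]

theorem t_lt {r s : ℝ} (hr : 1 ≤ r) (hs : 1 ≤ s) : r + r⁻¹ < s + s⁻¹ ↔ r < s := by
  have hr0 : 0 < r := by linarith
  have hs0 : 0 < s := by linarith
  have key : (s + s⁻¹) - (r + r⁻¹) = (s - r) * (1 - (r * s)⁻¹) := by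
    field_simp; ring
  constructor
  · intro h
    by_contra hc
    rw [not_lt] at hc
    have h1 : 0 ≤ 1 - (r * s)⁻¹ := by
      have : (r * s)⁻¹ ≤ 1 := inv_le_one_of_one_le₀ (by nlinarith)
      linarith
    have h2 : (s - r) * (1 - (r * s)⁻¹) ≤ 0 := mul_nonpos_of_nonpos_of_nonneg (by linarith) h1
    linarith
  · intro h
    have h1 : 0 < 1 - (r * s)⁻¹ := by
      have : (r * s)⁻¹ < 1 := inv_lt_one_of_one_lt₀ (by nlinarith)
      linarith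
    have h2 : 0 < (s - r) * (1 - (r * s)⁻¹) := mul_pos (by linarith) h1
    linarith

theorem t_le {r s : ℝ} (hr : 1 ≤ r) (hs : 1 ≤ s) : r + r⁻¹ ≤ s + s⁻¹ ↔ r ≤ s := by
  rw [← not_lt, ← not_lt, t_lt hs hr]

theorem J_exists {p q : ℂ} (hpq : p ≠ q) (z : ℂ) : ∃ ζ : ℂ, 1 ≤ ‖ζ‖ ∧ J p q ζ = z := by
  have hf : p - q ≠ 0 := sub_ne_zero.2 hpq
  set u : ℂ := (z - (p + q) / 2) / ((p - q) / 2) with hu
  obtain ⟨s, hs⟩ := IsAlgClosed.exists_pow_nat_eq (u ^ 2 - 1) (n := 2) (by norm_num)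
  have h1 : (u + s) * (u - s) = 1 := by linear_combination -hs
  have h0 : u + s ≠ 0 := left_ne_zero_of_mul_eq_one h1
  have hinv : (u + s)⁻¹ = u - s := by
    rw [eq_comm]; exact eq_inv_of_mul_eq_one_right h1
  have hJ : J p q (u + s) = z := by
    unfold J
    rw [hinv, hu]
    field_simp
    ring
  by_cases h : 1 ≤ ‖u + s‖
  · exact ⟨u + s, h, hJ⟩
  · refine ⟨(u + s)⁻¹, ?_, by rw [J_inv, hJ]⟩
    rw [norm_inv]
    rw [not_le] at h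
    exact (one_le_inv₀ (norm_pos_iff.2 h0)).2 h.le

theorem J_inj {p q : ℂ} (hpq : p ≠ q) {ζ v : ℂ} (h1 : 1 < ‖ζ‖) (h2 : 1 ≤ ‖v‖)
    (h : J p q ζ = J p q v) : ζ = v := by
  have hf : p - q ≠ 0 := sub_ne_zero.2 hpq
  have hζ : ζ ≠ 0 := by rintro rfl; simp at h1; linarith
  have hv : v ≠ 0 := by rintro rfl; simp at h2; linarith
  have h3 : (p - q) / 4 * ((ζ - v) * (ζ * v - 1) / (ζ * v)) = 0 := by
    have : (p - q) / 4 * ((ζ - v) * (ζ * v - 1) / (ζ * v)) = J p q ζ - J p q v := by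
      unfold J; field_simp; ring
    rw [this, h, sub_self]
  have h4 : (ζ - v) * (ζ * v - 1) = 0 := by
    rcases mul_eq_zero.1 h3 with h5 | h5
    · exact absurd h5 (div_ne_zero hf (by norm_num))
    · rcases div_eq_zero_iff.1 h5 with h6 | h6
      · exact h6
      · exact absurd h6 (mul_ne_zero hζ hv)
  rcases mul_eq_zero.1 h4 with h5 | h5
  · exact sub_eq_zero.1 h5
  · exfalso
    have h6 : ζ * v = 1 := sub_eq_zero.1 h5
    have h7 : ‖ζ‖ * ‖v‖ = 1 := by rw [← norm_mul, h6, norm_one]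
    nlinarith

/-- inverse of the Joukowski map with values outside the unit disk -/
noncomputable def Z (p q z : ℂ) : ℂ := Classical.epsilon (fun ζ : ℂ => 1 ≤ ‖ζ‖ ∧ J p q ζ = z)

theorem Z_spec {p q : ℂ} (hpq : p ≠ q) (z : ℂ) : 1 ≤ ‖Z p q z‖ ∧ J p q (Z p q z) = z :=
  Classical.epsilon_spec (J_exists hpq z)

theorem Z_ne {p q : ℂ} (hpq : p ≠ q) (z : ℂ) : Z p q z ≠ 0 := by
  intro h
  have := (Z_spec hpq z).1
  rw [h, norm_zero] at this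
  linarith

theorem N_Z {p q : ℂ} (hpq : p ≠ q) (z : ℂ) :
    N p q z = ‖p - q‖ / 2 * (‖Z p q z‖ + ‖Z p q z‖⁻¹) := by
  rw [← N_J p q (Z_ne hpq z), (Z_spec hpq z).2]

theorem Z_J {p q : ℂ} (hpq : p ≠ q) {ζ : ℂ} (h : 1 < ‖ζ‖) : Z p q (J p q ζ) = ζ :=
  (J_inj hpq h (Z_spec hpq (J p q ζ)).1 (Z_spec hpq (J p q ζ)).2.symm).symm

theorem N_lt_iff {p q : ℂ} (hpq : p ≠ q) {r : ℝ} (hr : 1 ≤ r) (z : ℂ) :
    N p q z < ‖p - q‖ / 2 * (r + r⁻¹) ↔ ‖Z p q z‖ < r := by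
  have hf : 0 < ‖p - q‖ / 2 := by have := norm_pos_iff.2 (sub_ne_zero.2 hpq); positivity
  rw [N_Z hpq, mul_lt_mul_iff_right₀ hf, t_lt (Z_spec hpq z).1 hr]

theorem N_le_iff {p q : ℂ} (hpq : p ≠ q) {r : ℝ} (hr : 1 ≤ r) (z : ℂ) :
    N p q z ≤ ‖p - q‖ / 2 * (r + r⁻¹) ↔ ‖Z p q z‖ ≤ r := by
  have hf : 0 < ‖p - q‖ / 2 := by have := norm_pos_iff.2 (sub_ne_zero.2 hpq); positivity
  rw [N_Z hpq, mul_le_mul_iff_right₀ hf, t_le (Z_spec hpq z).1 hr]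

theorem one_lt_Z {p q : ℂ} (hpq : p ≠ q) {z : ℂ} : ‖p - q‖ < N p q z ↔ 1 < ‖Z p q z‖ := by
  have := N_le_iff hpq (le_refl (1 : ℝ)) z
  rw [inv_one, show ‖p - q‖ / 2 * (1 + 1) = ‖p - q‖ by ring] at this
  rw [← not_le, this, not_le]

theorem N_continuous (p q : ℂ) : Continuous (N p q) := by
  unfold N; fun_prop

theorem N_J_lt {p q : ℂ} (hpq : p ≠ q) {r : ℝ} {ζ : ℂ} (h1 : 1 ≤ ‖ζ‖) (h2 : ‖ζ‖ < r) :
    N p q (J p q ζ) < ‖p - q‖ / 2 * (r + r⁻¹) := by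
  have h0 : ζ ≠ 0 := by rintro rfl; simp at h1; linarith
  have hf : 0 < ‖p - q‖ / 2 := by have := norm_pos_iff.2 (sub_ne_zero.2 hpq); positivity
  rw [N_J p q h0, mul_lt_mul_iff_right₀ hf, t_lt h1 (by linarith)]
  exact h2

theorem lt_N_J {p q : ℂ} (hpq : p ≠ q) {r : ℝ} {ζ : ℂ} (h1 : 1 ≤ r) (h2 : r < ‖ζ‖) :
    ‖p - q‖ / 2 * (r + r⁻¹) < N p q (J p q ζ) := by
  have h0 : ζ ≠ 0 := by rintro rfl; simp at h2; linarith
  have hf : 0 < ‖p - q‖ / 2 := by have := norm_pos_iff.2 (sub_ne_zero.2 hpq); positivity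
  rw [N_J p q h0, mul_lt_mul_iff_right₀ hf, t_lt h1 (by linarith)]
  exact h2

theorem Z_hasDerivAt {p q : ℂ} (hpq : p ≠ q) {z : ℂ} (hz : ‖p - q‖ < N p q z) :
    HasDerivAt (Z p q) (J1 p q (Z p q z))⁻¹ z := by
  have h1 : 1 < ‖Z p q z‖ := (one_lt_Z hpq).1 hz
  have h0 := Z_ne hpq z
  have hJ1 : J1 p q (Z p q z) ≠ 0 := J1_ne hpq h1
  have han : AnalyticAt ℂ (J p q) (Z p q z) := by
    unfold J
    have h2 : AnalyticAt ℂ (fun ζ : ℂ => ζ⁻¹) (Z p q z) := analyticAt_id.inv h0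
    exact analyticAt_const.add (analyticAt_const.mul (analyticAt_id.add h2))
  have hs : HasStrictDerivAt (J p q) (J1 p q (Z p q z)) (Z p q z) := by
    have h2 := han.hasStrictDerivAt
    rwa [(J_hasDerivAt p q h0).deriv] at h2
  have hl := hs.to_localInverse hJ1
  rw [(Z_spec hpq z).2] at hl
  set ψ := hs.localInverse (J p q) (J1 p q (Z p q z)) (Z p q z) hJ1 with hψ
  have hr : ∀ᶠ y in 𝓝 z, J p q (ψ y) = y := by
    have h3 := hs.eventually_right_inverse hJ1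
    rw [(Z_spec hpq z).2] at h3
    exact h3
  have hψz : ψ z = Z p q z := by
    have h3 := (hs.hasStrictFDerivAt_equiv hJ1).localInverse_apply_image
    rw [(Z_spec hpq z).2] at h3
    exact h3
  have hc : ContinuousAt ψ z := hl.hasDerivAt.continuousAt
  have hn : ∀ᶠ y in 𝓝 z, 1 < ‖ψ y‖ := by
    have h4 : ContinuousAt (fun y => ‖ψ y‖) z := hc.norm
    exact h4.eventually (lt_mem_nhds (show 1 < ‖ψ z‖ by rw [hψz]; exact h1))
  have he : Z p q =ᶠ[𝓝 z] ψ := by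
    filter_upwards [hr, hn] with y h3 h4
    rw [← Z_J hpq h4, h3]
  exact hl.hasDerivAt.congr_of_eventuallyEq he

/-- the set off the focal segment -/
theorem isOpen_off (p q : ℂ) : IsOpen {z : ℂ | ‖p - q‖ < N p q z} :=
  isOpen_lt continuous_const (N_continuous p q)

theorem Z_contDiffAt {p q : ℂ} (hpq : p ≠ q) {z : ℂ} (hz : ‖p - q‖ < N p q z) :
    ContDiffAt ℝ ∞ (Z p q) z := by
  have h1 : DifferentiableOn ℂ (Z p q) {z : ℂ | ‖p - q‖ < N p q z} := fun y hy =>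
    (Z_hasDerivAt hpq hy).differentiableAt.differentiableWithinAt
  have h2 : AnalyticAt ℂ (Z p q) z := h1.analyticAt ((isOpen_off p q).mem_nhds hz)
  exact (h2.contDiffAt (n := ∞)).restrict_scalars ℝ

/-- every level above the focal distance comes from a radius -/
theorem rho_exists {d s : ℝ} (hd : 0 < d) (hs : d < s) :
    ∃ ρ : ℝ, 1 < ρ ∧ d / 2 * (ρ + ρ⁻¹) = s ∧ d / 2 * (ρ ^ 2 + (ρ ^ 2)⁻¹) = 2 * s ^ 2 / d - d := by
  have hs0 : 0 < s := hd.trans hs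
  have h1 : 0 < s ^ 2 - d ^ 2 := by nlinarith
  set t := Real.sqrt (s ^ 2 - d ^ 2) with ht
  have ht0 : 0 < t := Real.sqrt_pos.2 h1
  have ht2 : t ^ 2 = s ^ 2 - d ^ 2 := Real.sq_sqrt h1.le
  have hinv : ((s + t) / d)⁻¹ = (s - t) / d := by
    rw [inv_div, div_eq_div_iff (by positivity) hd.ne']
    nlinarith
  have hρ : d / 2 * ((s + t) / d + ((s + t) / d)⁻¹) = s := by
    rw [hinv]; field_simp; ring
  refine ⟨(s + t) / d, ?_, hρ, ?_⟩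
  · rw [lt_div_iff₀ hd]; linarith
  · set ρ := (s + t) / d with hρd
    have hρ0 : ρ ≠ 0 := by
      rw [hρd]; positivity
    have h2 : ρ ^ 2 + (ρ ^ 2)⁻¹ = (ρ + ρ⁻¹) ^ 2 - 2 := by
      field_simp; ring
    have h3 : ρ + ρ⁻¹ = 2 * s / d := by
      field_simp at hρ ⊢
      linarith
    rw [h2, h3]
    field_simp

end Pool.Agent.H385E
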