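import Pool.Agent.H385E.Ann
import Pool.Agent.H385E.Jou

/-!
The weak equation near an ellipse in Joukowski coordinates.
-/

open Complex Metric Set Filter Topology ComplexConjugate MeasureTheory
open scoped ContDiff ENNReal

namespace Pool.Agent.H385E

open Pool.Agent.H385

/-! ### holomorphic representatives -/

theorem loc_int {Ω : Set ℂ} {G : ℂ → ℂ} (hG : MemLp G 2 (volume.restrict Ω))
    {U : Set ℂ} (hU : U ⊆ Ω) : LocallyIntegrableOn (fun z => conj (G z)) U := by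
  have hGL := conj_memLp hG
  have h2 : LocallyIntegrable (fun z => conj (G z)) (volume.restrict Ω) :=
    hGL.locallyIntegrable (by norm_num)
  have h1 : LocallyIntegrableOn (fun z => conj (G z)) Ω :=
    locallyIntegrableOn_of_locallyIntegrable_restrict h2
  exact h1.mono_set hU

theorem hol_int {Ω : Set ℂ} (hΩ : IsOpen Ω) {k : ℝ} (hk : 0 < k) {D : Set ℂ} (hD : D ⊆ Ω)
    (hDo : IsOpen D) {g u : ℂ → ℝ} {G : ℂ → ℂ} (h : IsSolution Ω k D g u G) :
    ∃ b : ℂ → ℂ, DifferentiableOn ℂ b D ∧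
      ∀ᵐ z ∂(volume.restrict D), conj (G z) = b z := by
  apply weyl_global D hDo (fun z => conj (G z)) (loc_int h.memLp_grad hD)
  intro φ hφ
  have hφΩ : IsTest Ω φ := hφ.mono hD
  have h1 := sol_re hD hDo.measurableSet h (hφ.mono (subset_univ _))
  rw [bd_zero hΩ hφΩ, setInt_eq hφ hD, setInt_eq hφ subset_rfl] at h1
  have h2 := curl_zero h.weakGrad h.memLp_grad hφΩ
  rw [setInt_eq hφ hD] at h2
  have h3 : k * (∫ z, conj (G z) * grad φ z).re = 0 := by linarith
  have h4 : (∫ z, conj (G z) * grad φ z).re = 0 := by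
    rcases mul_eq_zero.1 h3 with h5 | h5
    · exact absurd h5 hk.ne'
    · exact h5
  exact Complex.ext h4 h2

theorem hol_ext {Ω : Set ℂ} (hΩ : IsOpen Ω) {k : ℝ} {D : Set ℂ} (hD : D ⊆ Ω)
    (hDo : IsOpen D) {g u : ℂ → ℝ} {G : ℂ → ℂ} (h : IsSolution Ω k D g u G)
    {U : Set ℂ} (hU : IsOpen U) (hUΩ : U ⊆ Ω) (hUD : Disjoint U D) :
    ∃ b : ℂ → ℂ, DifferentiableOn ℂ b U ∧
      ∀ᵐ z ∂(volume.restrict U), conj (G z) = b z := by
  apply weyl_global U hU (fun z => conj (G z)) (loc_int h.memLp_grad hUΩ)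
  intro φ hφ
  have hφΩ : IsTest Ω φ := hφ.mono hUΩ
  have h1 := sol_re hD hDo.measurableSet h (hφ.mono (subset_univ _))
  have h0 : ∫ z in D, conj (G z) * grad φ z = 0 := by
    apply setIntegral_eq_zero_of_forall_eq_zero
    intro z hz
    rw [grad_zero (fun h2 => Set.disjoint_right.1 hUD hz (hφ.2.2 h2)), mul_zero]
  rw [bd_zero hΩ hφΩ, setInt_eq hφ hUΩ, h0] at h1
  have h2 := curl_zero h.weakGrad h.memLp_grad hφΩ
  rw [setInt_eq hφ hUΩ] at h2
  refine Complex.ext ?_ h2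
  simpa using h1

/-! ### change of variables -/

theorem det_mul (c : ℂ) :
    |((ContinuousLinearMap.toSpanSingleton ℂ c).restrictScalars ℝ).det| = ‖c‖ ^ 2 := by
  have h1 : ((ContinuousLinearMap.toSpanSingleton ℂ c).restrictScalars ℝ).det =
      LinearMap.det ((((ContinuousLinearMap.toSpanSingleton ℂ c).restrictScalars ℝ :
        ℂ →L[ℝ] ℂ) : ℂ →ₗ[ℝ] ℂ)) := rfl
  have h2 : ((((ContinuousLinearMap.toSpanSingleton ℂ c).restrictScalars ℝ :
        ℂ →L[ℝ] ℂ) : ℂ →ₗ[ℝ] ℂ)) = Algebra.lmul ℝ ℂ c := by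
    ext v
    simp [mul_comm]
  rw [h1, h2, ← Algebra.norm_apply, Algebra.norm_complex_apply, Complex.normSq_eq_norm_sq,
    abs_of_nonneg (by positivity)]

theorem J_fderiv (p q : ℂ) {ζ : ℂ} (h : ζ ≠ 0) :
    HasFDerivAt (J p q) ((ContinuousLinearMap.toSpanSingleton ℂ (J1 p q ζ)).restrictScalars ℝ) ζ :=
  ((J_hasDerivAt p q h).hasFDerivAt).restrictScalars ℝ

theorem J_injOn {p q : ℂ} (hpq : p ≠ q) : InjOn (J p q) {ζ : ℂ | 1 < ‖ζ‖} :=
  fun _ hx _ hy h => J_inj hpq hx (le_of_lt hy) h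

theorem J_integral {F : Type*} [NormedAddCommGroup F] [NormedSpace ℝ F] {p q : ℂ} (hpq : p ≠ q)
    {A : Set ℂ} (hA : MeasurableSet A) (hA1 : A ⊆ {ζ : ℂ | 1 < ‖ζ‖}) (g : ℂ → F) :
    ∫ z in J p q '' A, g z = ∫ ζ in A, (‖J1 p q ζ‖ ^ 2) • g (J p q ζ) := by
  rw [integral_image_eq_integral_abs_det_fderiv_smul volume hA
    (fun w hw => (J_fderiv p q (by
      rintro rfl
      have := hA1 hw
      simp at this
      linarith)).hasFDerivWithinAt) ((J_injOn hpq).mono hA1) g]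
  simp only [det_mul]

theorem J_integrableOn {F : Type*} [NormedAddCommGroup F] [NormedSpace ℝ F] {p q : ℂ}
    (hpq : p ≠ q) {A : Set ℂ} (hA : MeasurableSet A) (hA1 : A ⊆ {ζ : ℂ | 1 < ‖ζ‖}) (g : ℂ → F) :
    IntegrableOn g (J p q '' A) ↔ IntegrableOn (fun ζ => (‖J1 p q ζ‖ ^ 2) • g (J p q ζ)) A := by
  have h := integrableOn_image_iff_integrableOn_abs_det_fderiv_smul volume hA
    (fun w hw => (J_fderiv p q (by
      rintro rfl
      have := hA1 hw
      simp at this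
      linarith)).hasFDerivWithinAt) ((J_injOn hpq).mono hA1) g
  simp only [det_mul] at h
  exact h

theorem grad_comp {F : ℂ → ℂ} {c ζ : ℂ} (hF : HasDerivAt F c ζ) {φ : ℂ → ℝ}
    (hφ : DifferentiableAt ℝ φ (F ζ)) :
    grad (fun z => φ (F z)) ζ = conj c * grad φ (F ζ) := by
  have h1 : HasFDerivAt φ (fderiv ℝ φ (F ζ)) (F ζ) := hφ.hasFDerivAt
  have h2 := (h1.comp ζ ((hF.hasFDerivAt).restrictScalars ℝ)).fderiv
  have h3 : (φ ∘ F) = fun z => φ (F z) := rfl
  rw [h3] at h2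
  unfold grad
  rw [h2]
  set L := fderiv ℝ φ (F ζ)
  simp only [ContinuousLinearMap.comp_apply, ContinuousLinearMap.coe_restrictScalars',
    ContinuousLinearMap.toSpanSingleton_apply, smul_eq_mul]
  rw [disk_grad_real L (1 * c), disk_grad_real L (Complex.I * c)]
  set G : ℂ := (L 1 : ℂ) + Complex.I * (L Complex.I : ℂ)
  apply Complex.ext
  · simp
    ring
  · simp
    ring

/-! ### pushing test functions forward -/

theorem push_test {p q : ℂ} (hpq : p ≠ q) {r : ℝ} {φ : ℂ → ℝ} (hφ : IsTest (An 1 r) φ) :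
    IsTest (J p q '' An 1 r) (fun z => φ (Z p q z)) := by
  have hc : ContinuousOn (J p q) (tsupport φ) := by
    intro z hz
    have h1 : z ≠ 0 := An_ne zero_le_one (hφ.2.2 hz)
    exact (J_hasDerivAt p q h1).continuousAt.continuousWithinAt
  have hK : IsCompact (J p q '' tsupport φ) := hφ.2.1.isCompact.image_of_continuousOn hc
  have hsub : Function.support (fun z => φ (Z p q z)) ⊆ J p q '' tsupport φ := by
    intro z hz
    exact ⟨Z p q z, subset_tsupport φ hz, (Z_spec hpq z).2⟩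
  have hts : tsupport (fun z => φ (Z p q z)) ⊆ J p q '' tsupport φ :=
    closure_minimal hsub hK.isClosed
  refine ⟨?_, hK.of_isClosed_subset (isClosed_tsupport _) hts,
    hts.trans (image_mono hφ.2.2)⟩
  rw [contDiff_iff_contDiffAt]
  intro z
  by_cases hz : z ∈ J p q '' tsupport φ
  · obtain ⟨ζ, hζ, rfl⟩ := hz
    have h1 : 1 < ‖ζ‖ := (hφ.2.2 hζ).1
    have h2 : ‖p - q‖ < N p q (J p q ζ) := by
      rw [one_lt_Z hpq, Z_J hpq h1]; exact h1
    exact hφ.1.contDiffAt.comp _ (Z_contDiffAt hpq h2)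
  · refine ContDiffAt.congr_of_eventuallyEq (f := fun _ => (0 : ℝ)) contDiffAt_const ?_
    filter_upwards [hK.isClosed.isOpen_compl.mem_nhds hz] with y hy
    by_contra h
    exact hy (hsub h)

theorem push_grad {p q : ℂ} (hpq : p ≠ q) {φ : ℂ → ℝ} (hφ : ContDiff ℝ ∞ (fun z => φ (Z p q z)))
    {ζ : ℂ} (hζ : 1 < ‖ζ‖) :
    grad φ ζ = conj (J1 p q ζ) * grad (fun z => φ (Z p q z)) (J p q ζ) := by
  have h0 : ζ ≠ 0 := by rintro rfl; simp at hζ; linarith
  rw [← grad_comp (J_hasDerivAt p q h0) ((hφ.differentiable (by simp)) _)]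
  apply disk_grad_congr
  have h1 : ∀ᶠ y in 𝓝 ζ, 1 < ‖y‖ := continuous_norm.continuousAt.eventually (lt_mem_nhds hζ)
  filter_upwards [h1] with y hy
  rw [Z_J hpq hy]

theorem pull_int {p q : ℂ} (hpq : p ≠ q) {r s : ℝ} (hr : 1 ≤ r) {h : ℂ → ℂ} {φ : ℂ → ℝ}
    (hφ : ContDiff ℝ ∞ (fun z => φ (Z p q z))) :
    ∫ ζ in An r s, (h (J p q ζ) * J1 p q ζ) * grad φ ζ =
      ∫ z in J p q '' An r s, h z * grad (fun z => φ (Z p q z)) z := by
  have h1 : An r s ⊆ {ζ : ℂ | 1 < ‖ζ‖} := fun z hz => lt_of_le_of_lt hr hz.1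
  rw [J_integral hpq (An_meas _ _) h1]
  refine setIntegral_congr_fun (An_meas _ _) fun ζ hζ => ?_
  rw [push_grad hpq hφ (h1 hζ), Complex.real_smul]
  have h2 : ((‖J1 p q ζ‖ ^ 2 : ℝ) : ℂ) = J1 p q ζ * conj (J1 p q ζ) := by
    rw [Complex.mul_conj, Complex.normSq_eq_norm_sq]
  rw [h2]
  ring

theorem pull_memLp {p q : ℂ} (hpq : p ≠ q) {r s : ℝ} (hr : 1 ≤ r) {h : ℂ → ℂ}
    (hd : DifferentiableOn ℂ h (J p q '' An r s))
    (h2 : MemLp h 2 (volume.restrict (J p q '' An r s))) :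
    MemLp (fun ζ => h (J p q ζ) * J1 p q ζ) 2 (volume.restrict (An r s)) := by
  have h1 : An r s ⊆ {ζ : ℂ | 1 < ‖ζ‖} := fun z hz => lt_of_le_of_lt hr hz.1
  have h0 : ∀ ζ ∈ An r s, ζ ≠ 0 := fun ζ hζ => An_ne (by linarith) hζ
  have hc : ContinuousOn (fun ζ => h (J p q ζ) * J1 p q ζ) (An r s) := by
    apply ContinuousOn.mul
    · apply hd.continuousOn.comp
      · intro ζ hζ
        exact (J_hasDerivAt p q (h0 ζ hζ)).continuousAt.continuousWithinAt
      · intro ζ hζ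
        exact ⟨ζ, hζ, rfl⟩
    · unfold J1
      apply ContinuousOn.mul continuousOn_const
      apply ContinuousOn.sub continuousOn_const
      apply ContinuousOn.inv₀ (by fun_prop)
      intro ζ hζ
      exact pow_ne_zero 2 (h0 ζ hζ)
  have hm := hc.aestronglyMeasurable (μ := volume) (An_meas r s)
  rw [memLp_two_iff_integrable_sq_norm hm]
  have h3 := (J_integrableOn hpq (An_meas r s) h1 (fun z => ‖h z‖ ^ 2)).1
    ((memLp_two_iff_integrable_sq_norm h2.1).1 h2)
  refine h3.congr (Eventually.of_forall fun ζ => ?_)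
  simp only [smul_eq_mul, norm_mul]
  ring

/-! ### geometry of levels -/

/-- level of the function `N` belonging to the radius `r` -/
noncomputable def lev (p q : ℂ) (r : ℝ) : ℝ := ‖p - q‖ / 2 * (r + r⁻¹)

theorem image_An {p q : ℂ} (hpq : p ≠ q) {r s : ℝ} (hr : 1 ≤ r) (hs : 1 ≤ s) :
    J p q '' An r s = {z | lev p q r < N p q z ∧ N p q z < lev p q s} := by
  ext z
  constructor
  · rintro ⟨ζ, hζ, rfl⟩
    exact ⟨lt_N_J hpq hr hζ.1, N_J_lt hpq (hr.trans hζ.1.le) hζ.2⟩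
  · rintro ⟨h1, h2⟩
    refine ⟨Z p q z, ⟨?_, (N_lt_iff hpq hs z).1 h2⟩, (Z_spec hpq z).2⟩
    by_contra hc
    rw [not_lt] at hc
    exact absurd ((N_le_iff hpq hr z).2 hc) (not_le.2 h1)

theorem lev_one (p q : ℂ) : lev p q 1 = ‖p - q‖ := by
  unfold lev; rw [inv_one]; ring

theorem lev_lt {p q : ℂ} (hpq : p ≠ q) {r s : ℝ} (hr : 1 ≤ r) (hs : 1 ≤ s) :
    lev p q r < lev p q s ↔ r < s := by
  have hf : 0 < ‖p - q‖ / 2 := by have := norm_pos_iff.2 (sub_ne_zero.2 hpq); positivity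
  unfold lev
  rw [mul_lt_mul_iff_right₀ hf, t_lt hr hs]

/-- the level curves are null sets -/
theorem level_null {p q : ℂ} (hpq : p ≠ q) {r : ℝ} (hr : 1 ≤ r) :
    volume {z : ℂ | N p q z = lev p q r} = 0 := by
  have hr0 : 0 < r := by linarith
  have h1 : {z : ℂ | N p q z = lev p q r} ⊆ J p q '' sphere 0 r := by
    intro z hz
    refine ⟨Z p q z, ?_, (Z_spec hpq z).2⟩
    rw [mem_sphere, dist_zero_right]
    apply le_antisymm
    · exact (N_le_iff hpq hr z).1 (le_of_eq hz)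
    · by_contra hc
      rw [not_le] at hc
      have := (N_lt_iff hpq hr z).2 hc
      exact absurd hz this.ne
  refine measure_mono_null h1 ?_
  apply addHaar_image_eq_zero_of_differentiableOn_of_addHaar_eq_zero
  · intro ζ hζ
    have h0 : ζ ≠ 0 := by
      rintro rfl
      rw [mem_sphere, dist_self] at hζ
      linarith
    exact (J_fderiv p q h0).differentiableAt.differentiableWithinAt
  · exact Measure.addHaar_sphere_of_ne_zero volume 0 hr0.ne'

/-- the data near an ellipse -/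
theorem pull_data {Ω : Set ℂ} (hΩ : IsOpen Ω) {k : ℝ} (hk : 0 < k) {p q : ℂ} (hpq : p ≠ q)
    {ρ : ℝ} (hρ : 1 < ρ) (hsub : {z | N p q z < lev p q (ρ ^ 2)} ⊆ Ω)
    {g u : ℂ → ℝ} {G : ℂ → ℂ} (h : IsSolution Ω k {z | N p q z < lev p q ρ} g u G) :
    ∃ b₀ b w : ℂ → ℂ, DifferentiableOn ℂ b₀ (Ω ∩ {z | lev p q ρ < N p q z}) ∧
      (∀ᵐ z ∂(volume.restrict (Ω ∩ {z | lev p q ρ < N p q z})), conj (G z) = b₀ z) ∧
      DifferentiableOn ℂ b {z | N p q z < lev p q ρ} ∧
      (∀ᵐ z ∂(volume.restrict {z | N p q z < lev p q ρ}), conj (G z) = b z) ∧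
      DifferentiableOn ℂ w (An 1 (ρ ^ 2)) ∧
      (∀ ζ ∈ An ρ (ρ ^ 2), w ζ = b₀ (J p q ζ) * J1 p q ζ) ∧
      ∀ ζ ∈ An 1 ρ, w ζ = 2 * (k : ℂ) / (1 + k) * (b (J p q ζ) * J1 p q ζ) -
        (1 - (k : ℂ)) / (1 + k) * Phi 0 ρ (fun ζ => b₀ (J p q ζ) * J1 p q ζ) ζ := by
  have hρ2 : ρ < ρ ^ 2 := by nlinarith
  have hEo : IsOpen {z | N p q z < lev p q ρ} := isOpen_lt (N_continuous p q) continuous_const
  have hlt : lev p q ρ < lev p q (ρ ^ 2) := (lev_lt hpq hρ.le (by nlinarith)).2 hρ2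
  have hEΩ : {z | N p q z < lev p q ρ} ⊆ Ω := fun z hz => hsub (lt_trans hz hlt)
  have hUo : IsOpen (Ω ∩ {z | lev p q ρ < N p q z}) :=
    hΩ.inter (isOpen_lt continuous_const (N_continuous p q))
  have hUD : Disjoint (Ω ∩ {z | lev p q ρ < N p q z}) {z | N p q z < lev p q ρ} := by
    rw [Set.disjoint_left]
    rintro z ⟨_, h1⟩ h2
    have h1' : lev p q ρ < N p q z := h1
    have h2' : N p q z < lev p q ρ := h2
    exact lt_asymm h1' h2'
  obtain ⟨b, hb, hbG⟩ := hol_int hΩ hk hEΩ hEo h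
  obtain ⟨b₀, hb₀, hb₀G⟩ := hol_ext hΩ hEΩ hEo h hUo inter_subset_left hUD
  have himo : J p q '' An ρ (ρ ^ 2) ⊆ Ω ∩ {z | lev p q ρ < N p q z} := by
    rw [image_An hpq hρ.le (by nlinarith)]
    rintro z ⟨h1, h2⟩
    exact ⟨hsub h2, h1⟩
  have himi : J p q '' An 1 ρ ⊆ {z | N p q z < lev p q ρ} := by
    rw [image_An hpq le_rfl hρ.le]
    rintro z ⟨_, h2⟩
    exact h2
  have hGL := conj_memLp h.memLp_grad
  have hb₀L : MemLp b₀ 2 (volume.restrict (Ω ∩ {z | lev p q ρ < N p q z})) :=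
    (hGL.mono_measure (Measure.restrict_mono inter_subset_left le_rfl)).ae_eq hb₀G
  have hbL : MemLp b 2 (volume.restrict {z | N p q z < lev p q ρ}) :=
    (hGL.mono_measure (Measure.restrict_mono hEΩ le_rfl)).ae_eq hbG
  have hβ2 := pull_memLp hpq hρ.le (hb₀.mono himo)
    (hb₀L.mono_measure (Measure.restrict_mono himo le_rfl))
  have hin2 := pull_memLp hpq le_rfl (hb.mono himi)
    (hbL.mono_measure (Measure.restrict_mono himi le_rfl))
  have hJd : ∀ ζ : ℂ, ζ ≠ 0 → DifferentiableAt ℂ (J p q) ζ := fun ζ h0 =>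
    (J_hasDerivAt p q h0).differentiableAt
  have hJ1d : ∀ ζ : ℂ, ζ ≠ 0 → DifferentiableAt ℂ (J1 p q) ζ := by
    intro ζ h0
    unfold J1
    exact (differentiableAt_const _).mul ((differentiableAt_const _).sub
      ((differentiableAt_id.pow 2).inv (pow_ne_zero 2 h0)))
  have hβd : DifferentiableOn ℂ (fun ζ => b₀ (J p q ζ) * J1 p q ζ) (An ρ (ρ ^ 2)) := by
    intro ζ hζ
    have h0 : ζ ≠ 0 := An_ne (by linarith) hζ
    have h1 : DifferentiableAt ℂ b₀ (J p q ζ) :=
      hb₀.differentiableAt (hUo.mem_nhds (himo ⟨ζ, hζ, rfl⟩))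
    exact ((h1.comp ζ (hJd ζ h0)).mul (hJ1d ζ h0)).differentiableWithinAt
  have hbd : DifferentiableOn ℂ (fun ζ => b (J p q ζ) * J1 p q ζ) (An 1 ρ) := by
    intro ζ hζ
    have h0 : ζ ≠ 0 := An_ne zero_le_one hζ
    have h1 : DifferentiableAt ℂ b (J p q ζ) :=
      hb.differentiableAt (hEo.mem_nhds (himi ⟨ζ, hζ, rfl⟩))
    exact ((h1.comp ζ (hJd ζ h0)).mul (hJ1d ζ h0)).differentiableWithinAt
  -- the weak equations in Joukowski coordinates
  have key : ∀ φ : ℂ → ℝ, IsTest (An 1 (ρ ^ 2)) φ →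
      (∫ z in An ρ (ρ ^ 2), b₀ (J p q z) * J1 p q z * grad φ z).re +
        k * (∫ z in An 1 ρ, b (J p q z) * J1 p q z * grad φ z).re = 0 ∧
      (∫ z in An ρ (ρ ^ 2), b₀ (J p q z) * J1 p q z * grad φ z).im +
        (∫ z in An 1 ρ, b (J p q z) * J1 p q z * grad φ z).im = 0 := by
    intro φ hφ
    have hψ := push_test hpq hφ
    set ψ : ℂ → ℝ := fun z => φ (Z p q z) with hψd
    have hJΩ : J p q '' An 1 (ρ ^ 2) ⊆ Ω := by
      rw [image_An hpq le_rfl (by nlinarith)]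
      rintro z ⟨_, h2⟩
      exact hsub h2
    have hψΩ : IsTest Ω ψ := hψ.mono hJΩ
    have hψu : IsTest univ ψ := hψ.mono (subset_univ _)
    rw [pull_int hpq hρ.le hψ.1, pull_int hpq le_rfl hψ.1]
    have e1 : ∫ z in J p q '' An ρ (ρ ^ 2), b₀ z * grad ψ z =
        ∫ z in J p q '' An ρ (ρ ^ 2), conj (G z) * grad ψ z := by
      apply integral_congr_ae
      filter_upwards [ae_restrict_of_ae_restrict_of_subset himo hb₀G] with z hz
      rw [hz]
    have e2 : ∫ z in J p q '' An 1 ρ, b z * grad ψ z =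
        ∫ z in J p q '' An 1 ρ, conj (G z) * grad ψ z := by
      apply integral_congr_ae
      filter_upwards [ae_restrict_of_ae_restrict_of_subset himi hbG] with z hz
      rw [hz]
    have hI : Integrable (fun z => conj (G z) * grad ψ z) (volume.restrict Ω) :=
      mul_grad_integrable hψΩ hGL
    -- integral over `Ω`
    have hmo : MeasurableSet (J p q '' An ρ (ρ ^ 2)) := by
      rw [image_An hpq hρ.le (by nlinarith)]
      exact ((isOpen_lt continuous_const (N_continuous p q)).inter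
        (isOpen_lt (N_continuous p q) continuous_const)).measurableSet
    have hmi : MeasurableSet (J p q '' An 1 ρ) := by
      rw [image_An hpq le_rfl hρ.le]
      exact ((isOpen_lt continuous_const (N_continuous p q)).inter
        (isOpen_lt (N_continuous p q) continuous_const)).measurableSet
    have hdis : Disjoint (J p q '' An ρ (ρ ^ 2)) (J p q '' An 1 ρ) := by
      rw [image_An hpq hρ.le (by nlinarith), image_An hpq le_rfl hρ.le, Set.disjoint_left]
      rintro z ⟨h1, _⟩ ⟨_, h2⟩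
      exact lt_asymm h1 h2
    have hnull1 : ∀ᵐ z : ℂ, N p q z ≠ lev p q ρ := by
      rw [ae_iff]
      simpa using level_null hpq hρ.le
    have hnull2 : ∀ᵐ z : ℂ, N p q z ≠ lev p q 1 := by
      rw [ae_iff]
      simpa using level_null hpq (le_refl (1 : ℝ))
    have e3 : ∫ z in Ω, conj (G z) * grad ψ z =
        (∫ z in J p q '' An ρ (ρ ^ 2), conj (G z) * grad ψ z) +
          ∫ z in J p q '' An 1 ρ, conj (G z) * grad ψ z := by
      rw [← setIntegral_union hdis hmi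
        (hI.mono_measure (Measure.restrict_mono (himo.trans inter_subset_left) le_rfl))
        (hI.mono_measure (Measure.restrict_mono (himi.trans hEΩ) le_rfl))]
      have h5 : ∫ z in J p q '' An 1 (ρ ^ 2), conj (G z) * grad ψ z =
          ∫ z in Ω, conj (G z) * grad ψ z := by
        rw [setInt_eq hψ subset_rfl, setInt_eq hψ hJΩ]
      rw [← h5]
      apply setIntegral_congr_set
      filter_upwards [hnull1, hnull2] with z h6 h7
      apply propext
      rw [image_An hpq hρ.le (by nlinarith), image_An hpq le_rfl hρ.le,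
        image_An hpq le_rfl (by nlinarith)]
      constructor
      · rintro ⟨h8, h9⟩
        rcases lt_trichotomy (N p q z) (lev p q ρ) with h10 | h10 | h10
        · exact Or.inr ⟨h8, h10⟩
        · exact absurd h10 h6
        · exact Or.inl ⟨h10, h9⟩
      · rintro (⟨h8, h9⟩ | ⟨h8, h9⟩)
        · exact ⟨lt_trans ((lev_lt hpq le_rfl hρ.le).2 hρ) h8, h9⟩
        · exact ⟨h8, lt_trans h9 hlt⟩
    have e4 : ∫ z in {z | N p q z < lev p q ρ}, conj (G z) * grad ψ z =
        ∫ z in J p q '' An 1 ρ, conj (G z) * grad ψ z := by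
      have h5 : ∫ z in {z | N p q z < lev p q ρ}, conj (G z) * grad ψ z =
          ∫ z in {z | lev p q 1 ≤ N p q z ∧ N p q z < lev p q ρ}, conj (G z) * grad ψ z := by
        congr 2
        ext z
        simp only [mem_ofPred_eq]
        constructor
        · intro h6
          refine ⟨?_, h6⟩
          rw [lev_one]
          unfold N
          have := norm_sub_le (z - q) (z - p)
          rw [show z - q - (z - p) = p - q by ring] at this
          linarith
        · rintro ⟨_, h6⟩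
          exact h6
      rw [h5]
      apply setIntegral_congr_set
      filter_upwards [hnull2] with z h7
      apply propext
      rw [image_An hpq le_rfl hρ.le]
      constructor
      · rintro ⟨h8, h9⟩
        exact ⟨lt_of_le_of_ne h8 (Ne.symm h7), h9⟩
      · rintro ⟨h8, h9⟩
        exact ⟨h8.le, h9⟩
    have h1 := sol_re hEΩ hEo.measurableSet h hψu
    rw [bd_zero hΩ hψΩ, e3, e4, ← e1, ← e2] at h1
    have h2 := curl_zero h.weakGrad h.memLp_grad hψΩ
    rw [e3, ← e1, ← e2] at h2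
    rw [add_re] at h1
    rw [add_im] at h2
    exact ⟨by linarith, h2⟩
  obtain ⟨w, hw, hw1, hw2⟩ := weyl_ann hk hρ hβd hβ2 hbd hin2 (fun φ hφ => (key φ hφ).1)
    (fun φ hφ => (key φ hφ).2)
  exact ⟨b₀, b, w, hb₀, hb₀G, hb, hbG, hw, hw1, hw2⟩

end Pool.Agent.H385E
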