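import Pool.Agent.H385E.Pde
import Pool.Agent.H385E.Ana

/-!
The extension of the exterior field of an ellipse to the complement of the focal segment.
-/

open Complex Metric Set Filter Topology ComplexConjugate MeasureTheory
open scoped ContDiff ENNReal

namespace Pool.Agent.H385E

open Pool.Agent.H385

/-- field data near the ellipse with foci `p`, `q` and radius `ρ` -/
structure ESys (Ω : Set ℂ) (k : ℝ) (p q : ℂ) (ρ R : ℝ) (b₀ b W : ℂ → ℂ) : Prop where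
  hpq : p ≠ q
  one_lt : 1 < ρ
  hR : ρ ^ 2 < R
  hR3 : R ≤ ρ ^ 3
  sub : {z | N p q z < lev p q R} ⊆ Ω
  hb₀ : DifferentiableOn ℂ b₀ (Ω ∩ {z | lev p q ρ < N p q z})
  hb : DifferentiableOn ℂ b {z | N p q z < lev p q ρ}
  hW : DifferentiableOn ℂ W (An (ρ ^ 2 / R) R)
  W_out : ∀ ζ ∈ An ρ R, W ζ = b₀ (J p q ζ) * J1 p q ζ
  W_in : ∀ ζ ∈ An (ρ ^ 2 / R) ρ, W ζ = 2 * (k : ℂ) / (1 + k) * (b (J p q ζ) * J1 p q ζ) -
    (1 - (k : ℂ)) / (1 + k) * Phi 0 ρ W ζ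

theorem J1_differentiableAt (p q : ℂ) {ζ : ℂ} (h0 : ζ ≠ 0) : DifferentiableAt ℂ (J1 p q) ζ := by
  unfold J1
  exact (differentiableAt_const _).mul ((differentiableAt_const _).sub
    ((differentiableAt_id.pow 2).inv (pow_ne_zero 2 h0)))

theorem J_mem_E {p q : ℂ} (hpq : p ≠ q) {ρ : ℝ} (hρ : 1 < ρ) {ζ : ℂ} (h1 : ρ⁻¹ < ‖ζ‖)
    (h2 : ‖ζ‖ < ρ) : N p q (J p q ζ) < lev p q ρ := by
  have h0 : 0 < ‖ζ‖ := lt_trans (by positivity) h1
  rcases le_or_gt 1 ‖ζ‖ with h3 | h3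
  · exact N_J_lt hpq h3 h2
  · rw [← J_inv]
    apply N_J_lt hpq
    · rw [norm_inv]; exact (one_le_inv₀ h0).2 h3.le
    · rw [norm_inv, inv_lt_comm₀ h0 (by linarith)]; exact h1

theorem esys_exists {Ω : Set ℂ} (hΩ : IsOpen Ω) {k : ℝ} (hk : 0 < k) {p q : ℂ} (hpq : p ≠ q)
    {ρ R : ℝ} (hρ : 1 < ρ) (hR : ρ ^ 2 < R) (hR3 : R ≤ ρ ^ 3)
    (hsub : {z | N p q z < lev p q R} ⊆ Ω)
    {g u : ℂ → ℝ} {G : ℂ → ℂ} (h : IsSolution Ω k {z | N p q z < lev p q ρ} g u G) :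
    ∃ b₀ b W : ℂ → ℂ, ESys Ω k p q ρ R b₀ b W ∧
      (∀ᵐ z ∂(volume.restrict (Ω ∩ {z | lev p q ρ < N p q z})), conj (G z) = b₀ z) ∧
      (∀ᵐ z ∂(volume.restrict {z | N p q z < lev p q ρ}), conj (G z) = b z) := by
  have hρ0 : 0 < ρ := by linarith
  have hρ2 : ρ < ρ ^ 2 := by nlinarith
  have hR0 : 0 < R := by nlinarith
  have hlt : lev p q (ρ ^ 2) < lev p q R := (lev_lt hpq (by nlinarith) (by nlinarith)).2 hR
  have hsub2 : {z | N p q z < lev p q (ρ ^ 2)} ⊆ Ω := fun z hz => hsub (lt_trans hz hlt)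
  obtain ⟨b₀, b, w, hb₀, hb₀G, hb, hbG, hw, hw1, hw2⟩ := pull_data hΩ hk hpq hρ hsub2 h
  have hUo : IsOpen (Ω ∩ {z | lev p q ρ < N p q z}) :=
    hΩ.inter (isOpen_lt continuous_const (N_continuous p q))
  have hEo : IsOpen {z | N p q z < lev p q ρ} := isOpen_lt (N_continuous p q) continuous_const
  set r : ℝ := ρ ^ 2 / R with hr
  have hr0 : 0 < r := by positivity
  have hr1 : r < 1 := by rw [hr, div_lt_one hR0]; exact hR
  have hrρ : ρ⁻¹ ≤ r := by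
    rw [hr, le_div_iff₀ hR0, inv_mul_le_iff₀ hρ0]
    nlinarith
  set β : ℂ → ℂ := fun ζ => b₀ (J p q ζ) * J1 p q ζ with hβ
  set form : ℂ → ℂ := fun ζ => 2 * (k : ℂ) / (1 + k) * (b (J p q ζ) * J1 p q ζ) -
        (1 - (k : ℂ)) / (1 + k) * Phi 0 ρ β ζ with hform
  classical
  set W : ℂ → ℂ := fun ζ => if ζ ∈ An 1 (ρ ^ 2) then w ζ else if ‖ζ‖ ≤ 1 then form ζ else β ζ
    with hWd
  have hWmid : ∀ ζ ∈ An 1 (ρ ^ 2), W ζ = w ζ := fun ζ hζ => by simp only [hWd, if_pos hζ]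
  have hWout : ∀ ζ ∈ An ρ R, W ζ = β ζ := by
    intro ζ hζ
    by_cases h1 : ζ ∈ An 1 (ρ ^ 2)
    · rw [hWmid ζ h1, hw1 ζ ⟨hζ.1, h1.2⟩]
    · have h2 : ¬ ‖ζ‖ ≤ 1 := by
        rw [not_le]; linarith [hζ.1]
      simp only [hWd, if_neg h1, if_neg h2]
  have hWin : ∀ ζ ∈ An r ρ, W ζ = form ζ := by
    intro ζ hζ
    by_cases h1 : ζ ∈ An 1 (ρ ^ 2)
    · rw [hWmid ζ h1, hw2 ζ ⟨h1.1, hζ.2⟩]
    · have h2 : ‖ζ‖ ≤ 1 := by
        by_contra hc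
        rw [not_le] at hc
        exact h1 ⟨hc, by linarith [hζ.2]⟩
      simp only [hWd, if_neg h1, if_pos h2]
  have hβd : DifferentiableOn ℂ β (An ρ R) := by
    intro ζ hζ
    have h0 : ζ ≠ 0 := An_ne hρ0.le hζ
    have hm : J p q ζ ∈ Ω ∩ {z | lev p q ρ < N p q z} :=
      ⟨hsub (N_J_lt hpq (by linarith [hζ.1]) hζ.2), lt_N_J hpq hρ.le hζ.1⟩
    have h1 : DifferentiableAt ℂ b₀ (J p q ζ) := hb₀.differentiableAt (hUo.mem_nhds hm)
    exact ((h1.comp ζ (J_hasDerivAt p q h0).differentiableAt).mul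
      (J1_differentiableAt p q h0)).differentiableWithinAt
  have hcm : ∀ ζ ∈ An r ρ, cinv 0 ρ ζ ∈ An ρ R := by
    intro ζ hζ
    have h1 := cinv_An hρ0 hr0 hζ
    rwa [show ρ ^ 2 / ρ = ρ by field_simp, show ρ ^ 2 / r = R by rw [hr]; field_simp] at h1
  have hfd : DifferentiableOn ℂ form (An r ρ) := by
    intro ζ hζ
    have h0 : ζ ≠ 0 := An_ne hr0.le hζ
    have hm : J p q ζ ∈ {z | N p q z < lev p q ρ} :=
      J_mem_E hpq hρ (lt_of_le_of_lt hrρ hζ.1) hζ.2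
    have h1 : DifferentiableAt ℂ b (J p q ζ) := hb.differentiableAt (hEo.mem_nhds hm)
    have h2 : DifferentiableAt ℂ (fun ζ => b (J p q ζ) * J1 p q ζ) ζ :=
      (h1.comp ζ (J_hasDerivAt p q h0).differentiableAt).mul (J1_differentiableAt p q h0)
    have h3 : DifferentiableAt ℂ (Phi 0 ρ β) ζ :=
      Phi_diffAt h0 (hβd.differentiableAt ((An_open _ _).mem_nhds (hcm ζ hζ)))
    exact ((h2.const_mul _).sub (h3.const_mul _)).differentiableWithinAt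
  refine ⟨b₀, b, W, ⟨hpq, hρ, hR, hR3, hsub, hb₀, hb, ?_, hWout, ?_⟩, hb₀G, hbG⟩
  · intro ζ hζ
    apply DifferentiableAt.differentiableWithinAt
    rcases lt_trichotomy ‖ζ‖ ρ with h1 | h1 | h1
    · have hm : ζ ∈ An r ρ := ⟨hζ.1, h1⟩
      exact (hfd.differentiableAt ((An_open _ _).mem_nhds hm)).congr_of_eventuallyEq
        (Filter.eventuallyEq_of_mem ((An_open _ _).mem_nhds hm) hWin)
    · have hm : ζ ∈ An 1 (ρ ^ 2) := ⟨by linarith, by linarith⟩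
      exact (hw.differentiableAt ((An_open _ _).mem_nhds hm)).congr_of_eventuallyEq
        (Filter.eventuallyEq_of_mem ((An_open _ _).mem_nhds hm) hWmid)
    · have hm : ζ ∈ An ρ R := ⟨h1, hζ.2⟩
      exact (hβd.differentiableAt ((An_open _ _).mem_nhds hm)).congr_of_eventuallyEq
        (Filter.eventuallyEq_of_mem ((An_open _ _).mem_nhds hm) hWout)
  · intro ζ hζ
    rw [hWin ζ hζ]
    simp only [hform]
    congr 2
    unfold Phi
    rw [hWout _ (hcm ζ hζ)]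

variable {Ω : Set ℂ} {k : ℝ} {p q : ℂ} {ρ R : ℝ} {b₀ b W : ℂ → ℂ}

/-- the oddness relation -/
theorem ESys.odd (h : ESys Ω k p q ρ R b₀ b W) (ζ : ℂ)
    (hζ : ζ ∈ An (ρ ^ 2 / R) (ρ ^ 2 / R)⁻¹) :
    ζ * W ζ + (((1 - k) / (1 + k) : ℝ) : ℂ) * conj (cinv 0 ρ ζ * W (cinv 0 ρ ζ)) =
      -(ζ⁻¹ * W ζ⁻¹ + (((1 - k) / (1 + k) : ℝ) : ℂ) *
        conj (cinv 0 ρ ζ⁻¹ * W (cinv 0 ρ ζ⁻¹))) := by
  have hρ0 : 0 < ρ := by linarith [h.one_lt]
  have hR0 : 0 < R := by nlinarith [h.hR]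
  have hr0 : 0 < ρ ^ 2 / R := by positivity
  have hrρ : (ρ ^ 2 / R)⁻¹ ≤ ρ := by
    rw [inv_div, div_le_iff₀ (by positivity)]
    calc R ≤ ρ ^ 3 := h.hR3
      _ = ρ * ρ ^ 2 := by ring
  have key : ∀ ζ ∈ An (ρ ^ 2 / R) (ρ ^ 2 / R)⁻¹,
      ζ * W ζ + (((1 - k) / (1 + k) : ℝ) : ℂ) * conj (cinv 0 ρ ζ * W (cinv 0 ρ ζ)) =
        ζ * (2 * (k : ℂ) / (1 + k) * (b (J p q ζ) * J1 p q ζ)) := by
    intro ζ hζ
    have h0 : ζ ≠ 0 := An_ne hr0.le hζ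
    rw [h.W_in ζ ⟨hζ.1, lt_of_lt_of_le hζ.2 hrρ⟩]
    have h1 : ζ * Phi 0 ρ W ζ = conj (cinv 0 ρ ζ * W (cinv 0 ρ ζ)) := by
      have h2 : conj (cinv 0 ρ ζ) = (ρ : ℂ) ^ 2 / ζ := by unfold cinv; simp
      rw [map_mul, h2]
      unfold Phi
      rw [sub_zero]
      field_simp
    rw [← h1]
    push_cast
    ring
  have h0 : ζ ≠ 0 := An_ne hr0.le hζ
  rw [key ζ hζ, key ζ⁻¹ (norm_inv_An hr0 hζ), J_inv, J1_inv p q h0]
  field_simp

open Classical in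
/-- the exterior field extended to the complement of the focal segment -/
noncomputable def eext (p q : ℂ) (ρ : ℝ) (b₀ W : ℂ → ℂ) (z : ℂ) : ℂ :=
  if N p q z ≤ lev p q ρ then W (Z p q z) / J1 p q (Z p q z) else b₀ z

theorem eext_out {z : ℂ} (hz : lev p q ρ < N p q z) : eext p q ρ b₀ W z = b₀ z := by
  unfold eext
  rw [if_neg (not_le.2 hz)]

theorem ESys.eext_in (h : ESys Ω k p q ρ R b₀ b W) {z : ℂ} (h1 : ‖p - q‖ < N p q z)
    (h2 : N p q z < lev p q R) : eext p q ρ b₀ W z = W (Z p q z) / J1 p q (Z p q z) := by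
  unfold eext
  split_ifs with h3
  · rfl
  · have hR1 : 1 ≤ R := by nlinarith [h.hR, h.one_lt]
    have hm : Z p q z ∈ An ρ R := by
      refine ⟨?_, (N_lt_iff h.hpq hR1 z).1 h2⟩
      by_contra hc
      rw [not_lt] at hc
      exact h3 ((N_le_iff h.hpq h.one_lt.le z).2 hc)
    have h4 : J1 p q (Z p q z) ≠ 0 := J1_ne h.hpq ((one_lt_Z h.hpq).1 h1)
    rw [h.W_out _ hm, (Z_spec h.hpq z).2]
    field_simp

theorem ESys.eext_J (h : ESys Ω k p q ρ R b₀ b W) {ζ : ℂ} (h1 : 1 < ‖ζ‖) (h2 : ‖ζ‖ < R) :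
    W ζ = eext p q ρ b₀ W (J p q ζ) * J1 p q ζ := by
  have h3 : ‖p - q‖ < N p q (J p q ζ) := by
    rw [one_lt_Z h.hpq, Z_J h.hpq h1]; exact h1
  rw [h.eext_in h3 (N_J_lt h.hpq h1.le h2), Z_J h.hpq h1]
  have h4 : J1 p q ζ ≠ 0 := J1_ne h.hpq h1
  field_simp

theorem ESys.eext_diff (hΩ : IsOpen Ω) (h : ESys Ω k p q ρ R b₀ b W) :
    DifferentiableOn ℂ (eext p q ρ b₀ W) (Ω ∩ {z | ‖p - q‖ < N p q z}) := by
  intro z hz
  apply DifferentiableAt.differentiableWithinAt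
  have hR1 : 1 ≤ R := by nlinarith [h.hR, h.one_lt]
  have hρR : lev p q ρ < lev p q R := by
    rw [lev_lt h.hpq h.one_lt.le hR1]; nlinarith [h.hR, h.one_lt]
  rcases lt_or_ge (N p q z) (lev p q R) with h1 | h1
  · have ho : IsOpen {z | ‖p - q‖ < N p q z ∧ N p q z < lev p q R} :=
      (isOpen_lt continuous_const (N_continuous p q)).inter
        (isOpen_lt (N_continuous p q) continuous_const)
    have hm : z ∈ {z | ‖p - q‖ < N p q z ∧ N p q z < lev p q R} := ⟨hz.2, h1⟩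
    have he : eext p q ρ b₀ W =ᶠ[𝓝 z] fun z => W (Z p q z) / J1 p q (Z p q z) := by
      filter_upwards [ho.mem_nhds hm] with y hy
      exact h.eext_in hy.1 hy.2
    refine DifferentiableAt.congr_of_eventuallyEq ?_ he
    have h2 : 1 < ‖Z p q z‖ := (one_lt_Z h.hpq).1 hz.2
    have hZ : DifferentiableAt ℂ (Z p q) z := (Z_hasDerivAt h.hpq hz.2).differentiableAt
    have hr1 : ρ ^ 2 / R < 1 := by rw [div_lt_one (by linarith)]; exact h.hR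
    have hW : DifferentiableAt ℂ W (Z p q z) :=
      h.hW.differentiableAt ((An_open _ _).mem_nhds ⟨hr1.trans h2, (N_lt_iff h.hpq hR1 z).1 h1⟩)
    exact (hW.comp z hZ).div ((J1_differentiableAt p q (Z_ne h.hpq z)).comp z hZ)
      (J1_ne h.hpq h2)
  · have hm : z ∈ Ω ∩ {z | lev p q ρ < N p q z} := ⟨hz.1, lt_of_lt_of_le hρR h1⟩
    have ho : IsOpen (Ω ∩ {z | lev p q ρ < N p q z}) :=
      hΩ.inter (isOpen_lt continuous_const (N_continuous p q))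
    have he : eext p q ρ b₀ W =ᶠ[𝓝 z] b₀ := by
      filter_upwards [ho.mem_nhds hm] with y hy
      exact eext_out hy.2
    exact (h.hb₀.differentiableAt (ho.mem_nhds hm)).congr_of_eventuallyEq he

/-- the field vanishes if it vanishes in the annulus -/
theorem ESys.zero (hΩ : IsOpen Ω) (hc : IsPreconnected Ω) (hk : 0 < k)
    (h : ESys Ω k p q ρ R b₀ b W) (h0 : ∀ ζ ∈ An (ρ ^ 2 / R) R, W ζ = 0) :
    (∀ z ∈ Ω, lev p q ρ < N p q z → b₀ z = 0) ∧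
      ∀ z, ‖p - q‖ < N p q z → N p q z < lev p q ρ → b z = 0 := by
  have hR1 : 1 ≤ R := by nlinarith [h.hR, h.one_lt]
  have hR0 : 0 < R := by linarith
  have hr1 : ρ ^ 2 / R < 1 := by rw [div_lt_one (by linarith)]; exact h.hR
  have hρ0 : 0 < ρ := by linarith [h.one_lt]
  have hρR : lev p q ρ < lev p q R := by
    rw [lev_lt h.hpq h.one_lt.le hR1]; nlinarith [h.hR, h.one_lt]
  have hin : ∀ z, lev p q ρ < N p q z → N p q z < lev p q R → b₀ z = 0 := by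
    intro z h1 h2
    have hm : Z p q z ∈ An ρ R := by
      refine ⟨?_, (N_lt_iff h.hpq hR1 z).1 h2⟩
      by_contra hc
      rw [not_lt] at hc
      exact absurd ((N_le_iff h.hpq h.one_lt.le z).2 hc) (not_le.2 h1)
    have h3 := h.W_out _ hm
    rw [h0 _ ⟨by linarith [hm.1, h.one_lt], hm.2⟩, (Z_spec h.hpq z).2] at h3
    have h4 : J1 p q (Z p q z) ≠ 0 := J1_ne h.hpq (by linarith [hm.1, h.one_lt])
    exact (mul_eq_zero.1 h3.symm).resolve_right h4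
  constructor
  · classical
    set w : ℂ → ℂ := fun z => if N p q z < lev p q R then 0 else b₀ z with hw
    have ho : IsOpen {z | N p q z < lev p q R} := isOpen_lt (N_continuous p q) continuous_const
    have ho2 : IsOpen (Ω ∩ {z | lev p q ρ < N p q z}) :=
      hΩ.inter (isOpen_lt continuous_const (N_continuous p q))
    have hw1 : ∀ z ∈ {z | N p q z < lev p q R}, w z = 0 := by
      intro z hz
      have hz' : N p q z < lev p q R := hz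
      simp only [hw, if_pos hz']
    have hw2 : ∀ z ∈ Ω ∩ {z | lev p q ρ < N p q z}, w z = b₀ z := by
      intro z hz
      by_cases h1 : N p q z < lev p q R
      · rw [hw1 z h1, hin z hz.2 h1]
      · simp only [hw, if_neg h1]
    have hwd : DifferentiableOn ℂ w Ω := by
      intro z hz
      apply DifferentiableAt.differentiableWithinAt
      rcases lt_or_ge (N p q z) (lev p q R) with h1 | h1
      · exact (differentiableAt_const (0 : ℂ)).congr_of_eventuallyEq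
          (Filter.eventuallyEq_of_mem (ho.mem_nhds h1) hw1)
      · have hm : z ∈ Ω ∩ {z | lev p q ρ < N p q z} := ⟨hz, lt_of_lt_of_le hρR h1⟩
        exact (h.hb₀.differentiableAt (ho2.mem_nhds hm)).congr_of_eventuallyEq
          (Filter.eventuallyEq_of_mem (ho2.mem_nhds hm) hw2)
    have hp : N p q p < lev p q R := by
      unfold N
      rw [sub_self, norm_zero, zero_add, ← lev_one p q]
      rw [lev_lt h.hpq le_rfl hR1]
      nlinarith [h.hR, h.one_lt]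
    have h2 := (hwd.analyticOnNhd hΩ).eqOn_zero_of_preconnected_of_eventuallyEq_zero hc
      (h.sub hp) (Filter.eventuallyEq_of_mem (ho.mem_nhds hp) hw1)
    intro z hz h3
    rw [← hw2 z ⟨hz, h3⟩]
    exact h2 hz
  · intro z h1 h2
    have hm : Z p q z ∈ An 1 ρ :=
      ⟨(one_lt_Z h.hpq).1 h1, (N_lt_iff h.hpq h.one_lt.le z).1 h2⟩
    have hcm : cinv 0 ρ (Z p q z) ∈ An ρ (ρ ^ 2) := by
      have h3 := cinv_An hρ0 zero_lt_one hm
      rwa [div_one, show ρ ^ 2 / ρ = ρ by field_simp] at h3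
    have h3 := h.W_in (Z p q z) ⟨by linarith [hm.1], hm.2⟩
    rw [h0 _ ⟨by linarith [hm.1], by nlinarith [hm.2, h.hR, h.one_lt]⟩] at h3
    have h4 : Phi 0 ρ W (Z p q z) = 0 := by
      unfold Phi
      rw [h0 _ ⟨by linarith [hcm.1, h.one_lt], by linarith [hcm.2, h.hR]⟩]
      simp
    rw [h4, mul_zero, sub_zero, (Z_spec h.hpq z).2] at h3
    have h5 : J1 p q (Z p q z) ≠ 0 := J1_ne h.hpq hm.1
    have h6 : 2 * (k : ℂ) / (1 + k) ≠ 0 := by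
      have h7 : (k : ℂ) ≠ 0 := by exact_mod_cast hk.ne'
      have h8 : (1 + (k : ℂ)) ≠ 0 := by
        have : (1 : ℝ) + k ≠ 0 := by positivity
        exact_mod_cast this
      exact div_ne_zero (mul_ne_zero two_ne_zero h7) h8
    have h7 := (mul_eq_zero.1 h3.symm).resolve_left h6
    exact (mul_eq_zero.1 h7).resolve_right h5

/-- equality with a field which is holomorphic across the segment -/
theorem ESys.loc_eq (h : ESys Ω k p q ρ R b₀ b W) {ζ₀ : ℂ} (hζ₀ : ‖ζ₀‖ = 1) {m : ℂ → ℂ}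
    (hm : AnalyticAt ℂ m (J p q ζ₀))
    (he : ∀ᶠ ζ in 𝓝 ζ₀, 1 < ‖ζ‖ → eext p q ρ b₀ W (J p q ζ) = m (J p q ζ)) :
    ∀ᶠ ζ in 𝓝 ζ₀, W ζ = m (J p q ζ) * J1 p q ζ := by
  have hR1 : 1 < R := by nlinarith [h.hR, h.one_lt]
  have hr1 : ρ ^ 2 / R < 1 := by rw [div_lt_one (by linarith)]; exact h.hR
  have h0 : ζ₀ ≠ 0 := by rintro rfl; simp at hζ₀
  have hWa : AnalyticAt ℂ W ζ₀ :=
    h.hW.analyticAt ((An_open _ _).mem_nhds ⟨by rw [hζ₀]; exact hr1, by rw [hζ₀]; exact hR1⟩)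
  have hJa : AnalyticAt ℂ (J p q) ζ₀ := by
    unfold J
    exact analyticAt_const.add (analyticAt_const.mul (analyticAt_id.add (analyticAt_id.inv h0)))
  have hJ1a : AnalyticAt ℂ (J1 p q) ζ₀ := by
    unfold J1
    exact analyticAt_const.mul (analyticAt_const.sub ((analyticAt_id.pow 2).inv
      (pow_ne_zero 2 h0)))
  have hma : AnalyticAt ℂ (fun ζ => m (J p q ζ) * J1 p q ζ) ζ₀ := (hm.comp hJa).mul hJ1a
  rw [← hWa.frequently_eq_iff_eventually_eq hma]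
  rw [frequently_iff]
  intro U hU
  rw [mem_nhdsWithin] at hU
  obtain ⟨V, hV, h1V, hVU⟩ := hU
  have hcont : ContinuousAt (fun x : ℝ => (x : ℂ) * ζ₀) 1 :=
    (Complex.continuous_ofReal.mul continuous_const).continuousAt
  have h1 : (fun x : ℝ => (x : ℂ) * ζ₀) 1 = ζ₀ := by simp
  have hn : ∀ᶠ ζ : ℂ in 𝓝 ζ₀, ‖ζ‖ < R := by
    have hc2 : ContinuousAt (fun z : ℂ => ‖z‖) ζ₀ := continuous_norm.continuousAt
    have h3 : ‖ζ₀‖ < R := by rw [hζ₀]; exact hR1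
    exact hc2.eventually (gt_mem_nhds h3)
  have hVn : ∀ᶠ x : ℝ in 𝓝 1, (x : ℂ) * ζ₀ ∈ V ∧ (1 < ‖(x : ℂ) * ζ₀‖ →
      eext p q ρ b₀ W (J p q ((x : ℂ) * ζ₀)) = m (J p q ((x : ℂ) * ζ₀))) ∧
        ‖(x : ℂ) * ζ₀‖ < R := by
    have h2 : ∀ᶠ ζ in 𝓝 ζ₀, ζ ∈ V ∧ (1 < ‖ζ‖ → eext p q ρ b₀ W (J p q ζ) = m (J p q ζ)) ∧
        ‖ζ‖ < R := by
      filter_upwards [hV.mem_nhds h1V, he, hn] with ζ a1 a2 a3
      exact ⟨a1, a2, a3⟩
    rw [← h1] at h2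
    exact hcont.eventually h2
  have h3 := (hVn.filter_mono (nhdsWithin_le_nhds (s := Ioi (1 : ℝ)))).and self_mem_nhdsWithin
  obtain ⟨x, ⟨hxV, hxe, hxR⟩, hx1⟩ := h3.exists
  have hx1' : (1 : ℝ) < x := hx1
  have hxn : 1 < ‖(x : ℂ) * ζ₀‖ := by
    rw [norm_mul, hζ₀, mul_one, Complex.norm_real, Real.norm_eq_abs, abs_of_pos (by linarith)]
    exact hx1'
  refine ⟨(x : ℂ) * ζ₀, hVU ⟨hxV, ?_⟩, ?_⟩
  · simp only [mem_compl_iff, mem_singleton_iff]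
    intro h5
    rw [h5, hζ₀] at hxn
    exact lt_irrefl _ hxn
  · rw [h.eext_J hxn hxR, hxe hxn]

/-- if the extended field continues across an inner point of the focal segment, it vanishes -/
theorem ESys.kill (h : ESys Ω k p q ρ R b₀ b W) (hk : 0 < k) (hk1 : k ≠ 1) {ζ₀ : ℂ}
    (hζ₀ : ‖ζ₀‖ = 1) {m : ℂ → ℂ} (hm : AnalyticAt ℂ m (J p q ζ₀))
    (he : ∀ᶠ ζ in 𝓝 ζ₀, 1 < ‖ζ‖ → eext p q ρ b₀ W (J p q ζ) = m (J p q ζ))
    (he' : ∀ᶠ ζ in 𝓝 ζ₀⁻¹, 1 < ‖ζ‖ → eext p q ρ b₀ W (J p q ζ) = m (J p q ζ)) :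
    ∀ ζ ∈ An (ρ ^ 2 / R) R, W ζ = 0 := by
  have hR1 : 1 < R := by nlinarith [h.hR, h.one_lt]
  have hR0 : 0 < R := by linarith
  have hρ0 : 0 < ρ := by linarith [h.one_lt]
  have hr0 : 0 < ρ ^ 2 / R := by positivity
  have hr1 : ρ ^ 2 / R < 1 := by rw [div_lt_one (by linarith)]; exact h.hR
  have h0 : ζ₀ ≠ 0 := by rintro rfl; simp at hζ₀
  have a1 := h.loc_eq hζ₀ hm he
  have a2 := h.loc_eq (ζ₀ := ζ₀⁻¹) (by rw [norm_inv, hζ₀, inv_one]) (by rwa [J_inv]) he'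
  have hlam : (1 - k) / (1 + k) ≠ 0 := by
    apply div_ne_zero
    · intro h1; apply hk1; linarith
    · positivity
  have hs : ∀ᶠ ζ in 𝓝 ζ₀, (fun ζ => ζ * W ζ) ζ⁻¹ = -(fun ζ => ζ * W ζ) ζ := by
    have hci : ContinuousAt (fun z : ℂ => z⁻¹) ζ₀ := continuousAt_inv₀ h0
    have a3 := hci.eventually a2
    filter_upwards [a1, a3, isOpen_ne.mem_nhds h0] with ζ b1 b2 b3
    change ζ⁻¹ * W ζ⁻¹ = -(ζ * W ζ)
    rw [b1, b2, J_inv, J1_inv p q b3]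
    field_simp
  have hgd : DifferentiableOn ℂ (fun ζ => ζ * W ζ) (An (ρ ^ 2 / R) R) :=
    differentiableOn_id.mul h.hW
  have h1 := sym_zero hlam h.one_lt h.hR hgd (fun ζ hζ => h.odd ζ hζ) (ζ₀ := ζ₀)
    ⟨by rw [hζ₀]; exact hr1, by rw [hζ₀]; exact (one_lt_inv₀ hr0).2 hr1⟩ hs
  intro ζ hζ
  have h2 : ζ * W ζ = 0 := h1 ζ hζ
  exact (mul_eq_zero.1 h2).resolve_left (An_ne hr0.le hζ)

/-- two ellipses with the same foci -/
theorem conf_kill {ρ' R' : ℝ} {b₀' b' W' : ℂ → ℂ} (h : ESys Ω k p q ρ R b₀ b W)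
    (h' : ESys Ω k p q ρ' R' b₀' b' W') (hk : 0 < k) (hk1 : k ≠ 1) (hlt : ρ < ρ')
    {ζ₀ : ℂ} (hζ₀ : ‖ζ₀‖ = 1)
    (he : ∀ᶠ ζ in 𝓝 ζ₀, 1 < ‖ζ‖ → eext p q ρ b₀ W (J p q ζ) = eext p q ρ' b₀' W' (J p q ζ)) :
    ∀ ζ ∈ An (ρ' ^ 2 / R') R', W' ζ = 0 := by
  have hR1 : 1 < R := by nlinarith [h.hR, h.one_lt]
  have hR1' : 1 < R' := by nlinarith [h'.hR, h'.one_lt]
  have hρ0 : 0 < ρ := by linarith [h.one_lt]
  have hρ0' : 0 < ρ' := by linarith [h'.one_lt]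
  have hr0 : 0 < ρ ^ 2 / R := by positivity
  have hr0' : 0 < ρ' ^ 2 / R' := by positivity
  have hr1 : ρ ^ 2 / R < 1 := by rw [div_lt_one (by linarith)]; exact h.hR
  have hr1' : ρ' ^ 2 / R' < 1 := by rw [div_lt_one (by linarith)]; exact h'.hR
  have h0 : ζ₀ ≠ 0 := by rintro rfl; simp at hζ₀
  set r₀ := max (ρ ^ 2 / R) (ρ' ^ 2 / R') with hr₀
  set R₀ := min R R' with hR₀
  have hr₀0 : 0 < r₀ := lt_of_lt_of_le hr0 (le_max_left _ _)
  have hr₀1 : r₀ < 1 := max_lt hr1 hr1'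
  have hR₀1 : 1 < R₀ := lt_min hR1 hR1'
  have hs1 : An r₀ R₀ ⊆ An (ρ ^ 2 / R) R := fun z hz =>
    ⟨lt_of_le_of_lt (le_max_left _ _) hz.1, lt_of_lt_of_le hz.2 (min_le_left _ _)⟩
  have hs2 : An r₀ R₀ ⊆ An (ρ' ^ 2 / R') R' := fun z hz =>
    ⟨lt_of_le_of_lt (le_max_right _ _) hz.1, lt_of_lt_of_le hz.2 (min_le_right _ _)⟩
  have hζm : ζ₀ ∈ An r₀ R₀ := ⟨by rw [hζ₀]; exact hr₀1, by rw [hζ₀]; exact hR₀1⟩
  have hWa : AnalyticOnNhd ℂ W (An r₀ R₀) := (h.hW.mono hs1).analyticOnNhd (An_open _ _)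
  have hWa' : AnalyticOnNhd ℂ W' (An r₀ R₀) := (h'.hW.mono hs2).analyticOnNhd (An_open _ _)
  have hn : ∀ᶠ ζ : ℂ in 𝓝 ζ₀, ‖ζ‖ < R₀ := by
    have hc2 : ContinuousAt (fun z : ℂ => ‖z‖) ζ₀ := continuous_norm.continuousAt
    have h3 : ‖ζ₀‖ < R₀ := by rw [hζ₀]; exact hR₀1
    exact hc2.eventually (gt_mem_nhds h3)
  have hfreq : ∃ᶠ z in 𝓝[≠] ζ₀, W z = W' z := by
    rw [frequently_iff]
    intro U hU
    rw [mem_nhdsWithin] at hU
    obtain ⟨V, hV, h1V, hVU⟩ := hU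
    have hcont : ContinuousAt (fun x : ℝ => (x : ℂ) * ζ₀) 1 :=
      (Complex.continuous_ofReal.mul continuous_const).continuousAt
    have h1 : (fun x : ℝ => (x : ℂ) * ζ₀) 1 = ζ₀ := by simp
    have hVn : ∀ᶠ x : ℝ in 𝓝 1, (x : ℂ) * ζ₀ ∈ V ∧ (1 < ‖(x : ℂ) * ζ₀‖ →
        eext p q ρ b₀ W (J p q ((x : ℂ) * ζ₀)) = eext p q ρ' b₀' W' (J p q ((x : ℂ) * ζ₀))) ∧
          ‖(x : ℂ) * ζ₀‖ < R₀ := by
      have h2 : ∀ᶠ ζ in 𝓝 ζ₀, ζ ∈ V ∧ (1 < ‖ζ‖ → eext p q ρ b₀ W (J p q ζ) =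
          eext p q ρ' b₀' W' (J p q ζ)) ∧ ‖ζ‖ < R₀ := by
        filter_upwards [hV.mem_nhds h1V, he, hn] with ζ a1 a2 a3
        exact ⟨a1, a2, a3⟩
      rw [← h1] at h2
      exact hcont.eventually h2
    have h3 := (hVn.filter_mono (nhdsWithin_le_nhds (s := Ioi (1 : ℝ)))).and self_mem_nhdsWithin
    obtain ⟨x, ⟨hxV, hxe, hxR⟩, hx1⟩ := h3.exists
    have hx1' : (1 : ℝ) < x := hx1
    have hxn : 1 < ‖(x : ℂ) * ζ₀‖ := by
      rw [norm_mul, hζ₀, mul_one, Complex.norm_real, Real.norm_eq_abs, abs_of_pos (by linarith)]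
      exact hx1'
    refine ⟨(x : ℂ) * ζ₀, hVU ⟨hxV, ?_⟩, ?_⟩
    · simp only [mem_compl_iff, mem_singleton_iff]
      intro h5
      rw [h5, hζ₀] at hxn
      exact lt_irrefl _ hxn
    · rw [h.eext_J hxn (lt_of_lt_of_le hxR (min_le_left _ _)), hxe hxn,
        h'.eext_J hxn (lt_of_lt_of_le hxR (min_le_right _ _))]
  have heq : EqOn W W' (An r₀ R₀) :=
    hWa.eqOn_of_preconnected_of_frequently_eq hWa' (An_preconnected hr₀0) hζm hfreq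
  have hlam : (1 - k) / (1 + k) ≠ 0 := by
    apply div_ne_zero
    · intro h1; apply hk1; linarith
    · positivity
  have hlam1 : |(1 - k) / (1 + k)| < 1 := by
    have h1k : 0 < 1 + k := by linarith
    rw [abs_div, abs_of_pos h1k, div_lt_one h1k, abs_lt]
    constructor <;> linarith
  have hgd : DifferentiableOn ℂ (fun ζ => ζ * W' ζ) (An (ρ' ^ 2 / R') R') :=
    differentiableOn_id.mul h'.hW
  have hρρ : ρ ^ 2 < ρ' ^ 2 := by nlinarith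
  have h1 := conf_zero hlam hlam1 h.one_lt hlt h'.hR hr1' hr0' hgd (by
    intro ζ hζ
    have h0 : ζ ≠ 0 := by rintro rfl; simp at hζ
    have h2 := h.odd ζ ⟨by rw [hζ]; exact hr1, by rw [hζ]; exact (one_lt_inv₀ hr0).2 hr1⟩
    have m1 : ζ ∈ An r₀ R₀ := ⟨by rw [hζ]; exact hr₀1, by rw [hζ]; exact hR₀1⟩
    have m2 : ζ⁻¹ ∈ An r₀ R₀ := ⟨by rw [norm_inv, hζ, inv_one]; exact hr₀1, by
      rw [norm_inv, hζ, inv_one]; exact hR₀1⟩
    have hρR : ρ ^ 2 < R₀ := lt_min h.hR (hρρ.trans h'.hR)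
    have hρ1 : 1 < ρ ^ 2 := by nlinarith [h.one_lt]
    have m3 : cinv 0 ρ ζ ∈ An r₀ R₀ := by
      constructor
      · rw [norm_cinv0, hζ, div_one]; linarith
      · rw [norm_cinv0, hζ, div_one]; exact hρR
    have m4 : cinv 0 ρ ζ⁻¹ ∈ An r₀ R₀ := by
      constructor
      · rw [norm_cinv0, norm_inv, hζ, inv_one, div_one]; linarith
      · rw [norm_cinv0, norm_inv, hζ, inv_one, div_one]; exact hρR
    rw [heq m1, heq m2, heq m3, heq m4] at h2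
    exact h2) (by
    intro ζ hζ
    exact h'.odd ζ ⟨by rw [hζ]; exact hr1', by rw [hζ]; exact (one_lt_inv₀ hr0').2 hr1'⟩)
  intro ζ hζ
  have h2 : ζ * W' ζ = 0 := h1 ζ hζ
  exact (mul_eq_zero.1 h2).resolve_left (An_ne hr0'.le hζ)

end Pool.Agent.H385E
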