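import Pool.Agent.H385.Disk

/-!
A field holomorphic in the part of an open set inside a circle is orthogonal to gradients of
functions which vanish on the circle.
-/

open Complex Metric Set Filter Topology ComplexConjugate MeasureTheory
open scoped ContDiff ENNReal

namespace Pool.Agent.H385E

open Pool.Agent.H385

/-- the compactly supported version -/
theorem ann_zero_compact (a : ℂ) {r : ℝ} (hr : 0 < r) {V : Set ℂ} (hV : IsOpen V) (b : ℂ → ℂ)
    (hb : DifferentiableOn ℂ b (ball a r ∩ V)) (χ : ℂ → ℝ) (hsV : tsupport χ ⊆ V) (hχ : ContDiff ℝ 1 χ) {ε : ℝ} (hε : 0 < ε)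
    (h0 : ∀ w, r ^ 2 - ‖w - a‖ ^ 2 < ε → χ w = 0) :
    ∫ w in ball a r, b w * grad χ w = 0 := by
  classical
  set F : ℂ → ℂ := (ball a r).indicator (fun w => b w * (χ w : ℂ)) with hFdef
  have hin : ∀ w ∈ ball a r, F =ᶠ[𝓝 w] fun w => b w * (χ w : ℂ) := by
    intro w hw
    filter_upwards [isOpen_ball.mem_nhds hw] with z hz
    rw [hFdef, indicator_of_mem hz]
  have hzero : ∀ z, r ^ 2 - ‖z - a‖ ^ 2 < ε → F z = 0 := by
    intro z hz
    rw [hFdef]
    by_cases h : z ∈ ball a r
    · rw [indicator_of_mem h, h0 z hz]; simp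
    · rw [indicator_of_notMem h]
  have hout : ∀ w, w ∉ ball a r → F =ᶠ[𝓝 w] fun _ => 0 := by
    intro w hw
    have h1 : Continuous fun z : ℂ => r ^ 2 - ‖z - a‖ ^ 2 := by fun_prop
    have h2 : r ^ 2 - ‖w - a‖ ^ 2 < ε := by
      rw [mem_ball, dist_eq_norm, not_lt] at hw
      nlinarith
    filter_upwards [h1.continuousAt.eventually_lt continuousAt_const h2] with z hz
    exact hzero z hz
  have hBV : IsOpen (ball a r ∩ V) := isOpen_ball.inter hV
  have hoV : ∀ w, w ∉ V → χ =ᶠ[𝓝 w] fun _ => 0 := by
    intro w hw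
    have h1 : w ∈ (tsupport χ)ᶜ := fun h => hw (hsV h)
    filter_upwards [(isClosed_tsupport χ).isOpen_compl.mem_nhds h1] with z hz
    exact image_eq_zero_of_notMem_tsupport hz
  have hFV : ∀ w, w ∉ V → F =ᶠ[𝓝 w] fun _ => 0 := by
    intro w hw
    filter_upwards [hoV w hw] with z hz
    rw [hFdef]
    by_cases h : z ∈ ball a r
    · rw [indicator_of_mem h, hz]; simp
    · rw [indicator_of_notMem h]
  have hbR : ∀ w ∈ ball a r ∩ V, HasFDerivAt b
      ((ContinuousLinearMap.toSpanSingleton ℂ (deriv b w)).restrictScalars ℝ) w := by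
    intro w hw
    exact ((hb.differentiableAt (hBV.mem_nhds hw)).hasDerivAt.hasFDerivAt).restrictScalars ℝ
  have hχc : ContDiff ℝ 1 (fun w => (χ w : ℂ)) := Complex.ofRealCLM.contDiff.comp hχ
  have hFc : ContDiff ℝ 1 F := by
    rw [contDiff_iff_contDiffAt]
    intro w
    by_cases hw : w ∈ ball a r
    · by_cases hwV : w ∈ V
      · refine ContDiffAt.congr_of_eventuallyEq ?_ (hin w hw)
        have h1 : ContDiffAt ℂ 1 b w :=
          (hb.analyticAt (hBV.mem_nhds ⟨hw, hwV⟩)).contDiffAt
        exact (h1.restrict_scalars ℝ).mul hχc.contDiffAt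
      · exact ContDiffAt.congr_of_eventuallyEq contDiffAt_const (hFV w hwV)
    · exact ContDiffAt.congr_of_eventuallyEq contDiffAt_const (hout w hw)
  have hsupp : HasCompactSupport F := by
    refine HasCompactSupport.intro (isCompact_closedBall a r) fun z hz => ?_
    rw [hFdef]
    exact indicator_of_notMem (fun h => hz (ball_subset_closedBall h)) _
  have hD : ∀ w, (ball a r).indicator (fun w => b w * grad χ w) w =
      fderiv ℝ F w 1 + Complex.I * fderiv ℝ F w Complex.I := by
    intro w
    by_cases hw : w ∈ ball a r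
    · by_cases hwV : w ∈ V
      · rw [indicator_of_mem hw, (hin w hw).fderiv_eq]
        have h2 : HasFDerivAt χ (fderiv ℝ χ w) w :=
          (hχ.differentiable (by norm_num) w).hasFDerivAt
        have h3 : HasFDerivAt (fun w => (χ w : ℂ)) (Complex.ofRealCLM.comp (fderiv ℝ χ w)) w :=
          Complex.ofRealCLM.hasFDerivAt.comp w h2
        rw [((hbR w ⟨hw, hwV⟩).fun_mul h3).fderiv]
        unfold grad
        simp
        linear_combination (χ w : ℂ) * deriv b w * (-1 : ℂ) * (Complex.I_sq)
      · rw [indicator_of_mem hw, (hFV w hwV).fderiv_eq]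
        unfold grad
        rw [(hoV w hwV).fderiv_eq]
        simp
    · rw [indicator_of_notMem hw, (hout w hw).fderiv_eq]
      simp
  rw [← integral_indicator measurableSet_ball]
  simp only [hD]
  have h1 : ∀ v : ℂ, Integrable fun z => fderiv ℝ F z v := by
    intro v
    have h1 : Continuous fun z => fderiv ℝ F z v :=
      (hFc.continuous_fderiv (by norm_num)).clm_apply continuous_const
    have h2 : HasCompactSupport fun z => fderiv ℝ F z v := by
      have := hsupp.fderiv (𝕜 := ℝ)
      exact this.comp_left (g := fun L : ℂ →L[ℝ] ℂ => L v) (by simp)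
    exact h1.integrable_of_hasCompactSupport h2
  rw [integral_add (h1 1) ((h1 Complex.I).const_mul _), integral_const_mul,
    disk_integral_fderiv hFc hsupp, disk_integral_fderiv hFc hsupp]
  simp

theorem ann_zero (a : ℂ) {r : ℝ} (hr : 0 < r) {V : Set ℂ} (hV : IsOpen V) (b : ℂ → ℂ)
    (hb : DifferentiableOn ℂ b (ball a r ∩ V)) (hb1 : IntegrableOn b (ball a r))
    (η : ℂ → ℝ) (hη : ContDiff ℝ 1 η) (hsV : tsupport η ⊆ V) (h0 : ∀ w, ‖w - a‖ = r → η w = 0) :
    ∫ w in ball a r, b w * grad η w = 0 := by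
  set q : ℂ → ℝ := fun w => r ^ 2 - ‖w - a‖ ^ 2 with hq
  have hqc : ContDiff ℝ 1 q :=
    contDiff_const.sub ((contDiff_id.sub contDiff_const).norm_sq ℝ)
  obtain ⟨C, hC0, hC⟩ := disk_lip a hr hη h0
  obtain ⟨K, hK⟩ := diskT_bound
  have hK0 : 0 ≤ K := (abs_nonneg _).trans (hK 0)
  obtain ⟨Q, hQ⟩ := (isCompact_closedBall a r).exists_bound_of_continuousOn
    (hqc.continuous_fderiv (by norm_num)).continuousOn
  have hQ0 : 0 ≤ Q := (norm_nonneg _).trans (hQ a (mem_closedBall_self hr.le))
  obtain ⟨N, hN⟩ := (isCompact_closedBall a r).exists_bound_of_continuousOn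
    (disk_grad_continuous hη).continuousOn
  have hN0 : 0 ≤ N := (norm_nonneg _).trans (hN a (mem_closedBall_self hr.le))
  -- the cutoff functions
  set χ : ℕ → ℂ → ℝ := fun n w => diskT ((n : ℝ) * q w) with hχ
  have hχc : ∀ n, ContDiff ℝ 1 (χ n) := fun n => diskT_contDiff.comp (contDiff_const.mul hqc)
  have hz : ∀ n : ℕ, 0 < n → ∫ w in ball a r, b w * grad (fun z => η z * χ n z) w = 0 := by
    intro n hn
    have hn' : (0 : ℝ) < n := by exact_mod_cast hn
    refine ann_zero_compact a hr hV b hb _ ((tsupport_mul_subset_left).trans hsV)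
      (hη.mul (hχc n)) (ε := 1 / n) (by positivity) ?_
    intro w hw
    have : (n : ℝ) * q w ≤ 1 := by
      have h1 : q w < 1 / n := hw
      rw [lt_div_iff₀ hn'] at h1
      linarith
    simp only [hχ]
    rw [diskT_zero this, mul_zero]
  have hqpos : ∀ w ∈ ball a r, 0 < q w := by
    intro w hw
    rw [mem_ball, dist_eq_norm] at hw
    have := norm_nonneg (w - a)
    simp only [hq]
    nlinarith
  have hfd : ∀ (n : ℕ) w, fderiv ℝ (χ n) w = deriv diskT ((n : ℝ) * q w) • ((n : ℝ) • fderiv ℝ q w) := by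
    intro n w
    have h1 : HasFDerivAt (fun w => (n : ℝ) * q w) ((n : ℝ) • fderiv ℝ q w) w :=
      ((hqc.differentiable (by norm_num) w).hasFDerivAt).const_mul (n : ℝ)
    have h2 : HasDerivAt diskT (deriv diskT ((n : ℝ) * q w)) ((n : ℝ) * q w) :=
      (diskT_contDiff.differentiable (by norm_num) _).hasDerivAt
    exact (h2.comp_hasFDerivAt w h1).fderiv
  have hbd : ∀ (n : ℕ), ∀ w ∈ ball a r, ‖grad (fun z => η z * χ n z) w‖ ≤ N + 2 * (C * K * Q) := by
    intro n w hw
    have hwc : w ∈ closedBall a r := ball_subset_closedBall hw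
    rw [disk_grad_mul (hη.differentiable (by norm_num) w) ((hχc n).differentiable (by norm_num) w)]
    have h1 : ‖(χ n w : ℂ) * grad η w‖ ≤ N := by
      rw [norm_mul, Complex.norm_real, Real.norm_eq_abs]
      have h2 : |χ n w| ≤ 1 := by
        simp only [hχ, diskT]
        rw [abs_of_nonneg (Real.smoothTransition.nonneg _)]
        exact Real.smoothTransition.le_one _
      calc _ ≤ 1 * N := mul_le_mul h2 (hN w hwc) (norm_nonneg _) (by norm_num)
        _ = N := one_mul N
    have h3 : ‖(η w : ℂ) * grad (χ n) w‖ ≤ 2 * (C * K * Q) := by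
      rw [norm_mul, Complex.norm_real, Real.norm_eq_abs]
      have h4 := disk_norm_grad (χ n) w
      rw [hfd, norm_smul, norm_smul, Real.norm_eq_abs, Real.norm_eq_abs, Nat.abs_cast] at h4
      have h5 := hC w hw
      have h6 := hK ((n : ℝ) * q w)
      rw [abs_mul, abs_mul, Nat.abs_cast, abs_of_pos (hqpos w hw)] at h6
      have h7 := hQ w hwc
      have h8 : 0 ≤ q w := (hqpos w hw).le
      calc |η w| * ‖grad (χ n) w‖
          ≤ (C * q w) * (2 * (|deriv diskT ((n : ℝ) * q w)| * ((n : ℝ) * ‖fderiv ℝ q w‖))) :=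
            mul_le_mul h5 h4 (norm_nonneg _) (by positivity)
        _ = 2 * (C * ((n : ℝ) * q w * |deriv diskT ((n : ℝ) * q w)|) * ‖fderiv ℝ q w‖) := by ring
        _ ≤ 2 * (C * K * Q) := by gcongr
    exact (norm_add_le _ _).trans (add_le_add h1 h3)
  have hmeas : ∀ n, AEStronglyMeasurable (fun w => b w * grad (fun z => η z * χ n z) w)
      (volume.restrict (ball a r)) := by
    intro n
    exact hb1.1.mul (disk_grad_continuous (hη.mul (hχc n))).aestronglyMeasurable
  have hlim := tendsto_integral_of_dominated_convergence (μ := volume.restrict (ball a r))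
    (F := fun n w => b w * grad (fun z => η z * χ n z) w) (f := fun w => b w * grad η w)
    (fun w => ‖b w‖ * (N + 2 * (C * K * Q))) hmeas (hb1.norm.mul_const _)
    (fun n => by
      filter_upwards [ae_restrict_mem measurableSet_ball] with w hw
      rw [norm_mul]
      exact mul_le_mul_of_nonneg_left (hbd n w hw) (norm_nonneg _))
    (by
      filter_upwards [ae_restrict_mem measurableSet_ball] with w hw
      have hqw := hqpos w hw
      obtain ⟨n0, hn0⟩ := exists_nat_gt (3 / q w)
      refine tendsto_const_nhds.congr' ?_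
      filter_upwards [eventually_ge_atTop n0] with n hn
      have h1 : 3 < (n : ℝ) * q w := by
        rw [div_lt_iff₀ hqw] at hn0
        have : (n0 : ℝ) ≤ n := by exact_mod_cast hn
        nlinarith
      have h2 : (fun z => η z * χ n z) =ᶠ[𝓝 w] η := by
        have h3 : ContinuousAt (fun z => (n : ℝ) * q z) w :=
          (continuous_const.mul hqc.continuous).continuousAt
        filter_upwards [h3.eventually (lt_mem_nhds h1)] with z hz
        simp only [hχ]
        rw [diskT_one (by linarith), mul_one]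
      rw [disk_grad_congr h2])
  have h9 : (fun n : ℕ => ∫ w in ball a r, b w * grad (fun z => η z * χ n z) w) =ᶠ[atTop]
      fun _ => 0 := by
    filter_upwards [eventually_gt_atTop 0] with n hn
    exact hz n hn
  exact tendsto_nhds_unique (hlim.congr' h9) tendsto_const_nhds |>.symm ▸ rfl

end Pool.Agent.H385E
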